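import Pool.Agent.VFP.Util
import Pool.Agent.VK3.Conic

/-!
# Parametrisation of conics
-/

set_option autoImplicit false

noncomputable section

namespace Pool.Agent.VFP

open Pool.Agent.ZCyc Polynomial

universe u

variable {k : Type u} [Field k] {N r : ℕ}

variable [IsAlgClosed k] [CharZero k]

/-- from `Pool.Agent.VK3.conic` (the same field `Om k` and the same `tt k`) -/
theorem conic (q : k[X]) (hq : q.natDegree ≤ 2) (h0 : q.eval 0 = 1) (τ₁ : k) (h1 : τ₁ ≠ 0) :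
    ∃ (τ ρ : Om k) (c₀ c₁ : k), ρ ^ 2 = aeval τ q ∧
      (∀ v : Place k (Om k), v.At (tt k) c₀ → v.At τ 0 ∧ v.At ρ 1) ∧
      ∀ v : Place k (Om k), v.At (tt k) c₁ → v.At τ τ₁ :=
  Pool.Agent.VK3.conic q hq h0 τ₁ h1

omit [IsAlgClosed k] [CharZero k] in
private lemma quad (q : k[X]) (hq : q.natDegree ≤ 2) (h0 : q.eval 0 = 1) :
    q = C (q.coeff 2) * X ^ 2 + C (q.coeff 1) * X + 1 := by
  have h1 := eq_quadratic_of_degree_le_two (natDegree_le_iff_degree_le.1 hq)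
  have h2 : q.coeff 0 = 1 := by rw [coeff_zero_eq_eval_zero]; exact h0
  rw [h2] at h1
  simpa using h1

/-- If `q = (1 + c τ) ²` take `τ = t / (1 - t)`; otherwise `q = 1 + q₁ τ + q₂ τ ²`, `ρ = 1 + t τ`,
`τ = (q₁ - 2 t) / (t ² - q₂)`, `c₀ = q₁ / 2`, `c₁ ² = q₂`. -/
theorem conic_inf (q : k[X]) (hq : q.natDegree ≤ 2) (h0 : q.eval 0 = 1) :
    ∃ (τ ρ : Om k) (c₀ c₁ : k), ρ ^ 2 = aeval τ q ∧
      (∀ v : Place k (Om k), v.At (tt k) c₀ → v.At τ 0 ∧ v.At ρ 1) ∧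
      ∀ v : Place k (Om k), v.At (tt k) c₁ → τ ∉ v.ring := by
  have hqq := quad q hq h0
  obtain ⟨q₁, hq₁⟩ : ∃ c, c = q.coeff 1 := ⟨_, rfl⟩
  obtain ⟨q₂, hq₂⟩ : ∃ c, c = q.coeff 2 := ⟨_, rfl⟩
  rw [← hq₁, ← hq₂] at hqq
  have ht0 : tt k ≠ 0 := by simpa using tt_ne (0 : k)
  have ht1 : (1 - tt k) ≠ 0 := by
    intro h
    exact tt_ne (1 : k) (by rw [map_one]; exact (sub_eq_zero.1 h).symm)
  by_cases hsq : q₂ = (q₁ / 2) ^ 2
  · refine ⟨tt k / (1 - tt k), 1 + algebraMap k (Om k) (q₁ / 2) * (tt k / (1 - tt k)), 0, 1,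
      ?_, ?_, ?_⟩
    · generalize tt k / (1 - tt k) = τ
      rw [hqq, hsq]
      simp only [map_add, map_mul, map_pow, aeval_C, aeval_X, map_one, map_div₀]
      have : (algebraMap k (Om k)) 2 = 2 := map_ofNat _ 2
      rw [this]
      ring
    · intro v hv
      have h2 : v.At (tt k / (1 - tt k)) 0 := by
        have := hv.div (at_one.sub hv) (by simp)
        simpa using this
      refine ⟨h2, ?_⟩
      have := at_one.add ((Place.at_const (v := v) (q₁ / 2)).mul h2)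
      simpa using this
    · intro v hv
      have h2 := inv_not_mem (param_one hv) (div_ne_zero ht1 ht0)
      rwa [inv_div] at h2
  · set ρ : Om k := tt k with hρ
    set Q₁ : Om k := algebraMap k (Om k) q₁ with hQ₁
    set Q₂ : Om k := algebraMap k (Om k) q₂ with hQ₂
    obtain ⟨c₁, hc₁⟩ := IsAlgClosed.exists_pow_nat_eq q₂ (n := 2) (by norm_num)
    have hD : ρ ^ 2 - Q₂ ≠ 0 := by
      have e1 : ρ ^ 2 - Q₂ = (ρ - algebraMap k (Om k) c₁) * (ρ - algebraMap k (Om k) (-c₁)) := by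
        rw [hQ₂, ← hc₁, map_pow, map_neg]
        ring
      rw [e1]
      exact mul_ne_zero (sub_ne_zero.2 (tt_ne c₁)) (sub_ne_zero.2 (tt_ne (-c₁)))
    refine ⟨(Q₁ - 2 * ρ) / (ρ ^ 2 - Q₂), 1 + ρ * ((Q₁ - 2 * ρ) / (ρ ^ 2 - Q₂)), q₁ / 2,
      c₁, ?_, ?_, ?_⟩
    · have hq' : aeval ((Q₁ - 2 * ρ) / (ρ ^ 2 - Q₂)) q =
          Q₂ * ((Q₁ - 2 * ρ) / (ρ ^ 2 - Q₂)) ^ 2 + Q₁ * ((Q₁ - 2 * ρ) / (ρ ^ 2 - Q₂)) + 1 := by
        conv_lhs => rw [hqq]
        simp only [map_add, map_mul, map_pow, aeval_C, aeval_X, map_one]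
        rfl
      rw [hq']
      field_simp
      ring
    · intro v hv
      have h2 : v.At (Q₁ - 2 * ρ) 0 := by
        have := (Place.at_const (v := v) q₁).sub ((at_num 2).mul hv)
        have e : q₁ - 2 * (q₁ / 2) = 0 := by ring
        rwa [e] at this
      have h3 : v.At (ρ ^ 2 - Q₂) ((q₁ / 2) ^ 2 - q₂) := (hv.pow 2).sub (Place.at_const q₂)
      have h4 : (q₁ / 2) ^ 2 - q₂ ≠ 0 := by
        intro h
        exact hsq (sub_eq_zero.1 h).symm
      have h5 := h2.div h3 h4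
      rw [zero_div] at h5
      refine ⟨h5, ?_⟩
      have := at_one.add (hv.mul h5)
      simpa using this
    · intro v hv
      have h2 : v.At (Q₁ - 2 * ρ) (q₁ - 2 * c₁) :=
        (Place.at_const (v := v) q₁).sub ((at_num 2).mul hv)
      have h4 : q₁ - 2 * c₁ ≠ 0 := by
        intro h
        apply hsq
        rw [← hc₁, sub_eq_zero.1 h]
        field_simp
      have h3 : v.At (ρ ^ 2 - Q₂) 0 := by
        have := (hv.pow 2).sub (Place.at_const (v := v) q₂)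
        rwa [hc₁, sub_self] at this
      have h5 := h3.div h2 h4
      rw [zero_div] at h5
      have h6 : Q₁ - 2 * ρ ≠ 0 := by
        intro h
        rw [h] at h2
        exact h4 (h2.unique at_zero)
      have h7 := inv_not_mem h5 (div_ne_zero hD h6)
      rwa [inv_div] at h7

end Pool.Agent.VFP
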