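import Pool.Agent.VFP.Defs2
import Pool.Agent.ZCyc.Places
import Pool.Agent.DCI57.At

/-!
# Places: general lemmas
-/

set_option autoImplicit false

noncomputable section

namespace Pool.Agent.VFP

open Pool.Agent.ZCyc Polynomial

universe u

variable {k : Type u} [Field k] {N r : ℕ}

/-! Places of the algebraic closure of `k(t)`. `v.At f c`: the value of `f` at `v` is `c`. -/

theorem tt_transc : Transcendental k (tt k) := by
  unfold tt
  rw [transcendental_algebraMap_iff (algebraMap (RatFunc k) (Om k)).injective]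
  exact RatFunc.transcendental_X

theorem tt_ne (c : k) : tt k ≠ algebraMap k (Om k) c := by
  intro h
  apply tt_transc (k := k)
  rw [h]
  exact isAlgebraic_algebraMap c

section

variable {v : Place k (Om k)}

theorem at_zero : v.At (0 : Om k) 0 := by
  simpa using Place.at_const (v := v) (0 : k)

theorem at_one : v.At (1 : Om k) 1 := by
  simpa using Place.at_const (v := v) (1 : k)

theorem at_num (m : ℕ) [m.AtLeastTwo] : v.At (OfNat.ofNat m : Om k) (OfNat.ofNat m : k) := by
  have := Place.at_const (v := v) (OfNat.ofNat m : k)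
  rwa [map_ofNat] at this

theorem at_evalc {s : Om k} {s' : k} (hs : v.At s s') (c : k[X]) :
    v.At (aeval s c) (aeval s' c) := by
  have := hs.aeval c
  rwa [← Polynomial.coe_aeval_eq_eval] at this

theorem inv_at_of_not_mem {f : Om k} (hf : f ∉ v.ring) : v.At f⁻¹ 0 := by
  rw [Place.at_zero_iff, v.vanishes_iff_or]
  right
  rwa [inv_inv]

theorem ne_zero_of_not_mem {f : Om k} (hf : f ∉ v.ring) : f ≠ 0 := by
  rintro rfl
  exact hf (zero_mem _)

theorem inv_not_mem {f : Om k} (hf : v.At f 0) (hf0 : f ≠ 0) : f⁻¹ ∉ v.ring := by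
  rw [Place.at_zero_iff, v.vanishes_iff_or] at hf
  rcases hf with hf | hf
  · exact absurd hf hf0
  · exact hf

theorem mem_of_pow {f : Om k} {m : ℕ} (hm : m ≠ 0) (h : f ^ m ∈ v.ring) : f ∈ v.ring := by
  rw [← v.ring.valuation_le_one_iff] at h ⊢
  rw [map_pow] at h
  exact (pow_le_one_iff hm).1 h

/-- the roots of a monic quadratic polynomial over the ring are in the ring -/
theorem mem_of_quad {G H f : Om k} (hG : G ∈ v.ring) (hH : H ∈ v.ring)
    (h : f ^ 2 - G * f + H = 0) : f ∈ v.ring := by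
  by_cases hz : f = 0
  · rw [hz]
    exact zero_mem _
  rcases v.ring.mem_or_inv_mem f with h1 | h1
  · exact h1
  · have h2 : f = G - H * f⁻¹ := by
      field_simp
      linear_combination h
    rw [h2]
    exact sub_mem hG (mul_mem hH h1)

theorem mem_of_cubic {p q f : Om k} (hp : p ∈ v.ring) (hq : q ∈ v.ring)
    (h : f ^ 3 + p * f = q) : f ∈ v.ring := by
  by_contra hX
  have hX0 := ne_zero_of_not_mem hX
  have hw : v.Vanishes f⁻¹ := Place.at_zero_iff.1 (inv_at_of_not_mem hX)
  have h1 : v.Vanishes (q * f⁻¹ ^ 3 - p * f⁻¹ ^ 2) :=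
    Place.Vanishes.sub v ((hw.pow v (by norm_num)).mul' v hq) ((hw.pow v (by norm_num)).mul' v hp)
  have h2 : q * f⁻¹ ^ 3 - p * f⁻¹ ^ 2 = algebraMap k (Om k) 1 := by
    rw [← h, map_one]
    field_simp
    ring
  rw [h2] at h1
  exact v.const_unit one_ne_zero h1

/-- a nonconstant polynomial has a pole where its argument has a pole -/
theorem aeval_not_mem {f : Om k} (hf : f ∉ v.ring) {p : k[X]} (hp : p ≠ C (p.eval 0)) :
    aeval f p ∉ v.ring := by
  intro hmem
  have hf0 := ne_zero_of_not_mem hf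
  have hinv := inv_at_of_not_mem hf
  have hn : p.natDegree ≠ 0 := by
    intro h0
    obtain ⟨c, hc⟩ := natDegree_eq_zero.1 h0
    apply hp
    rw [← hc]
    simp
  have hp0 : p ≠ 0 := by
    rintro rfl
    simp at hn
  have h1 : aeval f⁻¹ p.reverse = aeval f p * f⁻¹ ^ p.natDegree := by
    let _ : Invertible f := invertibleOfNonzero hf0
    have h3 := eval₂_reverse_mul_pow (algebraMap k (Om k)) f p
    rw [invOf_eq_inv] at h3
    rw [aeval_def, aeval_def]
    rw [← h3, mul_assoc, ← mul_pow, mul_inv_cancel₀ hf0, one_pow, mul_one]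
  have h2 : v.At (aeval f⁻¹ p.reverse) (p.reverse.eval 0) := hinv.aeval _
  have h3 : v.At (aeval f p * f⁻¹ ^ p.natDegree) 0 := by
    rw [Place.at_zero_iff]
    exact ((Place.at_zero_iff.1 hinv).pow v hn).mul' v hmem
  rw [h1] at h2
  have h4 := h2.unique h3
  rw [← coeff_zero_eq_eval_zero, coeff_zero_reverse] at h4
  exact hp0 (leadingCoeff_eq_zero.1 h4)

theorem exists_sq_at [IsAlgClosed k] {y f : Om k} {c : k} (hy : y ^ 2 = f) (hf : v.At f c) :
    ∃ d : k, v.At y d ∧ d ^ 2 = c := by
  have h1 : y ∈ v.ring := mem_of_pow two_ne_zero (hy ▸ hf.mem)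
  obtain ⟨d, hd⟩ := DCI57.exists_at v h1
  refine ⟨d, hd, ?_⟩
  have h2 := hd.pow 2
  rw [hy] at h2
  exact h2.unique hf

/-- the function `(1 - t) / t` -/
theorem param_one (hv : v.At (tt k) 1) : v.At ((1 - tt k) / tt k) 0 := by
  have h1 := (at_one.sub hv).div hv one_ne_zero
  simpa using h1

theorem param_zero (hv : v.At (tt k) 0) : (1 - tt k) / tt k ∉ v.ring := by
  have ht0 : tt k ≠ 0 := by simpa using tt_ne (0 : k)
  have ht1 : (1 - tt k) ≠ 0 := by
    intro h
    exact tt_ne (1 : k) (by rw [map_one]; exact (sub_eq_zero.1 h).symm)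
  have h1 : v.At (tt k / (1 - tt k)) 0 := by
    have := hv.div (at_one.sub hv) (by simp)
    simpa using this
  have h2 := inv_not_mem h1 (div_ne_zero ht0 ht1)
  rwa [inv_div] at h2

end

theorem param_transc : Transcendental k ((1 - tt k) / tt k) := by
  intro h
  apply tt_transc (k := k)
  have ht0 : tt k ≠ 0 := by simpa using tt_ne (0 : k)
  have h1 : IsAlgebraic k ((1 - tt k) / tt k + 1) := h.add isAlgebraic_one
  have h2 : (1 - tt k) / tt k + 1 = (tt k)⁻¹ := by
    field_simp
    ring
  rw [h2] at h1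
  have h3 := h1.inv
  rwa [inv_inv] at h3

end Pool.Agent.VFP
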