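import Pool.Agent.ZCyc.Defs

/-!
# Zero-cycles on the self-product of a fibre product of elliptic fibrations: definitions

Let `k` be an algebraically closed field of characteristic `0`. For `i < N` let `A i` and `B i` be
binary forms of degrees `2 a` and `3 a`, `a = deg i`, and let `blk` divide the indices `i` into `r`
blocks. We consider the variety `X` of dimension `N + 1` over the line with coordinates `(s₀ : s₁)`,
with the equations `y_b ² = ∏ z_i (x_i ³ + A_i(s) x_i z_i ² + B_i(s) z_i ³)`, the product over the
indices `i` of the block `b`. (For every block one has a double covering of a fibre product of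
projective bundles with coordinates `(x_i : z_i)`; its fibres are the quotients of products of
elliptic curves by even numbers of sign changes; `X` is the fibre product of these `r` coverings.)
-/

set_option autoImplicit false

noncomputable section

namespace Pool.Agent.VFP

open Pool.Agent.ZCyc

universe u

/-- Coordinates `(s₀ : s₁)`, `(x_i : z_i)` for `i < N`, and `y_b` for `b < r`. -/
@[ext]
structure Crd (N r : ℕ) (K : Type*) where
  /-- homogeneous coordinates on the line -/
  s : Fin 2 → K
  /-- the coordinates `x_i` -/
  x : Fin N → K
  /-- the coordinates `z_i` -/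
  z : Fin N → K
  /-- the coordinates `y_b` -/
  y : Fin r → K

/-- The data which define the variety `X`. -/
structure Dat (k : Type u) [Field k] (N r : ℕ) where
  /-- the degrees -/
  deg : Fin N → ℕ
  /-- the blocks -/
  blk : Fin N → Fin r
  /-- the coefficients of `x_i` -/
  A : Fin N → MvPolynomial (Fin 2) k
  /-- the constant coefficients -/
  B : Fin N → MvPolynomial (Fin 2) k

variable {k : Type u} [Field k] {N r : ℕ}

/-- The weight of `y_b` is half of the degree of the right hand side of the equation, i.e.
`3 / 2` times the sum of the numbers `deg i` for the indices `i` of the block. -/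
def Dat.wy (D : Dat k N r) (b : Fin r) : ℕ := 3 * (∑ i with D.blk i = b, D.deg i) / 2

/-- Change of homogeneous coordinates: `w` and `D.scale c m w` (`c ≠ 0`, `m i ≠ 0`) are coordinates
of the same point. -/
def Dat.scale (D : Dat k N r) {K : Type*} [Field K] (c : K) (m : Fin N → K) (w : Crd N r K) :
    Crd N r K where
  s j := c * w.s j
  x i := c ^ D.deg i * m i * w.x i
  z i := m i * w.z i
  y b := c ^ D.wy b * (∏ i with D.blk i = b, m i) ^ 2 * w.y b

/-- The factor `z_i (x_i ³ + A_i(s) x_i z_i ² + B_i(s) z_i ³)` of the equations. -/
def Dat.fac (D : Dat k N r) {K : Type*} [Field K] [Algebra k K] (w : Crd N r K) (i : Fin N) : K :=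
  w.z i * (w.x i ^ 3 + MvPolynomial.aeval w.s (D.A i) * w.x i * w.z i ^ 2 +
    MvPolynomial.aeval w.s (D.B i) * w.z i ^ 3)

/-- `w` are the homogeneous coordinates of a point of the variety `X`. -/
def Dat.OnX (D : Dat k N r) {K : Type*} [Field K] [Algebra k K] (w : Crd N r K) : Prop :=
  w.s ≠ 0 ∧ (∀ i, w.x i ≠ 0 ∨ w.z i ≠ 0) ∧ ∀ b, w.y b ^ 2 = ∏ i with D.blk i = b, D.fac w i

/-- The degrees have sum `4`, which means that the variety `X` has trivial canonical class; the
partial sums over the blocks are positive; the weights `y_b` are integers; the discriminants of the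
cubic polynomials are not zero, and together they have at least two zeros on the line. (Indices with
`deg i = 0` are allowed: they correspond to constant elliptic curves.) -/
structure Dat.Valid (D : Dat k N r) : Prop where
  pos : ∀ b, 0 < ∑ i with D.blk i = b, D.deg i
  sum : ∑ i, D.deg i = 4
  surj : Function.Surjective D.blk
  even : ∀ b, Even (∑ i with D.blk i = b, D.deg i)
  homA : ∀ i, (D.A i).IsHomogeneous (2 * D.deg i)
  homB : ∀ i, (D.B i).IsHomogeneous (3 * D.deg i)
  disc : ∀ i, 4 * D.A i ^ 3 + 27 * D.B i ^ 2 ≠ 0
  zeros : ∃ (α β : Fin 2 → k) (i j : Fin N), α 0 * β 1 ≠ α 1 * β 0 ∧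
    MvPolynomial.eval α (4 * D.A i ^ 3 + 27 * D.B i ^ 2) = 0 ∧
    MvPolynomial.eval β (4 * D.A j ^ 3 + 27 * D.B j ^ 2) = 0

/-- The algebraic closure of the field `k(t)`. -/
abbrev Om (k : Type u) [Field k] : Type u := AlgebraicClosure (RatFunc k)

/-- The variable `t`. -/
def tt (k : Type u) [Field k] : Om k := algebraMap (RatFunc k) (Om k) RatFunc.X

/-- The point with coordinates `P` in the algebraic closure of `k(t)` specialises at the place `v`
to the point with coordinates `p` in `k`: other homogeneous coordinates of `P` are congruent to `p`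
modulo the maximal ideal of `v`. -/
def Dat.IsValue (D : Dat k N r) (v : Place k (Om k)) (P : Crd N r (Om k)) (p : Crd N r k) : Prop :=
  ∃ (c : Om k) (m : Fin N → Om k),
    (∀ j, v.Vanishes ((D.scale c m P).s j - algebraMap k (Om k) (p.s j))) ∧
    (∀ i, v.Vanishes ((D.scale c m P).x i - algebraMap k (Om k) (p.x i))) ∧
    (∀ i, v.Vanishes ((D.scale c m P).z i - algebraMap k (Om k) (p.z i))) ∧
    ∀ b, v.Vanishes ((D.scale c m P).y b - algebraMap k (Om k) (p.y b))

/-- The image of a point under a field automorphism. -/
def Crd.map {K : Type*} (g : K → K) (w : Crd N r K) : Crd N r K where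
  s := g ∘ w.s
  x := g ∘ w.x
  z := g ∘ w.z
  y := g ∘ w.y

/-- The zero-cycles on `X × X` (finite formal combinations of pairs of systems of homogeneous
coordinates) which are rationally equivalent to zero, with rational coefficients.

Let `(P i, Q i)`, `i < n`, be a finite family of points of `X × X` with coordinates in the algebraic
closure of `k(t)` which is stable under the Galois group of `k(t)`. This is the same as an effective
zero-cycle on `X × X` over the field `k(t)`, or a family of effective zero-cycles parametrised by
the line, flat over the line. Its member at the point `t = a` is the sum of the specialisations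
`(p i, q i)` of the points of the family at any place `v` above `a`. The space of zero-cycles
rationally equivalent to zero is spanned by the differences between the members of such families
at two points `a` and `b` of the line (Fulton, Intersection theory, Proposition 1.6). (The constant
families show that it contains the differences of two systems of coordinates of the same point.) -/
def Dat.ratEq (D : Dat k N r) : Submodule ℚ (Crd N r k × Crd N r k →₀ ℚ) :=
  Submodule.span ℚ {z | ∃ (n : ℕ) (P Q : Fin n → Crd N r (Om k)) (a b : k) (v w : Place k (Om k))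
    (p q p' q' : Fin n → Crd N r k),
    (∀ i, D.OnX (P i) ∧ D.OnX (Q i)) ∧
    (∀ g : Om k ≃ₐ[RatFunc k] Om k, ∃ e : Equiv.Perm (Fin n), ∀ i,
      P (e i) = (P i).map g ∧ Q (e i) = (Q i).map g) ∧
    v.Vanishes (tt k - algebraMap k (Om k) a) ∧ w.Vanishes (tt k - algebraMap k (Om k) b) ∧
    (∀ i, D.OnX (p i) ∧ D.OnX (q i) ∧ D.IsValue v (P i) (p i) ∧ D.IsValue v (Q i) (q i)) ∧
    (∀ i, D.OnX (p' i) ∧ D.OnX (q' i) ∧ D.IsValue w (P i) (p' i) ∧ D.IsValue w (Q i) (q' i)) ∧
    z = ∑ i, (Finsupp.single (p i, q i) 1 - Finsupp.single (p' i, q' i) 1)}

/-- The exterior product of two zero-cycles. -/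
def prod (y z : Crd N r k →₀ ℚ) : Crd N r k × Crd N r k →₀ ℚ :=
  y.sum fun p c => z.sum fun q c' => Finsupp.single (p, q) (c * c')

end Pool.Agent.VFP
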