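import Pool.Agent.VFP.Defs2
import Pool.Agent.ZCyc.Basic

/-!
# Changes of signs: formal properties of CL
-/

set_option autoImplicit false

noncomputable section

namespace Pool.Agent.VFP

open Pool.Agent.ZCyc Polynomial

universe u

variable {k : Type u} [Field k] {N r : ℕ}

variable {D : Dat k N r}

private theorem unit_sq {K : Type*} [Field K] (e : ℤˣ) : (((e : ℤˣ) : ℤ) : K) ^ 2 = 1 := by
  rcases Int.units_eq_one_or e with h | h
  · rw [h]; simp
  · rw [h]; simp

private theorem unit_mul_self {K : Type*} [Field K] (e : ℤˣ) :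
    (((e : ℤˣ) : ℤ) : K) * (((e : ℤˣ) : ℤ) : K) = 1 := by
  rw [← pow_two, unit_sq]

theorem sg_sg {K : Type*} [Field K] (ε ε' : Fin r → ℤˣ) (w : Crd N r K) :
    sg ε (sg ε' w) = sg (ε * ε') w := by
  refine Crd.ext rfl rfl rfl ?_
  funext b
  simp only [sg, Pi.mul_apply, Units.val_mul, Int.cast_mul, mul_assoc]

theorem sg_one {K : Type*} [Field K] (w : Crd N r K) : sg 1 w = w := by
  refine Crd.ext rfl rfl rfl ?_
  funext b
  simp only [sg, Pi.one_apply, Units.val_one, Int.cast_one, one_mul]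

theorem sg_aff {K : Type*} [Field K] (ε : Fin r → ℤˣ) (s : K) (x : Fin N → K) (y : Fin r → K) :
    sg ε (aff s x y) = aff s x fun b => (((ε b : ℤˣ) : ℤ) : K) * y b := rfl

theorem onX_sg {K : Type*} [Field K] [Algebra k K] (ε : Fin r → ℤˣ) {w : Crd N r K}
    (h : D.OnX w) : D.OnX (sg ε w) := by
  obtain ⟨h1, h2, h3⟩ := h
  refine ⟨h1, h2, fun b => ?_⟩
  have e : (sg ε w).y b ^ 2 = w.y b ^ 2 := by
    change ((((ε b : ℤˣ) : ℤ) : K) * w.y b) ^ 2 = w.y b ^ 2
    rw [mul_pow, unit_sq, one_mul]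
  rw [e]
  exact h3 b

theorem isValue_sg {v : Place k (Om k)} (ε : Fin r → ℤˣ) {P : Crd N r (Om k)} {p : Crd N r k}
    (h : D.IsValue v P p) : D.IsValue v (sg ε P) (sg ε p) := by
  obtain ⟨c, m, h1, h2, h3, h4⟩ := h
  refine ⟨c, m, h1, h2, h3, fun b => ?_⟩
  have hmem : ((((ε b : ℤˣ) : ℤ) : Om k)) ∈ v.ring := intCast_mem _ _
  have e : (D.scale c m (sg ε P)).y b - algebraMap k (Om k) ((sg ε p).y b) =
      (((ε b : ℤˣ) : ℤ) : Om k) * ((D.scale c m P).y b - algebraMap k (Om k) (p.y b)) := by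
    simp only [Dat.scale, sg, map_mul, map_intCast]
    ring
  rw [e]
  exact (h4 b).mul' v hmem

theorem sn_mul (ε ε' : Fin r → ℤˣ) : sn (ε * ε') = sn ε * sn ε' := by
  unfold sn
  rw [← Finset.prod_mul_distrib]
  refine Finset.prod_congr rfl fun b _ => ?_
  simp only [Pi.mul_apply, Units.val_mul, Int.cast_mul]

theorem sn_sq (ε : Fin r → ℤˣ) : sn ε * sn ε = 1 := by
  unfold sn
  rw [← Finset.prod_mul_distrib]
  exact Finset.prod_eq_one fun b _ => unit_mul_self (ε b)

/-- reindexing of a sum over the signs -/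
private theorem sum_sg {M : Type*} [AddCommGroup M] [Module ℚ M] (ε : Fin r → ℤˣ)
    (w : Crd N r k) (f : Crd N r k → M) :
    ∑ a : Fin r → ℤˣ, sn a • f (sg a (sg ε w)) = sn ε • ∑ a : Fin r → ℤˣ, sn a • f (sg a w) := by
  rw [Finset.smul_sum]
  refine Fintype.sum_equiv (Equiv.mulRight ε) _ _ fun a => ?_
  rw [Equiv.coe_mulRight, sg_sg, sn_mul, smul_smul, ← mul_assoc, mul_comm (sn ε) (sn a),
    mul_assoc, sn_sq, mul_one]

theorem T1_sg (ε : Fin r → ℤˣ) (w w' : Crd N r k) : D.T1 (sg ε w) w' = sn ε • D.T1 w w' :=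
  sum_sg ε w fun z => D.cv z w'

private theorem T_eq (w w' : Crd N r k) :
    D.T w w' = ∑ ε : Fin r → ℤˣ, sn ε • ∑ ε' : Fin r → ℤˣ, sn ε' • D.cv (sg ε w) (sg ε' w') := by
  unfold Dat.T
  refine Finset.sum_congr rfl fun ε _ => ?_
  rw [Finset.smul_sum]
  refine Finset.sum_congr rfl fun ε' _ => ?_
  rw [smul_smul]

private theorem T_sg_left (ε : Fin r → ℤˣ) (w w' : Crd N r k) :
    D.T (sg ε w) w' = sn ε • D.T w w' := by
  rw [T_eq, T_eq]
  exact sum_sg ε w fun z => ∑ ε' : Fin r → ℤˣ, sn ε' • D.cv z (sg ε' w')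

private theorem T_sg_right (ε : Fin r → ℤˣ) (w w' : Crd N r k) :
    D.T w (sg ε w') = sn ε • D.T w w' := by
  rw [T_eq, T_eq, Finset.smul_sum]
  refine Finset.sum_congr rfl fun a _ => ?_
  rw [sum_sg ε w' fun z => D.cv (sg a w) z, smul_comm]

theorem CL_sg_left (ε : Fin r → ℤˣ) (w w' : Crd N r k) : D.CL (sg ε w) w' = sn ε • D.CL w w' := by
  unfold Dat.CL
  rw [T_sg_left, T_sg_right, smul_add, smul_comm]

theorem CL_sg_right (ε : Fin r → ℤˣ) (w w' : Crd N r k) : D.CL w (sg ε w') = sn ε • D.CL w w' := by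
  unfold Dat.CL
  rw [T_sg_left, T_sg_right, smul_add, smul_comm]

private theorem neg_one_sq_pow (N : ℕ) : (-1 : ℚ) ^ N * (-1 : ℚ) ^ N = 1 := by
  rw [← mul_pow]
  norm_num

theorem CL_swap (w w' : Crd N r k) : D.CL w' w = (-1 : ℚ) ^ N • D.CL w w' := by
  unfold Dat.CL
  rw [smul_add, smul_smul, neg_one_sq_pow, one_smul, add_comm]

/-- the sign change in one block -/
private def flip (b : Fin r) : Fin r → ℤˣ := fun b' => if b' = b then -1 else 1

private theorem sn_flip (b : Fin r) : sn (flip b) = -1 := by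
  unfold sn flip
  have h : ∀ b' : Fin r, ((((if b' = b then -1 else 1 : ℤˣ) : ℤˣ) : ℤ) : ℚ) =
      if b' = b then -1 else 1 := by
    intro b'
    split_ifs <;> simp
  rw [Finset.prod_congr rfl fun b' _ => h b', Finset.prod_ite_eq' Finset.univ b (fun _ => (-1 : ℚ))]
  simp

private theorem sg_flip {w : Crd N r k} {b : Fin r} (h : w.y b = 0) : sg (flip b) w = w := by
  refine Crd.ext rfl rfl rfl ?_
  funext b'
  change ((((flip b b' : ℤˣ) : ℤ) : k)) * w.y b' = w.y b'
  unfold flip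
  split_ifs with h1
  · rw [h1, h, mul_zero]
  · simp

private theorem eq_zero_of_neg {M : Type*} [AddCommGroup M] [Module ℚ M] {a : M}
    (h : a = (-1 : ℚ) • a) : a = 0 := by
  have h2 : (2 : ℚ) • a = 0 := by
    rw [two_smul]
    nth_rewrite 2 [h]
    rw [neg_one_smul, add_neg_cancel]
  have h3 : (2⁻¹ : ℚ) • (2 : ℚ) • a = a := by
    rw [smul_smul]
    norm_num
  rw [← h3, h2, smul_zero]

/-- the sign change of `y_b` -/
theorem T1_y {w : Crd N r k} {b : Fin r} (h : w.y b = 0) (w' : Crd N r k) : D.T1 w w' = 0 := by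
  apply eq_zero_of_neg
  have h1 := T1_sg (D := D) (flip b) w w'
  rwa [sg_flip h, sn_flip] at h1

theorem CL_y_left {w : Crd N r k} {b : Fin r} (h : w.y b = 0) (w' : Crd N r k) :
    D.CL w w' = 0 := by
  apply eq_zero_of_neg
  have h1 := CL_sg_left (D := D) (flip b) w w'
  rwa [sg_flip h, sn_flip] at h1

theorem CL_y_right {w : Crd N r k} {b : Fin r} (h : w.y b = 0) (w' : Crd N r k) :
    D.CL w' w = 0 := by
  apply eq_zero_of_neg
  have h1 := CL_sg_right (D := D) (flip b) w' w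
  rwa [sg_flip h, sn_flip] at h1

/-- two systems of square roots differ by signs -/
theorem exists_sg {K : Type*} [Field K] {y y' : Fin r → K} (h : ∀ b, y b ^ 2 = y' b ^ 2) :
    ∃ ε : Fin r → ℤˣ, ∀ b, y' b = (((ε b : ℤˣ) : ℤ) : K) * y b := by
  have h1 : ∀ b, ∃ e : ℤˣ, y' b = (((e : ℤˣ) : ℤ) : K) * y b := by
    intro b
    rcases sq_eq_sq_iff_eq_or_eq_neg.1 (h b) with h2 | h2
    · exact ⟨1, by rw [h2]; simp⟩
    · exact ⟨-1, by rw [h2]; simp⟩
  choose ε hε using h1
  exact ⟨ε, hε⟩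

section

variable [IsAlgClosed k]

theorem rt_sq (D : Dat k N r) (s : k) (x : Fin N → k) : D.On s x (D.rt s x) := by
  intro b
  unfold Dat.rt
  exact sq_sq _

theorem on_up {K : Type*} [Field K] [Algebra k K] {s t : K} {u x x' : Fin N → K} {y : Fin r → K}
    (hy : D.On s x y) (hF : ∀ i, D.ff i t (x' i) = u i ^ 2 * D.ff i s (x i)) :
    D.On t x' (D.up u y) := by
  intro b
  unfold Dat.up
  rw [mul_pow, hy b, ← Finset.prod_pow, ← Finset.prod_mul_distrib]
  exact Finset.prod_congr rfl fun i _ => (hF i).symm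

theorem cl5_eq_CL {s t : k} {u x x' : Fin N → k} {y : Fin r → k} (hy : D.On s x y) :
    D.cl5 s t u x x' = D.CL (aff s x y) (aff t x' (D.up u y)) := by
  have h := rt_sq D s x
  obtain ⟨ε, hε⟩ := exists_sg (y := D.rt s x) (y' := y) fun b => by rw [h b, hy b]
  have h1 : aff s x y = sg ε (aff s x (D.rt s x)) := by
    rw [sg_aff]
    congr 1
    funext b
    exact hε b
  have h2 : aff t x' (D.up u y) = sg ε (aff t x' (D.up u (D.rt s x))) := by
    rw [sg_aff]
    congr 1
    funext b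
    unfold Dat.up
    rw [hε b]
    ring
  rw [h1, h2, CL_sg_left, CL_sg_right, smul_smul, sn_sq, one_smul]
  rfl

theorem cl5_neg (i : Fin N) (s t : k) (u x x' : Fin N → k) :
    D.cl5 s t (Function.update u i (-u i)) x x' = -D.cl5 s t u x x' := by
  unfold Dat.cl5
  have h : aff t x' (D.up (Function.update u i (-u i)) (D.rt s x)) =
      sg (flip (D.blk i)) (aff t x' (D.up u (D.rt s x))) := by
    rw [sg_aff]
    congr 1
    funext b
    unfold Dat.up flip
    by_cases hb : b = D.blk i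
    · rw [if_pos hb]
      have hi : i ∈ Finset.univ.filter fun j => D.blk j = b := by
        rw [Finset.mem_filter]
        exact ⟨Finset.mem_univ i, hb.symm⟩
      rw [Finset.prod_update_of_mem hi,
        ← Finset.mul_prod_erase _ u hi, Finset.erase_eq]
      simp
    · rw [if_neg hb]
      have hi : i ∉ Finset.univ.filter fun j => D.blk j = b := by
        rw [Finset.mem_filter]
        exact fun h => hb h.2.symm
      rw [Finset.prod_update_of_notMem hi]
      simp
  rw [h, CL_sg_right, sn_flip, neg_one_smul]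

theorem cl5_swap {s t : k} {u x x' : Fin N → k} (hu : ∀ i, u i ≠ 0)
    (hF : ∀ i, D.ff i t (x' i) = u i ^ 2 * D.ff i s (x i)) :
    D.cl5 t s (fun i => 1 / u i) x' x = (-1 : ℚ) ^ N • D.cl5 s t u x x' := by
  rw [cl5_eq_CL (on_up (rt_sq D s x) hF)]
  have h : D.up (fun i => 1 / u i) (D.up u (D.rt s x)) = D.rt s x := by
    funext b
    unfold Dat.up
    rw [← mul_assoc, ← Finset.prod_mul_distrib, Finset.prod_eq_one, one_mul]
    intro i _
    rw [one_div, inv_mul_cancel₀ (hu i)]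
  rw [h, CL_swap]
  rfl

end

end Pool.Agent.VFP
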