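import Pool.Agent.VFP.Util
import Pool.Agent.VFP.Sign

/-!
# Affine points
-/

set_option autoImplicit false

noncomputable section

namespace Pool.Agent.VFP

open Pool.Agent.ZCyc Polynomial

universe u

variable {k : Type u} [Field k] {N r : ℕ}

variable {D : Dat k N r}

private theorem eval_aux {K : Type*} [Field K] [Algebra k K] (s : K) (A : MvPolynomial (Fin 2) k) :
    MvPolynomial.aeval ![(1 : K), s] A = aeval s (MvPolynomial.aeval ![(1 : k[X]), X] A) := by
  rw [MvPolynomial.comp_aeval_apply]
  congr 2
  funext i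
  fin_cases i
  · simp
  · simp

theorem eval_al {K : Type*} [Field K] [Algebra k K] (s : K) (i : Fin N) :
    MvPolynomial.aeval ![(1 : K), s] (D.A i) = aeval s (D.al i) := eval_aux s _

theorem eval_be {K : Type*} [Field K] [Algebra k K] (s : K) (i : Fin N) :
    MvPolynomial.aeval ![(1 : K), s] (D.B i) = aeval s (D.be i) := eval_aux s _

private theorem nat_aux (A : MvPolynomial (Fin 2) k) {m : ℕ} (hA : A.IsHomogeneous m) :
    (MvPolynomial.aeval ![(1 : k[X]), X] A).natDegree ≤ m := by
  have h := MvPolynomial.aeval_natDegree_le (m := m) (n := 1) A hA.totalDegree_le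
    ![(1 : k[X]), X] (by
      intro i
      fin_cases i
      · simp
      · simp)
  simpa using h

theorem natDegree_al (h : D.Valid) (i : Fin N) : (D.al i).natDegree ≤ 2 * D.deg i :=
  nat_aux _ (h.homA i)

theorem natDegree_be (h : D.Valid) (i : Fin N) : (D.be i).natDegree ≤ 3 * D.deg i :=
  nat_aux _ (h.homB i)

theorem fac_aff {K : Type*} [Field K] [Algebra k K] (s : K) (x : Fin N → K) (y : Fin r → K)
    (i : Fin N) : D.fac (aff s x y) i = D.ff i s (x i) := by
  have hA := eval_al (D := D) s i
  have hB := eval_be (D := D) s i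
  unfold Dat.fac aff Dat.ff
  simp only
  rw [hA, hB]
  ring

theorem onX_aff {K : Type*} [Field K] [Algebra k K] (s : K) (x : Fin N → K) (y : Fin r → K) :
    D.OnX (aff s x y) ↔ D.On s x y := by
  constructor
  · rintro ⟨-, -, h⟩ b
    have h1 := h b
    simp only [fac_aff] at h1
    exact h1
  · intro h
    refine ⟨?_, ?_, ?_⟩
    · intro h0
      have := congrFun h0 0
      simp [aff] at this
    · intro i
      right
      exact one_ne_zero
    · intro b
      simp only [fac_aff]
      exact h b

theorem ff_at {v : Place k (Om k)} {s x : Om k} {s' x' : k} (i : Fin N) (hs : v.At s s')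
    (hx : v.At x x') : v.At (D.ff i s x) (D.ff i s' x') :=
  ((hx.pow 3).add ((at_evalc hs _).mul hx)).add (at_evalc hs _)

theorem dsc_at {v : Place k (Om k)} {s : Om k} {s' : k} (i : Fin N) (hs : v.At s s') :
    v.At (D.dsc i s) (D.dsc i s') :=
  ((at_num 4).mul ((at_evalc hs _).pow 3)).add ((at_num 27).mul ((at_evalc hs _).pow 2))

theorem ff_const (i : Fin N) (s x : k) :
    D.ff i (algebraMap k (Om k) s) (algebraMap k (Om k) x) = algebraMap k (Om k) (D.ff i s x) := by
  unfold Dat.ff
  rw [aeval_algebraMap_apply, aeval_algebraMap_apply, map_add, map_add, map_mul, map_pow]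

theorem dsc_const (i : Fin N) (s : k) :
    D.dsc i (algebraMap k (Om k) s) = algebraMap k (Om k) (D.dsc i s) := by
  unfold Dat.dsc
  rw [aeval_algebraMap_apply, aeval_algebraMap_apply]
  simp only [map_add, map_mul, map_pow, map_ofNat]

/-- values of affine points -/
theorem isValue_aff {v : Place k (Om k)} {s : Om k} {x : Fin N → Om k} {y : Fin r → Om k} {s' : k}
    {x' : Fin N → k} {y' : Fin r → k} (hs : v.At s s') (hx : ∀ i, v.At (x i) (x' i))
    (hy : ∀ b, v.At (y b) (y' b)) : D.IsValue v (aff s x y) (aff s' x' y') := by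
  refine ⟨1, fun _ => 1, ?_, ?_, ?_, ?_⟩
  · intro j
    have e : (D.scale 1 (fun _ => 1) (aff s x y)).s j = (![1, s] : Fin 2 → Om k) j := by
      simp [Dat.scale, aff]
    rw [e]
    fin_cases j
    · exact at_one
    · exact hs
  · intro i
    have e : (D.scale 1 (fun _ => 1) (aff s x y)).x i = x i := by
      simp [Dat.scale, aff]
    rw [e]
    exact hx i
  · intro i
    have e : (D.scale 1 (fun _ => 1) (aff s x y)).z i = (1 : Om k) := by
      simp [Dat.scale, aff]
    rw [e]
    exact at_one
  · intro b
    have e : (D.scale 1 (fun _ => 1) (aff s x y)).y b = y b := by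
      simp [Dat.scale, aff]
    rw [e]
    exact hy b

end Pool.Agent.VFP
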