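import Pool.Agent.VFP.Bridge
import Pool.Agent.VFP.Aff

/-!
# Change of homogeneous coordinates
-/

set_option autoImplicit false

noncomputable section

namespace Pool.Agent.VFP

open Pool.Agent.ZCyc Polynomial

universe u

variable {k : Type u} [Field k] {N r : ℕ}

variable [IsAlgClosed k] [CharZero k] {D : Dat k N r}

/-- the image of a point under `k → K` -/
def cst (K : Type*) [Field K] [Algebra k K] (w : Crd N r k) : Crd N r K where
  s j := algebraMap k K (w.s j)
  x i := algebraMap k K (w.x i)
  z i := algebraMap k K (w.z i)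
  y b := algebraMap k K (w.y b)

omit [IsAlgClosed k] [CharZero k] in
private theorem aeval_cst {K : Type*} [Field K] [Algebra k K] (s : Fin 2 → k)
    (P : MvPolynomial (Fin 2) k) :
    MvPolynomial.aeval (fun j => algebraMap k K (s j)) P =
      algebraMap k K (MvPolynomial.aeval s P) := by
  rw [← MvPolynomial.aeval_algebraMap_apply]
  rfl

omit [IsAlgClosed k] [CharZero k] in
private theorem fac_cst {K : Type*} [Field K] [Algebra k K] (w : Crd N r k) (i : Fin N) :
    D.fac (cst K w) i = algebraMap k K (D.fac w i) := by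
  unfold Dat.fac cst
  simp only [aeval_cst, map_add, map_mul, map_pow]

theorem onX_cst {K : Type*} [Field K] [Algebra k K] {w : Crd N r k} (h : D.OnX w) :
    D.OnX (cst K w) := by
  refine ⟨?_, ?_, ?_⟩
  · intro h0
    apply h.1
    funext j
    have := congrFun h0 j
    exact (algebraMap k K).injective (by simpa [cst] using this)
  · intro i
    rcases h.2.1 i with h1 | h1
    · left
      exact (map_ne_zero (algebraMap k K)).2 h1
    · right
      exact (map_ne_zero (algebraMap k K)).2 h1
  · intro b
    have h1 := congrArg (algebraMap k K) (h.2.2 b)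
    rw [map_pow, map_prod] at h1
    simp only [fac_cst]
    exact h1

theorem isValue_cst (v : Place k (Om k)) (w : Crd N r k) : D.IsValue v (cst (Om k) w) w := by
  refine ⟨1, fun _ => 1, ?_, ?_, ?_, ?_⟩
  · intro j
    have e : (D.scale 1 (fun _ => 1) (cst (Om k) w)).s j = algebraMap k (Om k) (w.s j) := by
      simp [Dat.scale, cst]
    rw [e]
    exact Place.at_const _
  · intro i
    have e : (D.scale 1 (fun _ => 1) (cst (Om k) w)).x i = algebraMap k (Om k) (w.x i) := by
      simp [Dat.scale, cst]
    rw [e]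
    exact Place.at_const _
  · intro i
    have e : (D.scale 1 (fun _ => 1) (cst (Om k) w)).z i = algebraMap k (Om k) (w.z i) := by
      simp [Dat.scale, cst]
    rw [e]
    exact Place.at_const _
  · intro b
    have e : (D.scale 1 (fun _ => 1) (cst (Om k) w)).y b = algebraMap k (Om k) (w.y b) := by
      simp [Dat.scale, cst]
    rw [e]
    exact Place.at_const _

omit [IsAlgClosed k] [CharZero k] in
private theorem aeval_scale {K : Type*} [Field K] [Algebra k K] {A : MvPolynomial (Fin 2) k}
    {n : ℕ} (hA : A.IsHomogeneous n) (c : K) (s : Fin 2 → K) :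
    MvPolynomial.aeval (fun j => c * s j) A = c ^ n * MvPolynomial.aeval s A := by
  rw [MvPolynomial.aeval_def, MvPolynomial.aeval_def, MvPolynomial.eval₂_eq',
    MvPolynomial.eval₂_eq', Finset.mul_sum]
  refine Finset.sum_congr rfl fun d hd => ?_
  have h1 : d.degree = n := by
    have := hA (MvPolynomial.mem_support_iff.1 hd)
    rw [Finsupp.degree_eq_weight_one]
    exact this
  have h2 : d 0 + d 1 = n := by
    rw [← h1, Finsupp.degree_eq_sum, Fin.sum_univ_two]
  simp only [Fin.prod_univ_two, mul_pow]
  rw [← h2, pow_add]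
  ring

omit [IsAlgClosed k] [CharZero k] in
private theorem fac_scale (h : D.Valid) {K : Type*} [Field K] [Algebra k K] (c : K)
    (m : Fin N → K) (w : Crd N r K) (i : Fin N) :
    D.fac (D.scale c m w) i = (c ^ (3 * D.deg i) * m i ^ 4) * D.fac w i := by
  unfold Dat.fac Dat.scale
  simp only [aeval_scale (h.homA i), aeval_scale (h.homB i)]
  ring

omit [IsAlgClosed k] [CharZero k] in
private theorem two_wy (h : D.Valid) (b : Fin r) :
    2 * D.wy b = ∑ i with D.blk i = b, 3 * D.deg i := by
  obtain ⟨t, ht⟩ := h.even b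
  unfold Dat.wy
  rw [← Finset.mul_sum, ht]
  omega

theorem onX_scale (h : D.Valid) {K : Type*} [Field K] [Algebra k K] {c : K} (hc : c ≠ 0)
    {m : Fin N → K} (hm : ∀ i, m i ≠ 0) {w : Crd N r K} (hw : D.OnX w) :
    D.OnX (D.scale c m w) := by
  refine ⟨?_, ?_, ?_⟩
  · intro h0
    apply hw.1
    funext j
    have := congrFun h0 j
    simpa [Dat.scale, hc] using this
  · intro i
    rcases hw.2.1 i with h1 | h1
    · left
      exact mul_ne_zero (mul_ne_zero (pow_ne_zero _ hc) (hm i)) h1
    · right
      exact mul_ne_zero (hm i) h1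
  · intro b
    simp only [fac_scale h]
    rw [Finset.prod_mul_distrib, ← hw.2.2 b, Finset.prod_mul_distrib, Finset.prod_pow_eq_pow_sum,
      ← two_wy h b, Finset.prod_pow]
    unfold Dat.scale
    simp only
    ring

theorem isValue_scale {c : k} (hc : c ≠ 0) {m : Fin N → k} (hm : ∀ i, m i ≠ 0)
    {v : Place k (Om k)} {P : Crd N r (Om k)} {p : Crd N r k} (h : D.IsValue v P p) :
    D.IsValue v P (D.scale c m p) := by
  obtain ⟨c₁, m₁, h1, h2, h3, h4⟩ := h
  refine ⟨algebraMap k (Om k) c * c₁, fun i => algebraMap k (Om k) (m i) * m₁ i, ?_, ?_, ?_, ?_⟩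
  · intro j
    have h5 : v.At ((D.scale c₁ m₁ P).s j) (p.s j) := h1 j
    have h6 := (Place.at_const (v := v) c).mul h5
    have e : (D.scale (algebraMap k (Om k) c * c₁)
        (fun i => algebraMap k (Om k) (m i) * m₁ i) P).s j
        = algebraMap k (Om k) c * (D.scale c₁ m₁ P).s j := by
      unfold Dat.scale
      ring
    rw [e]
    exact h6
  · intro i
    have h5 : v.At ((D.scale c₁ m₁ P).x i) (p.x i) := h2 i
    have h6 := (Place.at_const (v := v) (c ^ D.deg i * m i)).mul h5
    have e : (D.scale (algebraMap k (Om k) c * c₁)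
        (fun i => algebraMap k (Om k) (m i) * m₁ i) P).x i
        = algebraMap k (Om k) (c ^ D.deg i * m i) * (D.scale c₁ m₁ P).x i := by
      unfold Dat.scale
      simp only [map_mul, map_pow]
      ring
    rw [e]
    exact h6
  · intro i
    have h5 : v.At ((D.scale c₁ m₁ P).z i) (p.z i) := h3 i
    have h6 := (Place.at_const (v := v) (m i)).mul h5
    have e : (D.scale (algebraMap k (Om k) c * c₁)
        (fun i => algebraMap k (Om k) (m i) * m₁ i) P).z i
        = algebraMap k (Om k) (m i) * (D.scale c₁ m₁ P).z i := by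
      unfold Dat.scale
      simp only
      ring
    rw [e]
    exact h6
  · intro b
    have h5 : v.At ((D.scale c₁ m₁ P).y b) (p.y b) := h4 b
    have h6 := (Place.at_const (v := v) (c ^ D.wy b * (∏ i with D.blk i = b, m i) ^ 2)).mul h5
    have e : (D.scale (algebraMap k (Om k) c * c₁)
        (fun i => algebraMap k (Om k) (m i) * m₁ i) P).y b
        = algebraMap k (Om k) (c ^ D.wy b * (∏ i with D.blk i = b, m i) ^ 2) *
          (D.scale c₁ m₁ P).y b := by
      unfold Dat.scale
      simp only [map_mul, map_pow, map_prod, Finset.prod_mul_distrib]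
      ring
    rw [e]
    exact h6

/-- the class does not depend on the homogeneous coordinates (constant families) -/
theorem cv_scale (h : D.Valid) {c c' : k} (hc : c ≠ 0) (hc' : c' ≠ 0) {m m' : Fin N → k}
    (hm : ∀ i, m i ≠ 0) (hm' : ∀ i, m' i ≠ 0) {w w' : Crd N r k} (hw : D.OnX w)
    (hw' : D.OnX w') : D.cv (D.scale c m w) (D.scale c' m' w') = D.cv w w' := by
  refine bridge (I := Unit) (fun _ => 1) (fun _ => cst (Om k) w) (fun _ => cst (Om k) w')
    (fun _ => onX_cst hw) (fun _ => onX_cst hw') 0 0 _ _ ?_ ?_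
  · intro v _
    refine ⟨fun _ => D.scale c m w, fun _ => D.scale c' m' w', fun _ => onX_scale h hc hm hw,
      fun _ => onX_scale h hc' hm' hw', fun _ => isValue_scale hc hm (isValue_cst v w),
      fun _ => isValue_scale hc' hm' (isValue_cst v w'), ?_⟩
    simp
  · intro v _
    refine ⟨fun _ => w, fun _ => w', fun _ => hw, fun _ => hw', fun _ => isValue_cst v w,
      fun _ => isValue_cst v w', ?_⟩
    simp

/-- points with `w.s 0 ≠ 0` and `z_i ≠ 0` are affine points -/
theorem exists_aff (h : D.Valid) {w : Crd N r k} (hw : D.OnX w) (h0 : w.s 0 ≠ 0)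
    (hz : ∀ i, w.z i ≠ 0) : ∃ (c : k) (m : Fin N → k) (s : k) (x : Fin N → k) (y : Fin r → k),
    c ≠ 0 ∧ (∀ i, m i ≠ 0) ∧ D.On s x y ∧ w = D.scale c m (aff s x y) := by
  have hmz : ∀ b, (∏ i with D.blk i = b, w.z i) ≠ 0 := fun b =>
    Finset.prod_ne_zero_iff.2 fun i _ => hz i
  refine ⟨w.s 0, w.z, w.s 1 / w.s 0, fun i => w.x i / (w.s 0 ^ D.deg i * w.z i),
    fun b => w.y b / (w.s 0 ^ D.wy b * (∏ i with D.blk i = b, w.z i) ^ 2), h0, hz, ?_, ?_⟩
  · rw [← onX_aff]
    have h1 := onX_scale h (inv_ne_zero h0) (m := fun i => (w.z i)⁻¹)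
      (fun i => inv_ne_zero (hz i)) hw
    have e : D.scale (w.s 0)⁻¹ (fun i => (w.z i)⁻¹) w = aff (w.s 1 / w.s 0)
        (fun i => w.x i / (w.s 0 ^ D.deg i * w.z i))
        (fun b => w.y b / (w.s 0 ^ D.wy b * (∏ i with D.blk i = b, w.z i) ^ 2)) := by
      ext j
      · fin_cases j
        · simp [Dat.scale, aff, h0]
        · simp only [Dat.scale, aff]
          simp
          ring
      · simp only [Dat.scale, aff]
        rw [inv_pow, div_eq_mul_inv, mul_inv]
        ring
      · simp only [Dat.scale, aff]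
        exact inv_mul_cancel₀ (hz j)
      · simp only [Dat.scale, aff]
        rw [Finset.prod_inv_distrib, inv_pow, inv_pow, div_eq_mul_inv, mul_inv]
        ring
    rw [e] at h1
    exact h1
  · ext j
    · fin_cases j
      · simp [Dat.scale, aff]
      · simp only [Dat.scale, aff]
        simp
        field_simp
    · simp only [Dat.scale, aff]
      have h1 := hz j
      have h2 := pow_ne_zero (D.deg j) h0
      field_simp
    · simp only [Dat.scale, aff]
      ring
    · simp only [Dat.scale, aff]
      have h1 := hmz j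
      have h2 := pow_ne_zero (D.wy j) h0
      field_simp

/-- if `z_i = 0` then `y_b = 0` for the block `b` of `i` -/
theorem y_eq_zero {w : Crd N r k} (hw : D.OnX w) {i : Fin N} (hz : w.z i = 0) :
    w.y (D.blk i) = 0 := by
  have h1 := hw.2.2 (D.blk i)
  have h2 : ∏ j with D.blk j = D.blk i, D.fac w j = 0 := by
    refine Finset.prod_eq_zero (i := i) (by simp) ?_
    unfold Dat.fac
    rw [hz]
    ring
  rw [h2] at h1
  exact pow_eq_zero_iff (two_ne_zero) |>.1 h1

end Pool.Agent.VFP
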