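import Pool.Agent.VFP.Aff

/-!
# Values of pairs of affine points
-/

set_option autoImplicit false

noncomputable section

namespace Pool.Agent.VFP

open Pool.Agent.ZCyc Polynomial

universe u

variable {k : Type u} [Field k] {N r : ℕ}

/-- values of products -/
theorem at_prod {v : Place k (Om k)} {I : Type*} (S : Finset I) {f : I → Om k} {f' : I → k}
    (h : ∀ i ∈ S, v.At (f i) (f' i)) : v.At (∏ i ∈ S, f i) (∏ i ∈ S, f' i) := by
  classical
  induction S using Finset.induction_on with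
  | empty => simpa using at_one (v := v)
  | insert a S ha ih =>
    rw [Finset.prod_insert ha, Finset.prod_insert ha]
    exact (h a (Finset.mem_insert_self _ _)).mul
      (ih fun i hi => h i (Finset.mem_insert_of_mem hi))

variable [IsAlgClosed k] [CharZero k] {D : Dat k N r}

/-- Every affine point has a value. If some `x_i` has a pole, the value has a coordinate
`y_b = 0`; take `m i = 1 / x_i` for the `x_i` with a pole and `m i = 1` for the others. -/
theorem exists_value (h : D.Valid) {v : Place k (Om k)} {s : Om k} {x : Fin N → Om k}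
    {y : Fin r → Om k} (hP : D.On s x y) {s' : k} (hs : v.At s s') :
    ∃ p : Crd N r k, D.OnX p ∧ D.IsValue v (aff s x y) p ∧
      ((∃ i, x i ∉ v.ring) → ∃ b, p.y b = 0) ∧ ∀ x' : Fin N → k, (∀ i, v.At (x i) (x' i)) →
        ∃ y' : Fin r → k, (∀ b, v.At (y b) (y' b)) ∧ p = aff s' x' y' := by
  classical
  -- the multipliers and the values of the coordinates
  have h1 : ∀ i, ∃ (m : Om k) (x₀ z₀ f₀ : k), v.At (m * x i) x₀ ∧ v.At m z₀ ∧
      (x₀ ≠ 0 ∨ z₀ ≠ 0) ∧ v.At (m ^ 4 * D.ff i s (x i)) f₀ ∧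
      f₀ = z₀ * (x₀ ^ 3 + aeval s' (D.al i) * x₀ * z₀ ^ 2 + aeval s' (D.be i) * z₀ ^ 3) ∧
      (x i ∉ v.ring → z₀ = 0) ∧ (x i ∈ v.ring → m = 1 ∧ z₀ = 1) := by
    intro i
    by_cases hx : x i ∈ v.ring
    · obtain ⟨x₀, hx₀⟩ := DCI57.exists_at v hx
      refine ⟨1, x₀, 1, _, by rwa [one_mul], at_one, Or.inr one_ne_zero,
        by rw [one_pow, one_mul]; exact ff_at i hs hx₀, ?_, fun h' => absurd hx h',
        fun _ => ⟨rfl, rfl⟩⟩
      unfold Dat.ff
      ring
    · have hx0 := ne_zero_of_not_mem hx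
      have hm := inv_at_of_not_mem hx
      refine ⟨(x i)⁻¹, 1, 0, 0, by rw [inv_mul_cancel₀ hx0]; exact at_one, hm,
        Or.inl one_ne_zero, ?_, by ring, fun _ => rfl, fun h' => absurd h' hx⟩
      have e : (x i)⁻¹ ^ 4 * D.ff i s (x i) = (x i)⁻¹ *
          (1 + aeval s (D.al i) * (x i)⁻¹ ^ 2 + aeval s (D.be i) * (x i)⁻¹ ^ 3) := by
        unfold Dat.ff
        field_simp
      rw [e]
      have h2 := hm.mul ((at_one.add ((at_evalc hs (D.al i)).mul (hm.pow 2))).add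
        ((at_evalc hs (D.be i)).mul (hm.pow 3)))
      rwa [zero_mul] at h2
  choose m x₀ z₀ f₀ hmx hm hne hf hf₀ hz hz1 using h1
  have h2 : ∀ b, ∃ d : k, v.At ((∏ i with D.blk i = b, m i) ^ 2 * y b) d ∧
      d ^ 2 = ∏ i with D.blk i = b, f₀ i := by
    intro b
    refine exists_sq_at ?_ (at_prod _ fun i _ => hf i)
    rw [mul_pow, hP b, Finset.prod_mul_distrib, Finset.prod_pow]
    ring
  choose y₀ hy hy₀ using h2
  let p : Crd N r k := ⟨![1, s'], x₀, z₀, y₀⟩
  have hfac : ∀ i, D.fac p i = f₀ i := by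
    intro i
    have hA := eval_al (D := D) s' i
    have hB := eval_be (D := D) s' i
    rw [hf₀ i, ← hA, ← hB]
    rfl
  refine ⟨p, ⟨?_, ?_, ?_⟩, ⟨1, m, ?_, ?_, ?_, ?_⟩, ?_, ?_⟩
  · intro h0
    have := congrFun h0 0
    simp [p] at this
  · exact hne
  · intro b
    rw [Finset.prod_congr rfl fun i _ => hfac i]
    exact hy₀ b
  · intro j
    have e : (D.scale 1 m (aff s x y)).s j = (![1, s] : Fin 2 → Om k) j := by
      simp [Dat.scale, aff]
    rw [e]
    fin_cases j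
    · exact at_one
    · exact hs
  · intro i
    have e : (D.scale 1 m (aff s x y)).x i = m i * x i := by
      simp [Dat.scale, aff]
    rw [e]
    exact hmx i
  · intro i
    have e : (D.scale 1 m (aff s x y)).z i = m i := by
      simp [Dat.scale, aff]
    rw [e]
    exact hm i
  · intro b
    have e : (D.scale 1 m (aff s x y)).y b = (∏ i with D.blk i = b, m i) ^ 2 * y b := by
      simp [Dat.scale, aff]
    rw [e]
    exact hy b
  · rintro ⟨i, hi⟩
    refine ⟨D.blk i, ?_⟩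
    have h3 : y₀ (D.blk i) ^ 2 = 0 := by
      rw [hy₀]
      refine Finset.prod_eq_zero (i := i) (by simp) ?_
      rw [hf₀ i, hz i hi, zero_mul]
    exact pow_eq_zero_iff two_ne_zero |>.1 h3
  · intro x' hx'
    have hmem : ∀ i, m i = 1 ∧ z₀ i = 1 := fun i => hz1 i (hx' i).mem
    have hxe : x₀ = x' := by
      funext i
      have h3 := hmx i
      rw [(hmem i).1, one_mul] at h3
      exact h3.unique (hx' i)
    refine ⟨y₀, ?_, ?_⟩
    · intro b
      have h3 := hy b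
      rw [Finset.prod_congr rfl fun i _ => (hmem i).1, Finset.prod_const_one, one_pow,
        one_mul] at h3
      exact h3
    · refine Crd.ext rfl hxe ?_ rfl
      funext i
      exact (hmem i).2

omit [IsAlgClosed k] [CharZero k] in
/-- the value of a pair one of whose members specialises to a point with a coordinate `y_b = 0` -/
theorem vcl_zero {v : Place k (Om k)} {P Q : Crd N r (Om k)} {p q : Crd N r k} (hp : D.OnX p)
    (hq : D.OnX q) (hP : D.IsValue v P p) (hQ : D.IsValue v Q q)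
    (h0 : (∃ b, p.y b = 0) ∨ ∃ b, q.y b = 0) : D.VCL v P Q 0 := by
  refine ⟨p, q, hp, hq, hP, hQ, ?_⟩
  rcases h0 with ⟨b, h0⟩ | ⟨b, h0⟩
  · exact CL_y_left h0 q
  · exact CL_y_right h0 p

theorem value_fin (h : D.Valid) {v : Place k (Om k)} {s t : Om k} {u x x' : Fin N → Om k}
    {y : Fin r → Om k} {s₀ t₀ : k} {u₀ x₀ x₀' : Fin N → k} (hP : D.On s x y)
    (hF : ∀ i, D.ff i t (x' i) = u i ^ 2 * D.ff i s (x i)) (hs : v.At s s₀) (ht : v.At t t₀)
    (hu : ∀ i, v.At (u i) (u₀ i)) (hx : ∀ i, v.At (x i) (x₀ i)) (hx' : ∀ i, v.At (x' i) (x₀' i)) :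
    D.VCL v (aff s x y) (aff t x' (D.up u y)) (D.cl5 s₀ t₀ u₀ x₀ x₀') := by
  have h1 : ∀ b, ∃ d : k, v.At (y b) d ∧ d ^ 2 = ∏ i with D.blk i = b, D.ff i s₀ (x₀ i) :=
    fun b => exists_sq_at (hP b) (at_prod _ fun i _ => ff_at i hs (hx i))
  choose y₀ hy hy₀ using h1
  have hF₀ : ∀ i, D.ff i t₀ (x₀' i) = u₀ i ^ 2 * D.ff i s₀ (x₀ i) := by
    intro i
    have h2 := ff_at (D := D) i ht (hx' i)
    rw [hF i] at h2
    exact h2.unique (((hu i).pow 2).mul (ff_at i hs (hx i)))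
  refine ⟨aff s₀ x₀ y₀, aff t₀ x₀' (D.up u₀ y₀), (onX_aff _ _ _).2 hy₀,
    (onX_aff _ _ _).2 (on_up hy₀ hF₀), isValue_aff hs hx hy, isValue_aff ht hx' ?_,
    (cl5_eq_CL hy₀).symm⟩
  intro b
  exact (at_prod _ fun i _ => hu i).mul (hy b)

theorem value_inf (h : D.Valid) {v : Place k (Om k)} {s t : Om k} {u x x' : Fin N → Om k}
    {y : Fin r → Om k} {s₀ t₀ : k} (hP : D.On s x y)
    (hF : ∀ i, D.ff i t (x' i) = u i ^ 2 * D.ff i s (x i)) (hs : v.At s s₀) (ht : v.At t t₀)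
    (hx : ∃ i, x i ∉ v.ring ∨ x' i ∉ v.ring) :
    D.VCL v (aff s x y) (aff t x' (D.up u y)) 0 := by
  obtain ⟨p, hp, hp1, hp2, -⟩ := exists_value h hP hs
  obtain ⟨q, hq, hq1, hq2, -⟩ := exists_value h (on_up hP hF) ht
  refine vcl_zero hp hq hp1 hq1 ?_
  obtain ⟨i, hi | hi⟩ := hx
  · exact Or.inl (hp2 ⟨i, hi⟩)
  · exact Or.inr (hq2 ⟨i, hi⟩)

/-- the value of one of the `u i` is `0` or `∞` -/
theorem value_u (h : D.Valid) {v : Place k (Om k)} {s t : Om k} {u x x' : Fin N → Om k}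
    {y : Fin r → Om k} {s₀ t₀ : k} (hP : D.On s x y)
    (hF : ∀ i, D.ff i t (x' i) = u i ^ 2 * D.ff i s (x i)) (hs : v.At s s₀) (ht : v.At t t₀)
    (hu : ∃ i, v.At (u i) 0 ∨ u i ∉ v.ring) :
    D.VCL v (aff s x y) (aff t x' (D.up u y)) 0 := by
  by_cases hxx : ∃ i, x i ∉ v.ring ∨ x' i ∉ v.ring
  · exact value_inf h hP hF hs ht hxx
  push Not at hxx
  have h1 : ∀ i, ∃ c : k, v.At (x i) c := fun i => DCI57.exists_at v (hxx i).1
  have h2 : ∀ i, ∃ c : k, v.At (x' i) c := fun i => DCI57.exists_at v (hxx i).2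
  choose x₀ hx₀ using h1
  choose x₀' hx₀' using h2
  obtain ⟨p, hp, hp1, -, hp3⟩ := exists_value h hP hs
  obtain ⟨q, hq, hq1, -, hq3⟩ := exists_value h (on_up hP hF) ht
  obtain ⟨y₀, hy₀, rfl⟩ := hp3 x₀ hx₀
  obtain ⟨y₀', hy₀', rfl⟩ := hq3 x₀' hx₀'
  refine vcl_zero hp hq hp1 hq1 ?_
  obtain ⟨i, hi | hi⟩ := hu
  · -- the value of `f_i(t, x'_i)` is zero
    right
    refine ⟨D.blk i, ?_⟩
    have h3 : D.ff i t₀ (x₀' i) = 0 := by
      have h4 := ff_at (D := D) i ht (hx₀' i)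
      rw [hF i] at h4
      have h5 := (hi.pow 2).mul (ff_at (D := D) i hs (hx₀ i))
      rw [zero_pow two_ne_zero, zero_mul] at h5
      exact h4.unique h5
    have h4 := (onX_aff (D := D) _ _ _).1 hq (D.blk i)
    have h5 : y₀' (D.blk i) ^ 2 = 0 := by
      rw [h4]
      exact Finset.prod_eq_zero (i := i) (by simp) h3
    exact pow_eq_zero_iff two_ne_zero |>.1 h5
  · -- the value of `f_i(s, x_i)` is zero
    left
    refine ⟨D.blk i, ?_⟩
    have h3 : D.ff i s₀ (x₀ i) = 0 := by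
      have h4 := ff_at (D := D) i ht (hx₀' i)
      have h5 : D.ff i s (x i) = (u i)⁻¹ ^ 2 * D.ff i t (x' i) := by
        rw [hF i]
        have := ne_zero_of_not_mem hi
        field_simp
      have h6 := ((inv_at_of_not_mem hi).pow 2).mul h4
      rw [← h5, zero_pow two_ne_zero, zero_mul] at h6
      exact (ff_at (D := D) i hs (hx₀ i)).unique h6
    have h4 := (onX_aff (D := D) _ _ _).1 hp (D.blk i)
    have h5 : y₀ (D.blk i) ^ 2 = 0 := by
      rw [h4]
      exact Finset.prod_eq_zero (i := i) (by simp) h3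
    exact pow_eq_zero_iff two_ne_zero |>.1 h5

end Pool.Agent.VFP
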