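import Pool.Agent.VFP.Bridge
import Pool.Agent.VFP.Scale
import Pool.Agent.VFP.Value

/-!
# Singular fibres
-/

set_option autoImplicit false

noncomputable section

namespace Pool.Agent.VFP

open Pool.Agent.ZCyc Polynomial

universe u

variable {k : Type u} [Field k] {N r : ℕ}

/-- the double root -/
private theorem exists_double [CharZero k] {p q : k} (hs : 4 * p ^ 3 + 27 * q ^ 2 = 0) :
    ∃ α : k, p = -3 * α ^ 2 ∧ q = 2 * α ^ 3 := by
  by_cases hp : p = 0
  · refine ⟨0, by simp [hp], ?_⟩
    rw [hp] at hs
    have hq : q ^ 2 = 0 := by
      have h27 : (27 : k) ≠ 0 := by norm_num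
      have : (27 : k) * q ^ 2 = 0 := by linear_combination hs
      exact (mul_eq_zero.1 this).resolve_left h27
    rw [pow_eq_zero_iff (by norm_num)] at hq
    rw [hq]
    ring
  · refine ⟨-3 * q / (2 * p), ?_, ?_⟩
    · have h2 : (2 : k) ≠ 0 := by norm_num
      field_simp
      linear_combination hs
    · have h2 : (2 : k) ≠ 0 := by norm_num
      field_simp
      linear_combination q * hs

/-- change of one coordinate `x_i` -/
private theorem on_update {D : Dat k N r} {K : Type*} [Field K] [Algebra k K] {s : K}
    {x : Fin N → K} {y : Fin r → K} (hP : D.On s x y) {i : Fin N} {z c : K}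
    (hc : c ^ 2 * D.ff i s (x i) = D.ff i s z) :
    D.On s (Function.update x i z)
      (Function.update y (D.blk i) (c * y (D.blk i))) := by
  intro b
  by_cases hb : b = D.blk i
  · subst hb
    have hi : i ∈ Finset.univ.filter fun j => D.blk j = D.blk i := by
      rw [Finset.mem_filter]
      exact ⟨Finset.mem_univ i, rfl⟩
    rw [Function.update_self, mul_pow, hP (D.blk i), ← Finset.mul_prod_erase _ _ hi,
      ← Finset.mul_prod_erase (Finset.univ.filter fun j => D.blk j = D.blk i)
        (fun j => D.ff j s (Function.update x i z j)) hi, Function.update_self, ← hc, mul_assoc]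
    congr 2
    refine Finset.prod_congr rfl fun j hj => ?_
    rw [Function.update_of_ne (Finset.ne_of_mem_erase hj)]
  · rw [Function.update_of_ne hb, hP b]
    refine Finset.prod_congr rfl fun j hj => ?_
    have hji : j ≠ i := by
      rintro rfl
      exact hb (Finset.mem_filter.1 hj).2.symm
    rw [Function.update_of_ne hji]

variable [IsAlgClosed k] [CharZero k] {D : Dat k N r}

omit [IsAlgClosed k] [CharZero k] in
private theorem on_const {s : k} {x : Fin N → k} {y : Fin r → k} (hP : D.On s x y) :
    D.On (algebraMap k (Om k) s) (fun j => algebraMap k (Om k) (x j))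
      (fun b => algebraMap k (Om k) (y b)) := by
  intro b
  rw [← map_pow, hP b, map_prod]
  exact Finset.prod_congr rfl fun j _ => (ff_const j s (x j)).symm

omit [IsAlgClosed k] [CharZero k] in
private theorem isValue_update {v : Place k (Om k)} {s : k} {x : Fin N → k} {y : Fin r → k}
    {i : Fin N} {z : k} {Z : Om k} {c : k} {C : Om k} (hz : v.At Z z) (hc : v.At C c) :
    D.IsValue v (aff (algebraMap k (Om k) s)
      (Function.update (fun j => algebraMap k (Om k) (x j)) i Z)
      (Function.update (fun b => algebraMap k (Om k) (y b)) (D.blk i)
        (C * algebraMap k (Om k) (y (D.blk i)))))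
      (aff s (Function.update x i z) (Function.update y (D.blk i) (c * y (D.blk i)))) := by
  refine isValue_aff (Place.at_const s) (fun j => ?_) fun b => ?_
  · by_cases hj : j = i
    · subst hj
      rw [Function.update_self, Function.update_self]
      exact hz
    · rw [Function.update_of_ne hj, Function.update_of_ne hj]
      exact Place.at_const _
  · by_cases hb : b = D.blk i
    · subst hb
      rw [Function.update_self, Function.update_self]
      exact hc.mul (Place.at_const _)
    · rw [Function.update_of_ne hb, Function.update_of_ne hb]
      exact Place.at_const _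

/-- `dsc i s = 0`: the cubic polynomial is `(X - α) ² (X + 2 α)`. Family: `x_i = -2 α + τ ²`,
`y_b` proportional to `τ (x_i - α)`, the other coordinates constant; at `τ = 0` one has `y_b = 0`
(`bridge` with the weights `sn ε sn ε'`, all values of the same point; compare VK3/Sing). -/
theorem CL_sing (h : D.Valid) {s : k} {x : Fin N → k} {y : Fin r → k} {i : Fin N}
    (hs : D.dsc i s = 0) (hP : D.On s x y) {w' : Crd N r k} (hw' : D.OnX w') :
    D.CL (aff s x y) w' = 0 ∧ D.CL w' (aff s x y) = 0 := by
  have key : D.CL (aff s x y) w' = 0 := by
    obtain ⟨α, ha, hb⟩ := exists_double hs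
    have hff : ∀ X : k, D.ff i s X = (X - α) ^ 2 * (X + 2 * α) := by
      intro X
      unfold Dat.ff
      rw [ha, hb]
      ring
    have hffK : ∀ X : Om k, D.ff i (algebraMap k (Om k) s) X =
        (X - algebraMap k (Om k) α) ^ 2 * (X + 2 * algebraMap k (Om k) α) := by
      intro X
      unfold Dat.ff
      rw [aeval_algebraMap_apply, aeval_algebraMap_apply, ha, hb]
      simp only [map_mul, map_pow, map_neg, map_ofNat]
      ring
    by_cases h0 : D.ff i s (x i) = 0
    · have hy : y (D.blk i) = 0 := by
        have h1 := hP (D.blk i)
        rw [Finset.prod_eq_zero (i := i) (by simp) h0] at h1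
        exact (pow_eq_zero_iff two_ne_zero).1 h1
      exact CL_y_left (w := aff s x y) (b := D.blk i) hy w'
    · obtain ⟨l, hl⟩ := IsAlgClosed.exists_pow_nat_eq (x i + 2 * α) (n := 2) (by norm_num)
      have h1 : x i - α ≠ 0 := by
        intro h2
        apply h0
        rw [hff, h2]
        ring
      have h2 : l ≠ 0 := by
        rintro rfl
        apply h0
        rw [hff, ← hl]
        ring
      -- the family
      let τ : Om k := algebraMap k (Om k) l * (1 - tt k)
      let Z : Om k := τ ^ 2 - algebraMap k (Om k) (2 * α)
      let C : Om k := τ * (Z - algebraMap k (Om k) α) *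
        algebraMap k (Om k) (l * (x i - α))⁻¹
      have hC : C ^ 2 * D.ff i (algebraMap k (Om k) s) (algebraMap k (Om k) (x i)) =
          D.ff i (algebraMap k (Om k) s) Z := by
        have e1 : D.ff i s (x i) = (l * (x i - α)) ^ 2 := by
          rw [hff, ← hl]
          ring
        rw [ff_const, e1, hffK]
        have e2 : Z + 2 * algebraMap k (Om k) α = τ ^ 2 := by
          simp only [Z, map_mul, map_ofNat]
          ring
        rw [e2]
        have e3 : algebraMap k (Om k) (l * (x i - α))⁻¹ *
            algebraMap k (Om k) (l * (x i - α)) = 1 := by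
          rw [← map_mul, inv_mul_cancel₀ (mul_ne_zero h2 h1), map_one]
        have e4 : C ^ 2 * algebraMap k (Om k) ((l * (x i - α)) ^ 2) =
            (Z - algebraMap k (Om k) α) ^ 2 * τ ^ 2 *
              (algebraMap k (Om k) (l * (x i - α))⁻¹ *
                algebraMap k (Om k) (l * (x i - α))) ^ 2 := by
          simp only [C, map_pow]
          ring
        rw [e4, e3, one_pow, mul_one]
      have hOn := on_update (on_const hP) hC
      refine bridgeCL (I := Unit) (fun _ => aff (algebraMap k (Om k) s)
          (Function.update (fun j => algebraMap k (Om k) (x j)) i Z)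
          (Function.update (fun b => algebraMap k (Om k) (y b)) (D.blk i)
            (C * algebraMap k (Om k) (y (D.blk i)))))
        (fun _ => cst (Om k) w') (fun _ => (onX_aff _ _ _).2 hOn) (fun _ => onX_cst hw')
        0 1 _ _ ?_ ?_
      · intro v hv
        have hτ : v.At τ l := by
          have := (Place.at_const (v := v) l).mul (at_one.sub hv)
          simpa using this
        have hZ : v.At Z (x i) := by
          have := (hτ.pow 2).sub (Place.at_const (v := v) (2 * α))
          rwa [hl, add_sub_cancel_right] at this
        have hCv : v.At C 1 := by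
          have := (hτ.mul (hZ.sub (Place.at_const (v := v) α))).mul
            (Place.at_const (v := v) (l * (x i - α))⁻¹)
          rwa [mul_inv_cancel₀ (mul_ne_zero h2 h1)] at this
        have hval := isValue_update (D := D) (s := s) (x := x) (y := y) (i := i) hZ hCv
        rw [one_mul, Function.update_eq_self, Function.update_eq_self] at hval
        exact ⟨fun _ => D.CL (aff s x y) w', fun _ => ⟨aff s x y, w', (onX_aff _ _ _).2 hP, hw',
          hval, isValue_cst v w', rfl⟩, by simp⟩
      · intro v hv
        have hτ : v.At τ 0 := by
          have := (Place.at_const (v := v) l).mul (at_one.sub hv)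
          simpa using this
        have hZ : v.At Z (-(2 * α)) := by
          have := (hτ.pow 2).sub (Place.at_const (v := v) (2 * α))
          rwa [zero_pow two_ne_zero, zero_sub] at this
        have hCv : v.At C 0 := by
          have := (hτ.mul (hZ.sub (Place.at_const (v := v) α))).mul
            (Place.at_const (v := v) (l * (x i - α))⁻¹)
          rwa [zero_mul, zero_mul] at this
        have hval := isValue_update (D := D) (s := s) (x := x) (y := y) (i := i) hZ hCv
        have hOn0 : D.On s (Function.update x i (-(2 * α)))
            (Function.update y (D.blk i) (0 * y (D.blk i))) := by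
          refine on_update hP ?_
          rw [hff (-(2 * α))]
          ring
        refine ⟨fun _ => 0, fun _ => vcl_zero ((onX_aff _ _ _).2 hOn0) hw' hval
          (isValue_cst v w') (Or.inl ⟨D.blk i, ?_⟩), by simp⟩
        change Function.update y (D.blk i) (0 * y (D.blk i)) (D.blk i) = 0
        rw [Function.update_self, zero_mul]
  exact ⟨key, by rw [CL_swap, key, smul_zero]⟩

end Pool.Agent.VFP
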