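import Pool.Agent.VFP.Defs2
import Pool.Agent.VK3.Shear

/-!
# Linear changes of the coordinates of the line
-/

set_option autoImplicit false

noncomputable section

namespace Pool.Agent.VFP

open Pool.Agent.ZCyc Polynomial

universe u

variable {k : Type u} [Field k] {N r : ℕ}

/-- `(s₀, s₁) ↦ (s₀ + c s₁, s₁)` -/
def shr {K : Type*} [Field K] (c : K) (w : Crd N r K) : Crd N r K where
  s := ![w.s 0 + c * w.s 1, w.s 1]
  x := w.x
  z := w.z
  y := w.y

/-- the data in the new coordinates (`VK3.shf c A` is `A(s₀ - c s₁, s₁)`) -/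
def Dat.shr (c : k) (D : Dat k N r) : Dat k N r where
  deg := D.deg
  blk := D.blk
  A i := VK3.shf c (D.A i)
  B i := VK3.shf c (D.B i)

private theorem shf_disc (c : k) (A B : MvPolynomial (Fin 2) k) :
    4 * VK3.shf c A ^ 3 + 27 * VK3.shf c B ^ 2 = VK3.shf c (4 * A ^ 3 + 27 * B ^ 2) := by
  unfold VK3.shf
  rw [map_add, map_mul, map_mul, map_pow, map_pow, map_ofNat, map_ofNat]

private theorem shf_zero (c : k) : VK3.shf c (0 : MvPolynomial (Fin 2) k) = 0 := by
  unfold VK3.shf
  exact map_zero _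

private theorem shf_eval (c : k) (A : MvPolynomial (Fin 2) k) (α : Fin 2 → k) :
    MvPolynomial.eval ![α 0 + c * α 1, α 1] (VK3.shf c A) = MvPolynomial.eval α A := by
  have h1 := VK3.shf_aeval c A (α 0) (α 1)
  have h2 : (![α 0, α 1] : Fin 2 → k) = α := by
    funext i
    fin_cases i <;> rfl
  rw [h2, MvPolynomial.aeval_eq_eval, MvPolynomial.aeval_eq_eval] at h1
  exact h1

theorem valid_shr (c : k) {D : Dat k N r} (h : D.Valid) : (D.shr c).Valid where
  pos := h.pos
  sum := h.sum
  surj := h.surj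
  even := h.even
  homA i := VK3.shf_hom (h.homA i)
  homB i := VK3.shf_hom (h.homB i)
  disc i := by
    change 4 * VK3.shf c (D.A i) ^ 3 + 27 * VK3.shf c (D.B i) ^ 2 ≠ 0
    rw [shf_disc]
    intro h0
    have h1 := VK3.shf_shf c (4 * D.A i ^ 3 + 27 * D.B i ^ 2)
    rw [h0, shf_zero] at h1
    exact h.disc i h1.symm
  zeros := by
    obtain ⟨α, β, i, j, h1, h2, h3⟩ := h.zeros
    refine ⟨![α 0 + c * α 1, α 1], ![β 0 + c * β 1, β 1], i, j, ?_, ?_, ?_⟩
    · intro h4
      apply h1
      have h5 : (α 0 + c * α 1) * β 1 = α 1 * (β 0 + c * β 1) := h4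
      linear_combination h5
    · change MvPolynomial.eval _ (4 * VK3.shf c (D.A i) ^ 3 + 27 * VK3.shf c (D.B i) ^ 2) = 0
      rw [shf_disc, shf_eval]
      exact h2
    · change MvPolynomial.eval _ (4 * VK3.shf c (D.A j) ^ 3 + 27 * VK3.shf c (D.B j) ^ 2) = 0
      rw [shf_disc, shf_eval]
      exact h3

private theorem shf_aeval' (c : k) (A : MvPolynomial (Fin 2) k) {K : Type*} [Field K]
    [Algebra k K] (s : Fin 2 → K) :
    MvPolynomial.aeval ![s 0 + algebraMap k K c * s 1, s 1] (VK3.shf c A) =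
      MvPolynomial.aeval s A := by
  have h2 : (![s 0, s 1] : Fin 2 → K) = s := by
    funext i
    fin_cases i <;> rfl
  rw [VK3.shf_aeval, h2]

theorem onX_shr (c : k) {D : Dat k N r} {K : Type*} [Field K] [Algebra k K] {w : Crd N r K}
    (h : D.OnX w) : (D.shr c).OnX (shr (algebraMap k K c) w) := by
  refine ⟨?_, h.2.1, fun b => ?_⟩
  · intro h0
    apply h.1
    have h1 : w.s 1 = 0 := congrFun h0 1
    have h2 : w.s 0 + algebraMap k K c * w.s 1 = 0 := congrFun h0 0
    rw [h1, mul_zero, add_zero] at h2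
    funext i
    fin_cases i
    · exact h2
    · exact h1
  · have h1 : ∀ i, (D.shr c).fac (shr (algebraMap k K c) w) i = D.fac w i := by
      intro i
      change w.z i * (w.x i ^ 3 + MvPolynomial.aeval ![w.s 0 + algebraMap k K c * w.s 1, w.s 1]
        (VK3.shf c (D.A i)) * w.x i * w.z i ^ 2 +
        MvPolynomial.aeval ![w.s 0 + algebraMap k K c * w.s 1, w.s 1]
        (VK3.shf c (D.B i)) * w.z i ^ 3) = _
      rw [shf_aeval', shf_aeval']
      rfl
    simp only [h1]
    exact h.2.2 b

theorem shr_neg {K : Type*} [Field K] (c : K) (w : Crd N r K) : shr (-c) (shr c w) = w := by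
  apply Crd.ext
  · funext i
    fin_cases i
    · change (w.s 0 + c * w.s 1) + -c * w.s 1 = w.s 0
      ring
    · rfl
  · rfl
  · rfl
  · rfl

private theorem isValue_aux {K : Type*} [Field K] [Algebra k K] {v : Place k K} (c : k) {d : K}
    {P : Fin 2 → K} {p : Fin 2 → k}
    (h : ∀ j, v.Vanishes (d * P j - algebraMap k K (p j))) (j : Fin 2) :
    v.Vanishes (d * (![P 0 + algebraMap k K c * P 1, P 1] : Fin 2 → K) j -
      algebraMap k K ((![p 0 + c * p 1, p 1] : Fin 2 → k) j)) := by
  match j with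
  | 0 =>
    have h1 := (h 0).add v ((h 1).mul' v (v.const_mem c))
    have h2 : d * (P 0 + algebraMap k K c * P 1) - algebraMap k K (p 0 + c * p 1) =
        d * P 0 - algebraMap k K (p 0) +
          algebraMap k K c * (d * P 1 - algebraMap k K (p 1)) := by
      rw [map_add, map_mul]
      ring
    change v.Vanishes (d * (P 0 + algebraMap k K c * P 1) - algebraMap k K (p 0 + c * p 1))
    rw [h2]
    exact h1
  | 1 => exact h 1

private theorem isValue_shr {v : Place k (Om k)} (c : k) {D : Dat k N r} {P : Crd N r (Om k)}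
    {p : Crd N r k} (h : D.IsValue v P p) :
    (D.shr c).IsValue v (shr (algebraMap k (Om k) c) P) (shr c p) := by
  obtain ⟨d, m, h1, h2, h3, h4⟩ := h
  exact ⟨d, m, isValue_aux c h1, h2, h3, h4⟩

private theorem map_shr {K : Type*} [Field K] (g : K → K) (hadd : ∀ x y, g (x + y) = g x + g y)
    (hmul : ∀ x y, g (x * y) = g x * g y) {c : K} (hc : g c = c) (P : Crd N r K) :
    shr c (P.map g) = (shr c P).map g := by
  apply Crd.ext
  · funext i
    match i with
    | 0 =>
      change g (P.s 0) + c * g (P.s 1) = g (P.s 0 + c * P.s 1)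
      rw [hadd, hmul, hc]
    | 1 => rfl
  · rfl
  · rfl
  · rfl

private theorem ratEq_shr (c : k) (D : Dat k N r) :
    D.ratEq ≤ ((D.shr c).ratEq).comap (Finsupp.lmapDomain ℚ ℚ (Prod.map (shr c) (shr c))) := by
  unfold Dat.ratEq
  rw [Submodule.span_le]
  rintro z ⟨n, P, Q, a, b, v, w, p, q, p', q', hOn, hG, hv, hw, hp, hp', rfl⟩
  refine Submodule.subset_span ⟨n, fun i => shr (algebraMap k (Om k) c) (P i),
    fun i => shr (algebraMap k (Om k) c) (Q i), a, b, v, w, fun i => shr c (p i),
    fun i => shr c (q i), fun i => shr c (p' i), fun i => shr c (q' i),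
    fun i => ⟨onX_shr c (hOn i).1, onX_shr c (hOn i).2⟩, fun g => ?_, hv, hw,
    fun i => ⟨onX_shr (K := k) c (hp i).1, onX_shr (K := k) c (hp i).2.1,
      isValue_shr c (hp i).2.2.1, isValue_shr c (hp i).2.2.2⟩,
    fun i => ⟨onX_shr (K := k) c (hp' i).1, onX_shr (K := k) c (hp' i).2.1,
      isValue_shr c (hp' i).2.2.1, isValue_shr c (hp' i).2.2.2⟩, ?_⟩
  · obtain ⟨e, he⟩ := hG g
    have hc : g (algebraMap k (Om k) c) = algebraMap k (Om k) c := by
      rw [IsScalarTower.algebraMap_apply k (RatFunc k) (Om k), g.commutes]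
    refine ⟨e, fun i => ⟨?_, ?_⟩⟩
    · have h1 := map_shr g (map_add g) (map_mul g) hc (P i)
      rw [← (he i).1] at h1
      exact h1
    · have h1 := map_shr g (map_add g) (map_mul g) hc (Q i)
      rw [← (he i).2] at h1
      exact h1
  · rw [map_sum]
    refine Finset.sum_congr rfl fun i _ => ?_
    rw [map_sub, Finsupp.lmapDomain_apply, Finsupp.lmapDomain_apply, Finsupp.mapDomain_single,
      Finsupp.mapDomain_single]
    rfl

private def mp (c : k) (D : Dat k N r) : D.V →ₗ[ℚ] (D.shr c).V :=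
  Submodule.mapQ _ _ (Finsupp.lmapDomain ℚ ℚ (Prod.map (shr c) (shr c))) (ratEq_shr c D)

private theorem mp_cv (c : k) (D : Dat k N r) (w w' : Crd N r k) :
    mp c D (D.cv w w') = (D.shr c).cv (shr c w) (shr c w') := by
  unfold mp Dat.cv
  rw [Submodule.mapQ_apply, Finsupp.lmapDomain_apply, Finsupp.mapDomain_single]
  rfl

private theorem mp_T (c : k) (D : Dat k N r) (w w' : Crd N r k) :
    mp c D (D.T w w') = (D.shr c).T (shr c w) (shr c w') := by
  unfold Dat.T
  rw [map_sum]
  refine Finset.sum_congr rfl fun ε _ => ?_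
  rw [map_sum]
  refine Finset.sum_congr rfl fun ε' _ => ?_
  rw [map_smul, mp_cv]
  rfl

private theorem mp_CL (c : k) (D : Dat k N r) (w w' : Crd N r k) :
    mp c D (D.CL w w') = (D.shr c).CL (shr c w) (shr c w') := by
  unfold Dat.CL
  rw [map_add, map_smul, mp_T, mp_T]

private theorem dat_shr_neg (c : k) (D : Dat k N r) : (D.shr c).shr (-c) = D := by
  have h1 : (fun i => VK3.shf (-c) (VK3.shf c (D.A i))) = D.A := by
    funext i
    exact VK3.shf_shf c _
  have h2 : (fun i => VK3.shf (-c) (VK3.shf c (D.B i))) = D.B := by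
    funext i
    exact VK3.shf_shf c _
  unfold Dat.shr
  simp only [h1, h2]

/-- the isomorphism between the varieties in the old and in the new coordinates -/
theorem CL_shr (c : k) {D : Dat k N r} {w w' : Crd N r k}
    (h : (D.shr c).CL (shr c w) (shr c w') = 0) : D.CL w w' = 0 := by
  have h1 := mp_CL (-c) (D.shr c) (shr c w) (shr c w')
  rw [h, map_zero, shr_neg, shr_neg] at h1
  have h2 : ((D.shr c).shr (-c)).CL w w' = 0 := h1.symm
  rw [dat_shr_neg] at h2
  exact h2

end Pool.Agent.VFP
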