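import Pool.Agent.VFP.CLAff
import Pool.Agent.VFP.Shear
import Pool.Agent.VFP.Scale

/-!
# The vanishing of CL
-/

set_option autoImplicit false

noncomputable section

namespace Pool.Agent.VFP

open Pool.Agent.ZCyc Polynomial

universe u

variable {k : Type u} [Field k] {N r : ℕ}

private lemma clz_eval_smul {A : MvPolynomial (Fin 2) k} {n : ℕ} (hA : A.IsHomogeneous n) (c : k)
    (x : Fin 2 → k) : MvPolynomial.eval (fun i => c * x i) A = c ^ n * MvPolynomial.eval x A := by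
  rw [MvPolynomial.eval_eq, MvPolynomial.eval_eq, Finset.mul_sum]
  refine Finset.sum_congr rfl fun d hd => ?_
  have hdn : ∑ i ∈ d.support, d i = n := by
    have := hA (MvPolynomial.mem_support_iff.1 hd)
    rw [Finsupp.weight_apply] at this
    simpa [Finsupp.sum] using this
  simp only [mul_pow, Finset.prod_mul_distrib]
  rw [Finset.prod_pow_eq_pow_sum, hdn]
  ring

private lemma clz_ne {c v₀ v₁ : k} (hc : c ≠ -v₀ / v₁) (hv : v₀ ≠ 0 ∨ v₁ ≠ 0) :
    v₀ + c * v₁ ≠ 0 := by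
  intro h
  by_cases h1 : v₁ = 0
  · rw [h1, mul_zero, add_zero] at h
    rcases hv with h2 | h2
    · exact h2 h
    · exact h2 h1
  · apply hc
    rw [eq_div_iff h1]
    linear_combination h

private lemma clz_ne' {s : Fin 2 → k} (h : s ≠ 0) : s 0 ≠ 0 ∨ s 1 ≠ 0 := by
  by_contra hc
  push Not at hc
  apply h
  funext i
  fin_cases i
  · exact hc.1
  · exact hc.2

private lemma clz_sg_scale (D : Dat k N r) (ε : Fin r → ℤˣ) (c : k) (m : Fin N → k)
    (w : Crd N r k) : sg ε (D.scale c m w) = D.scale c m (sg ε w) := by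
  ext j
  · rfl
  · rfl
  · rfl
  · show _ * (_ * _) = _ * (_ * _)
    ring

variable [IsAlgClosed k] [CharZero k] {D : Dat k N r}

private lemma clz_T_scale (h : D.Valid) {c c' : k} (hc : c ≠ 0) (hc' : c' ≠ 0) {m m' : Fin N → k}
    (hm : ∀ i, m i ≠ 0) (hm' : ∀ i, m' i ≠ 0) {w w' : Crd N r k} (hw : D.OnX w)
    (hw' : D.OnX w') : D.T (D.scale c m w) (D.scale c' m' w') = D.T w w' := by
  unfold Dat.T
  refine Finset.sum_congr rfl fun ε _ => Finset.sum_congr rfl fun ε' _ => ?_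
  rw [clz_sg_scale, clz_sg_scale, cv_scale h hc hc' hm hm' (onX_sg ε hw) (onX_sg ε' hw')]

private lemma clz_CL_scale (h : D.Valid) {c c' : k} (hc : c ≠ 0) (hc' : c' ≠ 0)
    {m m' : Fin N → k} (hm : ∀ i, m i ≠ 0) (hm' : ∀ i, m' i ≠ 0) {w w' : Crd N r k}
    (hw : D.OnX w) (hw' : D.OnX w') :
    D.CL (D.scale c m w) (D.scale c' m' w') = D.CL w w' := by
  unfold Dat.CL
  rw [clz_T_scale h hc hc' hm hm' hw hw', clz_T_scale h hc' hc hm' hm hw' hw]

/-- If some `z_i = 0` this is clear; otherwise choose `c` such that the first coordinates of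
`shr c` of `w.s`, `w'.s`, `α`, `β` are not zero and use `CL_aff` and `CL_shr`. -/
theorem CL_zero (h : D.Valid) {w w' : Crd N r k} (hw : D.OnX w) (hw' : D.OnX w') :
    D.CL w w' = 0 := by
  classical
  by_cases hz : ∀ i, w.z i ≠ 0
  swap
  · push Not at hz
    obtain ⟨i, hi⟩ := hz
    exact CL_y_left (y_eq_zero hw hi) w'
  by_cases hz' : ∀ i, w'.z i ≠ 0
  swap
  · push Not at hz'
    obtain ⟨i, hi⟩ := hz'
    exact CL_y_right (y_eq_zero hw' hi) w
  obtain ⟨α, β, i₁, i₂, hαβ, hα, hβ⟩ := h.zeros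
  obtain ⟨c, hc⟩ := Infinite.exists_notMem_finset
    ({-w.s 0 / w.s 1, -w'.s 0 / w'.s 1, -α 0 / α 1, -β 0 / β 1} : Finset k)
  simp only [Finset.mem_insert, Finset.mem_singleton, not_or] at hc
  obtain ⟨hc1, hc2, hc3, hc4⟩ := hc
  have hα0 : α 0 + c * α 1 ≠ 0 := clz_ne hc3 (by
    by_contra h
    push Not at h
    apply hαβ
    rw [h.1, h.2, zero_mul, zero_mul])
  have hβ0 : β 0 + c * β 1 ≠ 0 := clz_ne hc4 (by
    by_contra h
    push Not at h
    apply hαβ
    rw [h.1, h.2, mul_zero, mul_zero])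
  have hD := valid_shr c h
  have hroot : ∀ (γ : Fin 2 → k) (i : Fin N), γ 0 + c * γ 1 ≠ 0 →
      MvPolynomial.eval γ (4 * D.A i ^ 3 + 27 * D.B i ^ 2) = 0 →
      (D.shr c).dsc i (γ 1 / (γ 0 + c * γ 1)) = 0 := by
    intro γ i hγ h0
    have key : ∀ F : MvPolynomial (Fin 2) k, ∀ n, F.IsHomogeneous n →
        MvPolynomial.aeval ![(1 : k), γ 1 / (γ 0 + c * γ 1)] (VK3.shf c F) =
          (1 / (γ 0 + c * γ 1)) ^ n * MvPolynomial.eval γ F := by
      intro F n hF
      have h1 := VK3.shf_aeval (K := k) c F (1 / (γ 0 + c * γ 1) * γ 0)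
        (1 / (γ 0 + c * γ 1) * γ 1)
      have h2 : 1 / (γ 0 + c * γ 1) * γ 0 + algebraMap k k c * (1 / (γ 0 + c * γ 1) * γ 1) = 1 := by
        rw [Algebra.algebraMap_self, RingHom.id_apply]
        field_simp
      rw [h2] at h1
      have h3 : γ 1 / (γ 0 + c * γ 1) = 1 / (γ 0 + c * γ 1) * γ 1 := by ring
      have h4 : (![1 / (γ 0 + c * γ 1) * γ 0, 1 / (γ 0 + c * γ 1) * γ 1] : Fin 2 → k) =
          fun i => 1 / (γ 0 + c * γ 1) * γ i := by
        funext i
        fin_cases i <;> simp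
      rw [h3, h1, ← clz_eval_smul hF, MvPolynomial.aeval_eq_eval, h4]
    unfold Dat.dsc
    rw [← eval_al, ← eval_be]
    show 4 * MvPolynomial.aeval ![(1 : k), γ 1 / (γ 0 + c * γ 1)] (VK3.shf c (D.A i)) ^ 3 +
      27 * MvPolynomial.aeval ![(1 : k), γ 1 / (γ 0 + c * γ 1)] (VK3.shf c (D.B i)) ^ 2 = 0
    rw [key _ _ (h.homA i), key _ _ (h.homB i)]
    simp only [map_add, map_mul, map_pow] at h0
    have h4 : MvPolynomial.eval γ (4 : MvPolynomial (Fin 2) k) = 4 := by simp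
    have h27 : MvPolynomial.eval γ (27 : MvPolynomial (Fin 2) k) = 27 := by simp
    rw [h4, h27] at h0
    have h5 : ∀ x : k, (x ^ (2 * D.deg i)) ^ 3 = x ^ (6 * D.deg i) := fun x => by
      rw [← pow_mul]
      congr 1
      ring
    have h6 : ∀ x : k, (x ^ (3 * D.deg i)) ^ 2 = x ^ (6 * D.deg i) := fun x => by
      rw [← pow_mul]
      congr 1
      ring
    rw [mul_pow, mul_pow, h5, h6]
    linear_combination (1 / (γ 0 + c * γ 1)) ^ (6 * D.deg i) * h0
  have hδ : α 1 / (α 0 + c * α 1) ≠ β 1 / (β 0 + c * β 1) := by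
    intro h
    rw [div_eq_div_iff hα0 hβ0] at h
    apply hαβ
    linear_combination -h
  have h1 : (D.shr c).OnX (shr c w) := onX_shr c hw
  have h1' : (D.shr c).OnX (shr c w') := onX_shr c hw'
  obtain ⟨d, m, s, x, y, hd, hm, hP, hwP⟩ := exists_aff hD h1
    (clz_ne hc1 (clz_ne' hw.1)) hz
  obtain ⟨d', m', t, x', y', hd', hm', hQ, hwQ⟩ := exists_aff hD h1'
    (clz_ne hc2 (clz_ne' hw'.1)) hz'
  refine CL_shr c ?_
  rw [hwP, hwQ, clz_CL_scale hD hd hd' hm hm' ((onX_aff s x y).2 hP) ((onX_aff t x' y').2 hQ)]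
  exact CL_aff hD hδ (hroot α i₁ hα0 hα) (hroot β i₂ hβ0 hβ) hP hQ

end Pool.Agent.VFP
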