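import Pool.Agent.VFP.Parts
import Pool.Agent.VFP.CLZero

/-!
# Voisins conjecture
-/

set_option autoImplicit false

noncomputable section

namespace Pool.Agent.VFP

open Pool.Agent.ZCyc Polynomial

universe u

variable {k : Type u} [Field k] {N r : ℕ}

/-- the class of an exterior product -/
private theorem fin_mk_prod {D : Dat k N r} (y z : Crd N r k →₀ ℚ) :
    (Submodule.Quotient.mk (prod y z) : D.V) =
      ∑ p ∈ y.support, ∑ q ∈ z.support, (y p * z q) • D.cv p q := by
  have h : ∀ x, (Submodule.Quotient.mk x : D.V) = D.ratEq.mkQ x := fun _ => rfl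
  rw [h, prod, Finsupp.sum, map_sum]
  refine Finset.sum_congr rfl fun p _ => ?_
  rw [Finsupp.sum, map_sum]
  refine Finset.sum_congr rfl fun q _ => ?_
  rw [Dat.cv, ← Submodule.Quotient.mk_smul, ← h]
  congr 1
  rw [Finsupp.smul_single, smul_eq_mul, mul_one]

/-- the class of an exterior product of cycles of degree zero -/
private theorem fin_mk_prod' {D : Dat k N r} {G H : Crd N r k → D.V}
    (hGH : ∀ w w', D.OnX w → D.OnX w' →
    (4 : ℚ) ^ r • D.cv w w' = D.T w w' + G w + H w') {y z : Crd N r k →₀ ℚ}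
    (hy : ∀ p ∈ y.support, D.OnX p)
    (hz : ∀ p ∈ z.support, D.OnX p) (hy0 : y.sum (fun _ c => c) = 0)
    (hz0 : z.sum (fun _ c => c) = 0) :
    (4 : ℚ) ^ r • (Submodule.Quotient.mk (prod y z) : D.V) =
      ∑ p ∈ y.support, ∑ q ∈ z.support, (y p * z q) • D.T p q := by
  rw [fin_mk_prod, Finset.smul_sum]
  calc ∑ p ∈ y.support, (4 : ℚ) ^ r • ∑ q ∈ z.support, (y p * z q) • D.cv p q
      = ∑ p ∈ y.support, ∑ q ∈ z.support, ((y p * z q) • D.T p q + (z q) • ((y p) • G p) +
          (y p) • ((z q) • H q)) := by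
        refine Finset.sum_congr rfl fun p hp => ?_
        rw [Finset.smul_sum]
        refine Finset.sum_congr rfl fun q hq => ?_
        rw [smul_comm, hGH p q (hy p hp) (hz q hq), smul_add, smul_add, smul_smul, smul_smul,
          mul_comm (z q)]
    _ = _ := by
        have h4 : ∀ p, ∑ q ∈ z.support, (z q) • ((y p) • G p) = 0 := by
          intro p
          rw [← Finset.sum_smul]
          rw [Finsupp.sum] at hz0
          rw [hz0, zero_smul]
        have h5 : ∑ p ∈ y.support, ∑ q ∈ z.support, (y p) • ((z q) • H q) = 0 := by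
          rw [Finset.sum_comm]
          refine Finset.sum_eq_zero fun q _ => ?_
          rw [← Finset.sum_smul]
          rw [Finsupp.sum] at hy0
          rw [hy0, zero_smul]
        simp only [Finset.sum_add_distrib]
        rw [h5, add_zero, Finset.sum_eq_zero (fun p _ => h4 p), add_zero]

variable [IsAlgClosed k] [CharZero k] {D : Dat k N r}

/-- Compare `Pool.Agent.VK3.voisin`. -/
theorem voisin (h : D.Valid) {y z : Crd N r k →₀ ℚ} (hy : ∀ p ∈ y.support, D.OnX p)
    (hz : ∀ p ∈ z.support, D.OnX p) (hy0 : y.sum (fun _ c => c) = 0)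
    (hz0 : z.sum (fun _ c => c) = 0) :
    prod y z - (-1 : ℚ) ^ (N + 1) • prod z y ∈ D.ratEq := by
  obtain ⟨G, H, hGH⟩ := parts h
  rw [← Submodule.Quotient.mk_eq_zero, Submodule.Quotient.mk_sub, Submodule.Quotient.mk_smul]
  have h1 : (4 : ℚ) ^ r • ((Submodule.Quotient.mk (prod y z) : D.V) -
      (-1 : ℚ) ^ (N + 1) • (Submodule.Quotient.mk (prod z y) : D.V)) = 0 := by
    rw [smul_sub, smul_comm, fin_mk_prod' hGH hy hz hy0 hz0, fin_mk_prod' hGH hz hy hz0 hy0,
      Finset.sum_comm (s := z.support), ← Finset.smul_sum.symm, ← Finset.sum_sub_distrib]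
    refine Finset.sum_eq_zero fun p hp => ?_
    rw [Finset.smul_sum, ← Finset.sum_sub_distrib]
    refine Finset.sum_eq_zero fun q hq => ?_
    have h2 := CL_zero h (hy p hp) (hz q hq)
    unfold Dat.CL at h2
    have h3 : (y p * z q) • D.T p q - (-1 : ℚ) ^ (N + 1) • (z q * y p) • D.T q p =
        (y p * z q) • (D.T p q + (-1 : ℚ) ^ N • D.T q p) := by
      rw [smul_add, smul_smul, smul_smul, sub_eq_add_neg, ← neg_smul]
      congr 2
      rw [pow_succ]
      ring
    rw [h3, h2, smul_zero]
  exact (smul_eq_zero.1 h1).resolve_left (by positivity)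

end Pool.Agent.VFP
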