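import Pool.Agent.VFP.Util
import Pool.Agent.VFP.Sign

/-!
# Specialisation of families
-/

set_option autoImplicit false

noncomputable section

namespace Pool.Agent.VFP

open Pool.Agent.ZCyc Polynomial

universe u

variable {k : Type u} [Field k] {N r : ℕ}

private theorem aeval_map (g : Om k ≃ₐ[RatFunc k] Om k) (s : Fin 2 → Om k)
    (C : MvPolynomial (Fin 2) k) :
    MvPolynomial.aeval (g ∘ s) C = g (MvPolynomial.aeval s C) := by
  have e1 : g (MvPolynomial.aeval s C) =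
      ((g.restrictScalars k).toAlgHom.comp (MvPolynomial.aeval s)) C := rfl
  rw [e1]
  congr 1
  refine MvPolynomial.algHom_ext fun j => ?_
  simp

private theorem fac_map {D : Dat k N r} (g : Om k ≃ₐ[RatFunc k] Om k) (w : Crd N r (Om k))
    (i : Fin N) : D.fac (w.map g) i = g (D.fac w i) := by
  unfold Dat.fac Crd.map
  simp only [aeval_map, Function.comp_apply, map_mul, map_add, map_pow]

private theorem onX_map {D : Dat k N r} (g : Om k ≃ₐ[RatFunc k] Om k) {w : Crd N r (Om k)}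
    (h : D.OnX w) : D.OnX (w.map g) := by
  obtain ⟨h1, h2, h3⟩ := h
  refine ⟨fun h0 => h1 ?_, fun i => ?_, fun b => ?_⟩
  · funext j
    exact (map_eq_zero_iff g g.injective).1 (congrFun h0 j)
  · rcases h2 i with h4 | h4
    · left
      intro h0
      exact h4 ((map_eq_zero_iff g g.injective).1 h0)
    · right
      intro h0
      exact h4 ((map_eq_zero_iff g g.injective).1 h0)
  · rw [Finset.prod_congr rfl fun i _ => fac_map g w i, ← map_prod, ← h3 b, map_pow]
    rfl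

private theorem scale_map {D : Dat k N r} (g : Om k ≃ₐ[RatFunc k] Om k) (c : Om k)
    (m : Fin N → Om k) (w : Crd N r (Om k)) :
    D.scale (g c) (g ∘ m) (w.map g) = (D.scale c m w).map g := by
  refine Crd.ext ?_ ?_ ?_ ?_
  · funext j
    simp only [Dat.scale, Crd.map, Function.comp_apply, map_mul]
  · funext j
    simp only [Dat.scale, Crd.map, Function.comp_apply, map_mul, map_pow]
  · funext j
    simp only [Dat.scale, Crd.map, Function.comp_apply, map_mul]
  · funext j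
    simp only [Dat.scale, Crd.map, Function.comp_apply, map_mul, map_pow, map_prod]

private theorem at_map_symm {v : Place k (Om k)} (g : Om k ≃ₐ[RatFunc k] Om k) {f : Om k} {c : k}
    (h : (v.map (g.restrictScalars k).symm).At f c) : v.At (g f) c := by
  rw [Place.at_map] at h
  exact h

private theorem isValue_map {D : Dat k N r} (v : Place k (Om k)) (g : Om k ≃ₐ[RatFunc k] Om k)
    {w : Crd N r (Om k)} {p : Crd N r k}
    (h : D.IsValue (v.map (g.restrictScalars k).symm) w p) : D.IsValue v (w.map g) p := by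
  obtain ⟨c, m, h1, h2, h3, h4⟩ := h
  refine ⟨g c, g ∘ m, ?_⟩
  rw [scale_map]
  exact ⟨fun j => at_map_symm g (h1 j), fun j => at_map_symm g (h2 j),
    fun j => at_map_symm g (h3 j), fun j => at_map_symm g (h4 j)⟩

private theorem bridge_at (v : Place k (Om k)) (g : Om k ≃ₐ[RatFunc k] Om k) {c : k}
    (h : v.At (tt k) c) : (v.map (g.restrictScalars k).symm).At (tt k) c := by
  rw [Place.at_map]
  have e : (g.restrictScalars k).symm.symm (tt k) = tt k := by
    show g (tt k) = _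
    exact g.commutes _
  rw [e]
  exact h

/-- all coordinates -/
private def co {K : Type*} (w : Crd N r K) : Fin 2 ⊕ Fin N ⊕ Fin N ⊕ Fin r → K :=
  Sum.elim w.s (Sum.elim w.x (Sum.elim w.z w.y))

private theorem map_congr {L : Set (Om k)} {f f' g : Om k → Om k} {w : Crd N r (Om k)}
    (hw : ∀ j, co w j ∈ L) (h : ∀ x ∈ L, f x = g (f' x)) : w.map f = (w.map f').map g := by
  refine Crd.ext ?_ ?_ ?_ ?_
  · funext j
    exact h _ (hw (Sum.inl j))
  · funext j
    exact h _ (hw (Sum.inr (Sum.inl j)))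
  · funext j
    exact h _ (hw (Sum.inr (Sum.inr (Sum.inl j))))
  · funext j
    exact h _ (hw (Sum.inr (Sum.inr (Sum.inr j))))

variable [IsAlgClosed k] [CharZero k] {D : Dat k N r}

/-- Copy of `Pool.Agent.VK3.Bridge`: take a finite Galois extension `L` of `k(t)` in `Om k` which
contains all coordinates, the families are `τ (P i, Q i)`, `τ ∈ Gal(L / k(t))`. -/
theorem bridge {I : Type} [Fintype I] (c : I → ℚ) (P Q : I → Crd N r (Om k))
    (hP : ∀ i, D.OnX (P i)) (hQ : ∀ i, D.OnX (Q i)) (c₀ c₁ : k) (C₀ C₁ : D.V)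
    (h₀ : ∀ v : Place k (Om k), v.At (tt k) c₀ → ∃ p q : I → Crd N r k, (∀ i, D.OnX (p i)) ∧
      (∀ i, D.OnX (q i)) ∧ (∀ i, D.IsValue v (P i) (p i)) ∧ (∀ i, D.IsValue v (Q i) (q i)) ∧
      ∑ i, c i • D.cv (p i) (q i) = C₀)
    (h₁ : ∀ v : Place k (Om k), v.At (tt k) c₁ → ∃ p q : I → Crd N r k, (∀ i, D.OnX (p i)) ∧
      (∀ i, D.OnX (q i)) ∧ (∀ i, D.IsValue v (P i) (p i)) ∧ (∀ i, D.IsValue v (Q i) (q i)) ∧
      ∑ i, c i • D.cv (p i) (q i) = C₁) :
    C₀ = C₁ := by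
  classical
  let S : Set (Om k) :=
    Set.range (fun x : I × (Fin 2 ⊕ Fin N ⊕ Fin N ⊕ Fin r) => co (P x.1) x.2) ∪
    Set.range (fun x : I × (Fin 2 ⊕ Fin N ⊕ Fin N ⊕ Fin r) => co (Q x.1) x.2)
  let L1 : IntermediateField (RatFunc k) (Om k) := IntermediateField.adjoin (RatFunc k) S
  have hfd : FiniteDimensional (RatFunc k) L1 := by
    have : Finite S := ((Set.finite_range _).union (Set.finite_range _)).to_subtype
    exact IntermediateField.finiteDimensional_adjoin fun z _ =>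
      Algebra.IsIntegral.isIntegral z
  let L : IntermediateField (RatFunc k) (Om k) :=
    IntermediateField.normalClosure (RatFunc k) L1 (Om k)
  have hLF : L1 ≤ L := IntermediateField.le_normalClosure L1
  have hPL : ∀ i j, co (P i) j ∈ (L : Set (Om k)) := fun i j =>
    hLF (IntermediateField.subset_adjoin (RatFunc k) S (Or.inl ⟨(i, j), rfl⟩))
  have hQL : ∀ i j, co (Q i) j ∈ (L : Set (Om k)) := fun i j =>
    hLF (IntermediateField.subset_adjoin (RatFunc k) S (Or.inr ⟨(i, j), rfl⟩))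
  have : Normal (RatFunc k) L := normalClosure.normal (RatFunc k) L1 (Om k)
  have : FiniteDimensional (RatFunc k) L :=
    normalClosure.is_finiteDimensional (RatFunc k) L1 (Om k)
  obtain ⟨n, ⟨e⟩⟩ := Finite.exists_equiv_fin (L ≃ₐ[RatFunc k] L)
  let σ : Fin n → (Om k ≃ₐ[RatFunc k] Om k) := fun i => (e.symm i).liftNormal (Om k)
  have hσ : ∀ i (x : Om k) (hx : x ∈ L), σ i x = ((e.symm i ⟨x, hx⟩ : L) : Om k) :=
    fun i x hx => AlgEquiv.liftNormal_commutes (e.symm i) (Om k) ⟨x, hx⟩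
  -- the family is stable
  have hstab : ∀ g : Om k ≃ₐ[RatFunc k] Om k, ∃ ρ : Equiv.Perm (Fin n), ∀ i,
      ∀ x ∈ (L : Set (Om k)), σ (ρ i) x = g (σ i x) := by
    intro g
    refine ⟨(e.symm.trans (Equiv.mulLeft (AlgEquiv.restrictNormal g L))).trans e, fun i x hx => ?_⟩
    rw [hσ _ x hx, hσ _ x hx]
    have h2 : e.symm (((e.symm.trans (Equiv.mulLeft (AlgEquiv.restrictNormal g L))).trans e) i) =
        AlgEquiv.restrictNormal g L * e.symm i := by
      simp
    rw [h2, AlgEquiv.mul_apply]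
    exact AlgEquiv.restrictNormal_commutes g L _
  obtain ⟨v₀, hv₀⟩ := exists_place (tt_transc (k := k)) c₀
  obtain ⟨v₁, hv₁⟩ := exists_place (tt_transc (k := k)) c₁
  have k₀ := fun i : Fin n => h₀ _ (bridge_at v₀ (σ i) hv₀)
  have k₁ := fun i : Fin n => h₁ _ (bridge_at v₁ (σ i) hv₁)
  choose p₀ q₀ ha₀ hb₀ hp₀ hq₀ hC₀ using k₀
  choose p₁ q₁ ha₁ hb₁ hp₁ hq₁ hC₁ using k₁
  have hmem : ∀ i : I, ∑ τ : Fin n, (Finsupp.single (p₀ τ i, q₀ τ i) (1 : ℚ) -
      Finsupp.single (p₁ τ i, q₁ τ i) 1) ∈ D.ratEq := by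
    intro i
    apply Submodule.subset_span
    refine ⟨n, fun τ => (P i).map (σ τ), fun τ => (Q i).map (σ τ), c₀, c₁, v₀, v₁,
      fun τ => p₀ τ i, fun τ => q₀ τ i, fun τ => p₁ τ i, fun τ => q₁ τ i,
      fun τ => ⟨onX_map _ (hP i), onX_map _ (hQ i)⟩,
      fun g => ?_, hv₀, hv₁,
      fun τ => ⟨ha₀ τ i, hb₀ τ i, isValue_map v₀ (σ τ) (hp₀ τ i), isValue_map v₀ (σ τ) (hq₀ τ i)⟩,
      fun τ => ⟨ha₁ τ i, hb₁ τ i, isValue_map v₁ (σ τ) (hp₁ τ i), isValue_map v₁ (σ τ) (hq₁ τ i)⟩,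
      rfl⟩
    obtain ⟨ρ, hρ⟩ := hstab g
    exact ⟨ρ, fun τ => ⟨map_congr (hPL i) (hρ τ), map_congr (hQL i) (hρ τ)⟩⟩
  have hsum : ∀ i : I, ∑ τ : Fin n, D.cv (p₀ τ i) (q₀ τ i) =
      ∑ τ : Fin n, D.cv (p₁ τ i) (q₁ τ i) := by
    intro i
    have h2 := (Submodule.Quotient.mk_eq_zero D.ratEq).2 (hmem i)
    have h3 := map_sum D.ratEq.mkQ (fun τ : Fin n =>
      (Finsupp.single (p₀ τ i, q₀ τ i) (1 : ℚ) -
      Finsupp.single (p₁ τ i, q₁ τ i) 1)) Finset.univ
    rw [Submodule.mkQ_apply, h2] at h3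
    rw [← sub_eq_zero, ← Finset.sum_sub_distrib]
    refine Eq.trans (Finset.sum_congr rfl fun τ _ => ?_) h3.symm
    rw [map_sub]
    rfl
  have hn : (n : ℚ) ≠ 0 := by
    have : 0 < n := by
      rw [← Fintype.card_fin n, ← Fintype.card_congr e]
      exact Fintype.card_pos
    exact_mod_cast this.ne'
  have hfin : (n : ℚ) • C₀ = (n : ℚ) • C₁ := by
    have e₀ : ∑ τ : Fin n, ∑ i, c i • D.cv (p₀ τ i) (q₀ τ i) = (n : ℚ) • C₀ := by
      rw [Finset.sum_congr rfl fun τ _ => hC₀ τ, Finset.sum_const, Finset.card_univ,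
        Fintype.card_fin, Nat.cast_smul_eq_nsmul]
    have e₁ : ∑ τ : Fin n, ∑ i, c i • D.cv (p₁ τ i) (q₁ τ i) = (n : ℚ) • C₁ := by
      rw [Finset.sum_congr rfl fun τ _ => hC₁ τ, Finset.sum_const, Finset.card_univ,
        Fintype.card_fin, Nat.cast_smul_eq_nsmul]
    have hc : ∀ p q : Fin n → I → Crd N r k, ∑ τ : Fin n, ∑ i, c i • D.cv (p τ i) (q τ i) =
        ∑ i, c i • ∑ τ : Fin n, D.cv (p τ i) (q τ i) := by
      intro p q
      rw [Finset.sum_comm]
      exact Finset.sum_congr rfl fun i _ => Finset.smul_sum.symm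
    rw [← e₀, ← e₁, hc, hc]
    exact Finset.sum_congr rfl fun i _ => by rw [hsum i]
  have h2 := congrArg (fun z => (n : ℚ)⁻¹ • z) hfin
  simpa [smul_smul, inv_mul_cancel₀ hn] using h2

/-- the indices of the terms of `CL` -/
private abbrev SI (r : ℕ) : Type := (Fin r → ℤˣ) × (Fin r → ℤˣ) × Bool

private def wgt (N : ℕ) (a : SI r) : ℚ :=
  if a.2.2 then (-1 : ℚ) ^ N * (sn a.1 * sn a.2.1) else sn a.1 * sn a.2.1

private def fst' {K : Type*} [Field K] (p q : Crd N r K) (a : SI r) : Crd N r K :=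
  if a.2.2 then sg a.1 q else sg a.1 p

private def snd' {K : Type*} [Field K] (p q : Crd N r K) (a : SI r) : Crd N r K :=
  if a.2.2 then sg a.2.1 p else sg a.2.1 q

omit [IsAlgClosed k] [CharZero k] in
private theorem CL_eq_sum (p q : Crd N r k) :
    ∑ a : SI r, wgt N a • D.cv (fst' p q a) (snd' p q a) = D.CL p q := by
  rw [Fintype.sum_prod_type]
  simp only [Fintype.sum_prod_type, Fintype.sum_bool, wgt, fst', snd', if_true,
    Bool.false_eq_true, if_false, Finset.sum_add_distrib]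
  unfold Dat.CL Dat.T
  rw [add_comm]
  congr 1
  simp only [Finset.smul_sum, smul_smul]

omit [IsAlgClosed k] [CharZero k] in
private theorem onX_fst {K : Type*} [Field K] [Algebra k K] {p q : Crd N r K} (hp : D.OnX p)
    (hq : D.OnX q) (a : SI r) : D.OnX (fst' p q a) := by
  unfold fst'
  split_ifs
  · exact onX_sg _ hq
  · exact onX_sg _ hp

omit [IsAlgClosed k] [CharZero k] in
private theorem onX_snd {K : Type*} [Field K] [Algebra k K] {p q : Crd N r K} (hp : D.OnX p)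
    (hq : D.OnX q) (a : SI r) : D.OnX (snd' p q a) := by
  unfold snd'
  split_ifs
  · exact onX_sg _ hp
  · exact onX_sg _ hq

omit [IsAlgClosed k] [CharZero k] in
private theorem val_fst {v : Place k (Om k)} {P Q : Crd N r (Om k)} {p q : Crd N r k}
    (hp : D.IsValue v P p) (hq : D.IsValue v Q q) (a : SI r) :
    D.IsValue v (fst' P Q a) (fst' p q a) := by
  unfold fst'
  split_ifs
  · exact isValue_sg _ hq
  · exact isValue_sg _ hp

omit [IsAlgClosed k] [CharZero k] in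
private theorem val_snd {v : Place k (Om k)} {P Q : Crd N r (Om k)} {p q : Crd N r k}
    (hp : D.IsValue v P p) (hq : D.IsValue v Q q) (a : SI r) :
    D.IsValue v (snd' P Q a) (snd' p q a) := by
  unfold snd'
  split_ifs
  · exact isValue_sg _ hp
  · exact isValue_sg _ hq

omit [IsAlgClosed k] [CharZero k] in
private theorem aux_CL {I : Type} [Fintype I] {v : Place k (Om k)} {P Q : I → Crd N r (Om k)}
    {C₀ : D.V} (h : ∃ C : I → D.V, (∀ i, D.VCL v (P i) (Q i) (C i)) ∧ ∑ i, C i = C₀) :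
    ∃ p q : I × SI r → Crd N r k, (∀ i, D.OnX (p i)) ∧ (∀ i, D.OnX (q i)) ∧
      (∀ i, D.IsValue v (fst' (P i.1) (Q i.1) i.2) (p i)) ∧
      (∀ i, D.IsValue v (snd' (P i.1) (Q i.1) i.2) (q i)) ∧
      ∑ i : I × SI r, wgt N i.2 • D.cv (p i) (q i) = C₀ := by
  obtain ⟨C, hC, hsum⟩ := h
  choose p q hp hq hvp hvq hCL using hC
  refine ⟨fun i => fst' (p i.1) (q i.1) i.2, fun i => snd' (p i.1) (q i.1) i.2,
    fun i => onX_fst (hp i.1) (hq i.1) i.2, fun i => onX_snd (hp i.1) (hq i.1) i.2,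
    fun i => val_fst (hvp i.1) (hvq i.1) i.2, fun i => val_snd (hvp i.1) (hvq i.1) i.2, ?_⟩
  rw [Fintype.sum_prod_type, ← hsum]
  exact Finset.sum_congr rfl fun i _ => (CL_eq_sum (p i) (q i)).trans (hCL i)

theorem bridgeCL {I : Type} [Fintype I] (P Q : I → Crd N r (Om k))
    (hP : ∀ i, D.OnX (P i)) (hQ : ∀ i, D.OnX (Q i)) (c₀ c₁ : k) (C₀ C₁ : D.V)
    (h₀ : ∀ v : Place k (Om k), v.At (tt k) c₀ →
      ∃ C : I → D.V, (∀ i, D.VCL v (P i) (Q i) (C i)) ∧ ∑ i, C i = C₀)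
    (h₁ : ∀ v : Place k (Om k), v.At (tt k) c₁ →
      ∃ C : I → D.V, (∀ i, D.VCL v (P i) (Q i) (C i)) ∧ ∑ i, C i = C₁) :
    C₀ = C₁ :=
  bridge (fun i : I × SI r => wgt N i.2) (fun i => fst' (P i.1) (Q i.1) i.2)
    (fun i => snd' (P i.1) (Q i.1) i.2) (fun i => onX_fst (hP i.1) (hQ i.1) i.2)
    (fun i => onX_snd (hP i.1) (hQ i.1) i.2) c₀ c₁ C₀ C₁ (fun v hv => aux_CL (h₀ v hv))
    (fun v hv => aux_CL (h₁ v hv))

end Pool.Agent.VFP
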