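import Pool.Agent.VFP.Aff

/-!
# Points of the Jacobian fibration over Om
-/

set_option autoImplicit false

noncomputable section

namespace Pool.Agent.VFP

open Pool.Agent.ZCyc Polynomial

universe u

variable {k : Type u} [Field k] {N r : ℕ}

private lemma point_sqrt {f : Fin N → Om k} {c : Om k} (hc : ∏ i, f i = c ^ 2) (hN : 0 < N) :
    ∃ t : Fin N → Om k, (∀ i, t i ^ 2 = f i) ∧ ∏ i, t i = c := by
  classical
  choose t ht using fun i => IsAlgClosed.exists_pow_nat_eq (f i) (n := 2) (by norm_num)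
  have h1 : (∏ i, t i) ^ 2 = c ^ 2 := by
    rw [← hc, ← Finset.prod_pow]
    exact Finset.prod_congr rfl fun i _ => ht i
  rcases sq_eq_sq_iff_eq_or_eq_neg.1 h1 with h2 | h2
  · exact ⟨t, ht, h2⟩
  · refine ⟨fun i => (if i = ⟨0, hN⟩ then -1 else 1) * t i, ?_, ?_⟩
    · intro i
      rw [mul_pow, ht]
      split_ifs <;> ring
    · rw [Finset.prod_mul_distrib, Finset.prod_ite_eq', if_pos (Finset.mem_univ _), h2]
      ring

variable [IsAlgClosed k] [CharZero k] {D : Dat k N r}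

omit [CharZero k] in
private lemma point_Sy (c : k[X]) {E₁ E₂ : k[X]} {s t τ : Om k} (h1 : s + t = aeval τ E₁)
    (h2 : s * t = aeval τ E₂) : aeval τ (VK3.Sy c E₁ E₂) = aeval s c * aeval t c := by
  rw [VK3.Sy_map, ← h1, ← h2, VK3.aeval_mul_aeval]

/-- The point of the Jacobian fibration over `Om k` given by the polynomials of `krull` at `τ`:
`s + t = E₁(τ)`, `s t = E₂(τ)`, `Xi i = X'_i(τ)`, `Th i ² = R'_i(τ)` with `∏ Th i = Y(τ)`,
`Z_i = (G_i + T_i) / 2`, `T_i ² = Dq_i(τ)` with `∏ T_i = ρ g(τ)`. -/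
theorem exists_point {E₁ E₂ Y q g : k[X]} {X' R' : Fin N → k[X]} (hR : ∏ i, R' i = Y ^ 2)
    (hD : ∏ i, D.Dq i E₁ E₂ (X' i) (R' i) = q * g ^ 2) {τ ρ : Om k} (hρ : ρ ^ 2 = aeval τ q)
    (hN : 0 < N) :
    ∃ (s t : Om k) (Z Th : Fin N → Om k), s + t = aeval τ E₁ ∧ s * t = aeval τ E₂ ∧
      (∀ i, Th i ^ 2 = aeval τ (R' i)) ∧ ∏ i, Th i = aeval τ Y ∧
      D.Wd s t Z (fun i => aeval τ (X' i)) Th ∧
      ((∀ i, D.dsc i s * D.dsc i t ≠ 0) → (∀ i, Z i ≠ 0) ∧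
        ∏ i, (Z i - D.dsc i s * D.dsc i t / Z i) = ρ * aeval τ g) := by
  -- the points of the line
  obtain ⟨w, hw⟩ := IsAlgClosed.exists_pow_nat_eq (aeval τ E₁ ^ 2 - 4 * aeval τ E₂) (n := 2)
    (by norm_num)
  obtain ⟨s, hs⟩ : ∃ s, s = (aeval τ E₁ + w) / 2 := ⟨_, rfl⟩
  obtain ⟨t, ht⟩ : ∃ t, t = (aeval τ E₁ - w) / 2 := ⟨_, rfl⟩
  have h1 : s + t = aeval τ E₁ := by
    rw [hs, ht]
    ring
  have h2 : s * t = aeval τ E₂ := by
    rw [hs, ht]
    linear_combination -(1 / 4 : Om k) * hw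
  -- the square roots
  obtain ⟨Th, hTh, hTh'⟩ := point_sqrt (f := fun i => aeval τ (R' i)) (c := aeval τ Y)
    (by rw [← map_prod, hR, map_pow]) hN
  obtain ⟨T, hT, hT'⟩ := point_sqrt (f := fun i => aeval τ (D.Dq i E₁ E₂ (X' i) (R' i)))
    (c := ρ * aeval τ g) (by rw [← map_prod, hD, map_mul, map_pow, mul_pow, hρ]) hN
  obtain ⟨G, hG⟩ : ∃ G : Fin N → Om k, ∀ i, G i = 4 * aeval τ (X' i) ^ 3 -
      12 * aeval s (D.al i) * aeval t (D.al i) * aeval τ (X' i) +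
      54 * aeval s (D.be i) * aeval t (D.be i) - Th i ^ 2 := ⟨_, fun _ => rfl⟩
  have hdsc : ∀ i, aeval τ (VK3.Sy (4 * D.al i ^ 3 + 27 * D.be i ^ 2) E₁ E₂) =
      D.dsc i s * D.dsc i t := by
    intro i
    rw [point_Sy _ h1 h2]
    unfold Dat.dsc
    simp only [map_add, map_mul, map_pow, map_ofNat]
  have hGT : ∀ i, T i ^ 2 = G i ^ 2 - 4 * (D.dsc i s * D.dsc i t) := by
    intro i
    rw [hT i, hG i, ← hdsc i, hTh i]
    unfold Dat.Dq
    simp only [map_add, map_sub, map_mul, map_pow, map_ofNat]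
    rw [point_Sy (D.al i) h1 h2, point_Sy (D.be i) h1 h2]
    ring
  have hZG : ∀ i, (G i + T i) / 2 * (G i - (G i + T i) / 2) = D.dsc i s * D.dsc i t := by
    intro i
    linear_combination (-(1 / 4) : Om k) * hGT i
  refine ⟨s, t, fun i => (G i + T i) / 2, Th, h1, h2, hTh, hTh', ?_, ?_⟩
  · intro i
    unfold VK3.Wd
    have h3 := hZG i
    have h4 := hG i
    unfold Dat.dsc at h3
    simp only
    rw [← h4]
    linear_combination -h3
  · intro hne
    have hZ : ∀ i, (G i + T i) / 2 ≠ 0 := by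
      intro i h0
      apply hne i
      rw [← hZG i, h0, zero_mul]
    refine ⟨hZ, ?_⟩
    rw [← hT']
    refine Finset.prod_congr rfl fun i _ => ?_
    rw [← hZG i, mul_div_cancel_left₀ _ (hZ i)]
    ring

end Pool.Agent.VFP
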