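import Pool.Agent.VFP.PVZero
import Pool.Agent.VFP.Point
import Pool.Agent.VFP.Conic

/-!
# Rational curves along which s and t are constant
-/

set_option autoImplicit false

noncomputable section

namespace Pool.Agent.VFP

open Pool.Agent.ZCyc Polynomial

universe u

variable {k : Type u} [Field k] {N r : ℕ}

variable [IsAlgClosed k] [CharZero k] {D : Dat k N r}

omit [IsAlgClosed k] [CharZero k] in
/-- exchange of the two factors -/
private lemma caseII_wd_swap {As Bs At Bt Z Xi Th : k} (h : VK3.Wd As Bs At Bt Z Xi Th) :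
    VK3.Wd At Bt As Bs Z Xi Th := by
  unfold VK3.Wd at h ⊢
  linear_combination h

omit [CharZero k] in
/-- the value of `Z'` is `Z` or its image -/
private lemma caseII_value {v : Place k (Om k)} {As Bs At Bt Z Xi Th : k}
    {As' Bs' At' Bt' Z' Xi' Th' : Om k} (h1 : v.At As' As) (h2 : v.At Bs' Bs) (h3 : v.At At' At)
    (h4 : v.At Bt' Bt) (h5 : v.At Xi' Xi) (h6 : v.At (Th' ^ 2) (Th ^ 2)) (hZ : Z ≠ 0)
    (hW : VK3.Wd As Bs At Bt Z Xi Th) (hW' : VK3.Wd As' Bs' At' Bt' Z' Xi' Th') :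
    v.At Z' Z ∨ v.At Z' ((4 * As ^ 3 + 27 * Bs ^ 2) * (4 * At ^ 3 + 27 * Bt ^ 2) / Z) := by
  unfold VK3.Wd at hW hW'
  have hG : v.At (4 * Xi' ^ 3 - 12 * As' * At' * Xi' + 54 * Bs' * Bt' - Th' ^ 2)
      (4 * Xi ^ 3 - 12 * As * At * Xi + 54 * Bs * Bt - Th ^ 2) :=
    ((((at_num 4).mul (h5.pow 3)).sub ((((at_num 12).mul h1).mul h3).mul h5)).add
      (((at_num 54).mul h2).mul h4)).sub h6
  have hH : v.At ((4 * As' ^ 3 + 27 * Bs' ^ 2) * (4 * At' ^ 3 + 27 * Bt' ^ 2))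
      ((4 * As ^ 3 + 27 * Bs ^ 2) * (4 * At ^ 3 + 27 * Bt ^ 2)) :=
    (((at_num 4).mul (h1.pow 3)).add ((at_num 27).mul (h2.pow 2))).mul
      (((at_num 4).mul (h3.pow 3)).add ((at_num 27).mul (h4.pow 2)))
  have hmem : Z' ∈ v.ring := mem_of_quad hG.mem hH.mem hW'
  obtain ⟨z, hz⟩ := DCI57.exists_at v hmem
  have h7 : z ^ 2 - (4 * Xi ^ 3 - 12 * As * At * Xi + 54 * Bs * Bt - Th ^ 2) * z +
      (4 * As ^ 3 + 27 * Bs ^ 2) * (4 * At ^ 3 + 27 * Bt ^ 2) = 0 := by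
    have h8 := ((hz.pow 2).sub (hG.mul hz)).add hH
    rw [hW'] at h8
    exact h8.unique at_zero
  have h8 : (z - Z) * (z * Z - (4 * As ^ 3 + 27 * Bs ^ 2) * (4 * At ^ 3 + 27 * Bt ^ 2)) = 0 := by
    linear_combination Z * h7 - z * hW
  rcases mul_eq_zero.1 h8 with h9 | h9
  · left
    rwa [← sub_eq_zero.1 h9]
  · right
    have h10 : (4 * As ^ 3 + 27 * Bs ^ 2) * (4 * At ^ 3 + 27 * Bt ^ 2) / Z = z := by
      rw [div_eq_iff hZ]
      exact (sub_eq_zero.1 h9).symm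
    rwa [h10]

omit [IsAlgClosed k] [CharZero k] in
private lemma caseII_Dst {v : Place k (Om k)} {As Bs At Z Xi : k} {As' Bs' At' Z' Xi' : Om k}
    (h1 : v.At As' As) (h2 : v.At Bs' Bs) (h3 : v.At At' At) (h5 : v.At Xi' Xi) (h6 : v.At Z' Z)
    (h7 : VK3.Dst As Bs At Z Xi ≠ 0) : VK3.Dst As' Bs' At' Z' Xi' ≠ 0 := by
  intro h0
  apply h7
  have hD : v.At (4 * As' ^ 3 + 27 * Bs' ^ 2) (4 * As ^ 3 + 27 * Bs ^ 2) :=
    ((at_num 4).mul (h1.pow 3)).add ((at_num 27).mul (h2.pow 2))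
  have h8 : v.At (VK3.Dst As' Bs' At' Z' Xi') (VK3.Dst As Bs At Z Xi) := by
    unfold VK3.Dst
    exact ((((h6.mul hD).mul ((h5.pow 3).sub ((((at_num 3).mul h1).mul h3).mul h5)))).sub
      ((h6.pow 2).mul (h1.pow 3))).sub ((hD.pow 2).mul (h3.pow 3))
  rw [h0] at h8
  exact h8.unique at_zero

/-- the case that `s` and `t` are constant: go to `τ = ∞` (`conic_inf`), where some `Xi i` or
`Th i` has a pole (`aeval_not_mem`) -/
theorem psi_caseII (h : D.Valid) {s t : k} {Z Xi Th : Fin N → k} (hs : ∀ i, D.dsc i s ≠ 0)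
    (ht : ∀ i, D.dsc i t ≠ 0) (hZ : ∀ i, Z i ≠ 0) (hW : D.Wd s t Z Xi Th)
    (hD : ∀ i, D.Ds i s t (Z i) (Xi i) ≠ 0) (hD' : ∀ i, D.Ds i t s (Z i) (Xi i) ≠ 0)
    (hTh : ∏ i, Th i ≠ 0) (hT : ∏ i, (Z i - D.dsc i s * D.dsc i t / Z i) ≠ 0)
    {E₁ E₂ Y q g : k[X]} {X' R' : Fin N → k[X]} (hq : q.natDegree ≤ 2)
    (h3 : Y.eval 0 = ∏ i, Th i) (h4 : q.eval 0 = 1)
    (h5 : g.eval 0 = ∏ i, (Z i - D.dsc i s * D.dsc i t / Z i)) (h6 : ∀ i, (X' i).eval 0 = Xi i)
    (h7 : ∀ i, (R' i).eval 0 = Th i ^ 2) (h8 : ∏ i, R' i = Y ^ 2)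
    (h9 : ∏ i, D.Dq i E₁ E₂ (X' i) (R' i) = q * g ^ 2) (hE : E₁ = C (s + t) ∧ E₂ = C (s * t))
    (hne : ¬ ((∀ i, X' i = C (Xi i)) ∧ ∀ i, R' i = C (Th i ^ 2))) : D.psi s t Z Xi Th = 0 := by
  have hN : 0 < N := by
    rcases Nat.eq_zero_or_pos N with h0 | h0
    · subst h0
      have := h.sum
      simp at this
    · exact h0
  obtain ⟨τ, ρ, c₀, c₁, hρ, hc₀, hc₁⟩ := conic_inf q hq h4
  obtain ⟨s', t', Z', Th', e1, e2, hTh', hTh1, hW', hne'⟩ := exists_point (D := D) h8 h9 hρ hN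
  rw [hE.1, aeval_C] at e1
  rw [hE.2, aeval_C] at e2
  -- `s'`, `t'` are the constants `s`, `t`
  obtain ⟨s₀, t₀, hs', ht', hst⟩ : ∃ s₀ t₀ : k, s' = algebraMap k (Om k) s₀ ∧
      t' = algebraMap k (Om k) t₀ ∧ ((s₀ = s ∧ t₀ = t) ∨ (s₀ = t ∧ t₀ = s)) := by
    rw [map_add] at e1
    rw [map_mul] at e2
    have h10 : (s' - algebraMap k (Om k) s) * (s' - algebraMap k (Om k) t) = 0 := by
      linear_combination s' * e1 - e2
    rcases mul_eq_zero.1 h10 with h11 | h11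
    · refine ⟨s, t, sub_eq_zero.1 h11, ?_, Or.inl ⟨rfl, rfl⟩⟩
      rw [sub_eq_zero.1 h11] at e1
      exact add_left_cancel e1
    · refine ⟨t, s, sub_eq_zero.1 h11, ?_, Or.inr ⟨rfl, rfl⟩⟩
      rw [sub_eq_zero.1 h11, add_comm (algebraMap k (Om k) s)] at e1
      exact add_left_cancel e1
  have hds : ∀ i, D.dsc i s₀ ≠ 0 := by
    intro i
    rcases hst with ⟨h10, -⟩ | ⟨h10, -⟩
    · rw [h10]
      exact hs i
    · rw [h10]
      exact ht i
  have hdt : ∀ i, D.dsc i t₀ ≠ 0 := by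
    intro i
    rcases hst with ⟨-, h10⟩ | ⟨-, h10⟩
    · rw [h10]
      exact ht i
    · rw [h10]
      exact hs i
  have hds' : ∀ i, D.dsc i s' ≠ 0 := by
    intro i
    rw [hs', dsc_const]
    exact (_root_.map_ne_zero _).2 (hds i)
  have hdt' : ∀ i, D.dsc i t' ≠ 0 := by
    intro i
    rw [ht', dsc_const]
    exact (_root_.map_ne_zero _).2 (hdt i)
  obtain ⟨hZ', hprod⟩ := hne' fun i => mul_ne_zero (hds' i) (hdt' i)
  have hX : ∀ v : Place k (Om k), v.At τ 0 → ∀ i, v.At (aeval τ (X' i)) (Xi i) := by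
    intro v hv i
    rw [← h6 i]
    exact hv.aeval (X' i)
  have hR : ∀ v : Place k (Om k), v.At τ 0 → ∀ i, v.At (Th' i ^ 2) (Th i ^ 2) := by
    intro v hv i
    rw [hTh' i, ← h7 i]
    exact hv.aeval (R' i)
  have hDs' : ∀ i, D.Ds i s' t' (Z' i) (aeval τ (X' i)) ≠ 0 := by
    intro i
    obtain ⟨v, hv⟩ := exists_place (F := Om k) tt_transc c₀
    have hv0 := (hc₀ v hv).1
    have a1 : v.At (aeval s' (D.al i)) (aeval s₀ (D.al i)) := by
      rw [hs']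
      exact at_evalc (Place.at_const s₀) _
    have a2 : v.At (aeval s' (D.be i)) (aeval s₀ (D.be i)) := by
      rw [hs']
      exact at_evalc (Place.at_const s₀) _
    have a3 : v.At (aeval t' (D.al i)) (aeval t₀ (D.al i)) := by
      rw [ht']
      exact at_evalc (Place.at_const t₀) _
    have a4 : v.At (aeval t' (D.be i)) (aeval t₀ (D.be i)) := by
      rw [ht']
      exact at_evalc (Place.at_const t₀) _
    have hW₀ : VK3.Wd (aeval s₀ (D.al i)) (aeval s₀ (D.be i)) (aeval t₀ (D.al i))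
        (aeval t₀ (D.be i)) (Z i) (Xi i) (Th i) := by
      rcases hst with ⟨h10, h11⟩ | ⟨h10, h11⟩
      · rw [h10, h11]
        exact hW i
      · rw [h10, h11]
        exact caseII_wd_swap (hW i)
    have hk := (VK3.Wd.kappa hW₀ (hZ i) (hds i) (hdt i)).2.2
    have hD₀ : VK3.Dst (aeval s₀ (D.al i)) (aeval s₀ (D.be i)) (aeval t₀ (D.al i)) (Z i)
        (Xi i) ≠ 0 := by
      rcases hst with ⟨h10, h11⟩ | ⟨h10, h11⟩
      · rw [h10, h11]
        exact hD i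
      · rw [h10, h11]
        exact hD' i
    have hD₁ : VK3.Dst (aeval t₀ (D.al i)) (aeval t₀ (D.be i)) (aeval s₀ (D.al i)) (Z i)
        (Xi i) ≠ 0 := by
      rcases hst with ⟨h10, h11⟩ | ⟨h10, h11⟩
      · rw [h10, h11]
        exact hD' i
      · rw [h10, h11]
        exact hD i
    rcases caseII_value a1 a2 a3 a4 (hX v hv0 i) (hR v hv0 i) (hZ i) hW₀ (hW' i) with h12 | h12
    · exact caseII_Dst a1 a2 a3 (hX v hv0 i) h12 hD₀
    · exact caseII_Dst a1 a2 a3 (hX v hv0 i) h12 fun h13 => hD₁ (hk.1 h13)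
  have key := transfer h (I := Unit) (fun _ => s') (fun _ => t') (fun _ => Z')
    (fun _ i => aeval τ (X' i)) (fun _ => Th') (fun _ => hW') (fun _ => hds') (fun _ => hZ')
    (fun _ => hDs') c₀ c₁ (D.psi s t Z Xi Th) 0 ?_ ?_
  · exact key
  · intro v hv
    obtain ⟨hv0, hv1⟩ := hc₀ v hv
    refine ⟨fun _ => D.psi s t Z Xi Th, fun _ => ?_, by simp⟩
    refine pv_zero h hs ht hZ hW hTh hT ?_ ?_ (hX v hv0) (hR v hv0) ?_ hW' hZ' ?_
    · rw [e1]
      exact Place.at_const _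
    · rw [e2]
      exact Place.at_const _
    · rw [hTh1, ← h3]
      exact hv0.aeval Y
    · rw [hprod, ← h5]
      have h10 := hv1.mul (hv0.aeval g)
      rwa [one_mul] at h10
  · intro v hv
    have hτ := hc₁ v hv
    refine ⟨fun _ => 0, fun _ => ?_, by simp⟩
    have h10 : ∃ i, aeval τ (X' i) ∉ v.ring ∨ Th' i ∉ v.ring := by
      by_contra hcon
      push Not at hcon
      apply hne
      constructor
      · intro i
        by_contra h11
        rw [← h6 i] at h11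
        exact aeval_not_mem hτ h11 (hcon i).1
      · intro i
        by_contra h11
        rw [← h7 i] at h11
        apply aeval_not_mem hτ h11
        rw [← hTh' i]
        exact pow_mem (hcon i).2 2
    obtain ⟨i, hi⟩ := h10
    refine PV.inf i s₀ t₀ ?_ ?_ ?_
    · rw [hs']
      exact Place.at_const _
    · rw [ht']
      exact Place.at_const _
    · rcases hi with hi | hi
      · exact Or.inr (Or.inr (Or.inr (Or.inr (Or.inl hi))))
      · exact Or.inr (Or.inr (Or.inr (Or.inr (Or.inr hi))))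

end Pool.Agent.VFP
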