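import Pool.Agent.VFP.Aff
import Pool.Agent.ZIso.Krull

/-!
# Rational curves through a point
-/

set_option autoImplicit false

noncomputable section

namespace Pool.Agent.VFP

open Pool.Agent.ZCyc Polynomial
open Pool.Agent.VK3 (Sy Sy_map Sy_natDegree)

universe u

variable {k : Type u} [Field k] {N r : ℕ}

/-- The polynomial with constant coefficient `c` and the other coefficients `v`. -/
private def kp {R : Type*} [CommRing R] (c : R) (n : ℕ) (v : Fin n → R) : R[X] :=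
  C c + ∑ i : Fin n, C (v i) * X ^ (i.val + 1)

private theorem kp_natDegree {R : Type*} [CommRing R] (c : R) (n : ℕ) (v : Fin n → R) :
    (kp c n v).natDegree ≤ n := by
  unfold kp
  refine natDegree_add_le_of_degree_le (by simp) ?_
  refine natDegree_sum_le_of_forall_le _ _ fun i _ => ?_
  exact (natDegree_C_mul_X_pow_le _ _).trans i.2

private theorem kp_eval {R : Type*} [CommRing R] (c : R) (n : ℕ) (v : Fin n → R) :
    (kp c n v).eval 0 = c := by
  unfold kp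
  rw [eval_add, eval_C, eval_finsetSum]
  simp

private theorem kp_map {R S : Type*} [CommRing R] [CommRing S] (f : R →+* S) (c : R) (n : ℕ)
    (v : Fin n → R) : (kp c n v).map f = kp (f c) n fun i => f (v i) := by
  unfold kp
  rw [Polynomial.map_add, Polynomial.map_sum, map_C]
  simp

private theorem kp_zero {R : Type*} [CommRing R] (c : R) (n : ℕ) :
    kp c n (fun _ => 0) = C c := by
  unfold kp
  simp

private theorem kp_const {R : Type*} [CommRing R] {c c' : R} {n : ℕ} {v : Fin n → R}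
    (h : kp c n v = C c') : v = 0 := by
  funext i
  have h1 := congrArg (fun p => p.coeff (i.val + 1)) h
  simp only [kp, coeff_add, coeff_C_succ, finsetSum_coeff, coeff_C_mul, coeff_X_pow] at h1
  rw [zero_add, Finset.sum_eq_single i] at h1
  · simpa using h1
  · intro j _ hj
    rw [if_neg, mul_zero]
    intro h2
    exact hj (Fin.ext (by omega))
  · intro h2
    exact absurd (Finset.mem_univ _) h2

private theorem natDegree_mul_le' {p q : k[X]} {m n : ℕ} (hp : p.natDegree ≤ m)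
    (hq : q.natDegree ≤ n) : (p * q).natDegree ≤ m + n :=
  natDegree_mul_le.trans (Nat.add_le_add hp hq)

private theorem natDegree_pow_le' {p : k[X]} {m : ℕ} (hp : p.natDegree ≤ m) (n : ℕ) :
    (p ^ n).natDegree ≤ n * m :=
  natDegree_pow_le.trans (Nat.mul_le_mul_left _ hp)

private theorem natDegree_sub_le' {p q : k[X]} {m : ℕ} (hp : p.natDegree ≤ m)
    (hq : q.natDegree ≤ m) : (p - q).natDegree ≤ m :=
  (natDegree_sub_le_of_le hp hq).trans (max_self m).le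

private theorem natDegree_add_le' {p q : k[X]} {m : ℕ} (hp : p.natDegree ≤ m)
    (hq : q.natDegree ≤ m) : (p + q).natDegree ≤ m :=
  (natDegree_add_le_of_le hp hq).trans (max_self m).le

private theorem natDegree_prod_le' {ι : Type*} (s : Finset ι) (f : ι → k[X]) (n : ι → ℕ)
    (h : ∀ i ∈ s, (f i).natDegree ≤ n i) : (∏ i ∈ s, f i).natDegree ≤ ∑ i ∈ s, n i :=
  (natDegree_prod_le s f).trans (Finset.sum_le_sum h)

variable [IsAlgClosed k] {D : Dat k N r}

private theorem kr_Dq_map (i : Fin N) {R S : Type*} [CommRing R] [Algebra k R] [CommRing S]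
    [Algebra k S] (f : R →ₐ[k] S) (e₁ e₂ X' R' : R) :
    f (D.Dq i e₁ e₂ X' R') = D.Dq i (f e₁) (f e₂) (f X') (f R') := by
  unfold Dat.Dq
  simp only [map_sub, map_pow, map_add, map_mul, Sy_map, map_ofNat]

private theorem kr_Dq_natDegree (h : D.Valid) (i : Fin N) {E₁ E₂ X' R' : k[X]}
    (h1 : E₁.natDegree ≤ 1) (h2 : E₂.natDegree ≤ 1) (h3 : X'.natDegree ≤ D.deg i)
    (h4 : R'.natDegree ≤ 3 * D.deg i) : (D.Dq i E₁ E₂ X' R').natDegree ≤ 6 * D.deg i := by
  set d := D.deg i with hd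
  have c4 : (4 : k[X]).natDegree ≤ 0 := (natDegree_ofNat 4).le
  have c12 : (12 : k[X]).natDegree ≤ 0 := (natDegree_ofNat 12).le
  have c27 : (27 : k[X]).natDegree ≤ 0 := (natDegree_ofNat 27).le
  have c54 : (54 : k[X]).natDegree ≤ 0 := (natDegree_ofNat 54).le
  have ha := natDegree_al h i
  have hb := natDegree_be h i
  have hdd : (4 * D.al i ^ 3 + 27 * D.be i ^ 2).natDegree ≤ 6 * d := by
    refine natDegree_add_le' ?_ ?_
    · refine (natDegree_mul_le' c4 (natDegree_pow_le' ha 3)).trans (le_of_eq ?_)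
      ring
    · refine (natDegree_mul_le' c27 (natDegree_pow_le' hb 2)).trans (le_of_eq ?_)
      ring
  have sa := (Sy_natDegree (D.al i) h1 h2).trans ha
  have sb := (Sy_natDegree (D.be i) h1 h2).trans hb
  have sd := (Sy_natDegree (4 * D.al i ^ 3 + 27 * D.be i ^ 2) h1 h2).trans hdd
  have t1 : (4 * X' ^ 3).natDegree ≤ 3 * d := by
    refine (natDegree_mul_le' c4 (natDegree_pow_le' h3 3)).trans (le_of_eq ?_)
    ring
  have t2 : (12 * Sy (D.al i) E₁ E₂ * X').natDegree ≤ 3 * d := by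
    refine (natDegree_mul_le' (natDegree_mul_le' c12 sa) h3).trans (le_of_eq ?_)
    ring
  have t3 : (54 * Sy (D.be i) E₁ E₂).natDegree ≤ 3 * d := by
    refine (natDegree_mul_le' c54 sb).trans (le_of_eq ?_)
    ring
  have t5 := natDegree_sub_le' (natDegree_add_le' (natDegree_sub_le' t1 t2) t3) h4
  have t6 : ((4 * X' ^ 3 - 12 * Sy (D.al i) E₁ E₂ * X' + 54 * Sy (D.be i) E₁ E₂ - R') ^
      2).natDegree ≤ 6 * d := by
    refine (natDegree_pow_le' t5 2).trans (le_of_eq ?_)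
    ring
  have t7 : (4 * Sy (4 * D.al i ^ 3 + 27 * D.be i ^ 2) E₁ E₂).natDegree ≤ 6 * d := by
    refine (natDegree_mul_le' c4 sd).trans (le_of_eq ?_)
    ring
  unfold Dat.Dq
  exact natDegree_sub_le' t6 t7

/-- the indices of the unknowns -/
private abbrev KI (D : Dat k N r) : Type :=
  (Fin 1 ⊕ Fin 1) ⊕ (((i : Fin N) × Fin (D.deg i)) ⊕ ((i : Fin N) × Fin (3 * D.deg i))) ⊕
    (Fin 6 ⊕ (Fin 2 ⊕ Fin 11))

/-- the first equation -/
private def kF (D : Dat k N r) (Y₀ : k) (R₀ : Fin N → k) {S : Type*} [CommRing S] [Algebra k S]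
    (x : KI D → S) : S[X] :=
  ∏ i, kp (algebraMap k S (R₀ i)) (3 * D.deg i)
      (fun j => x (Sum.inr (Sum.inl (Sum.inr ⟨i, j⟩)))) -
    kp (algebraMap k S Y₀) 6 (fun j => x (Sum.inr (Sum.inr (Sum.inl j)))) ^ 2

/-- the second equation -/
private def kG (D : Dat k N r) (e₁ e₂ T₀ : k) (X₀ R₀ : Fin N → k) {S : Type*} [CommRing S]
    [Algebra k S] (x : KI D → S) : S[X] :=
  ∏ i, D.Dq i (kp (algebraMap k S e₁) 1 (fun j => x (Sum.inl (Sum.inl j))))
      (kp (algebraMap k S e₂) 1 (fun j => x (Sum.inl (Sum.inr j))))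
      (kp (algebraMap k S (X₀ i)) (D.deg i) (fun j => x (Sum.inr (Sum.inl (Sum.inl ⟨i, j⟩)))))
      (kp (algebraMap k S (R₀ i)) (3 * D.deg i)
        (fun j => x (Sum.inr (Sum.inl (Sum.inr ⟨i, j⟩))))) -
    kp (algebraMap k S 1) 2 (fun j => x (Sum.inr (Sum.inr (Sum.inr (Sum.inl j))))) *
      kp (algebraMap k S T₀) 11 (fun j => x (Sum.inr (Sum.inr (Sum.inr (Sum.inr j))))) ^ 2

private theorem kr_mapAlg {S S' : Type*} [CommRing S] [Algebra k S] [CommRing S'] [Algebra k S']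
    (f : S →ₐ[k] S') (c : k) (n : ℕ) (v : Fin n → S) :
    Polynomial.mapAlgHom f (kp (algebraMap k S c) n v) =
      kp (algebraMap k S' c) n fun j => f (v j) := by
  show (kp (algebraMap k S c) n v).map f.toRingHom = _
  rw [kp_map]
  congr 1
  exact f.commutes c

private theorem kF_map (Y₀ : k) (R₀ : Fin N → k) {S S' : Type*} [CommRing S] [Algebra k S]
    [CommRing S'] [Algebra k S'] (f : S →ₐ[k] S') (x : KI D → S) :
    Polynomial.mapAlgHom f (kF D Y₀ R₀ x) = kF D Y₀ R₀ fun i => f (x i) := by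
  unfold kF
  rw [map_sub, map_prod, map_pow, kr_mapAlg]
  simp only [kr_mapAlg]

private theorem kG_map (e₁ e₂ T₀ : k) (X₀ R₀ : Fin N → k) {S S' : Type*} [CommRing S]
    [Algebra k S] [CommRing S'] [Algebra k S'] (f : S →ₐ[k] S') (x : KI D → S) :
    Polynomial.mapAlgHom f (kG D e₁ e₂ T₀ X₀ R₀ x) =
      kG D e₁ e₂ T₀ X₀ R₀ fun i => f (x i) := by
  unfold kG
  rw [map_sub, map_prod, map_mul, map_pow, kr_mapAlg, kr_mapAlg]
  simp only [kr_Dq_map, kr_mapAlg]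

private theorem kF_natDegree (h : D.Valid) (Y₀ : k) (R₀ : Fin N → k) (x : KI D → k) :
    (kF D Y₀ R₀ x).natDegree ≤ 12 := by
  unfold kF
  refine natDegree_sub_le' ?_ ?_
  · refine (natDegree_prod_le' _ _ (fun i => 3 * D.deg i) fun i _ => kp_natDegree _ _ _).trans ?_
    rw [← Finset.mul_sum, h.sum]
    norm_num
  · exact (natDegree_pow_le' (kp_natDegree _ _ _) 2).trans (by norm_num)

private theorem kG_natDegree (h : D.Valid) (e₁ e₂ T₀ : k) (X₀ R₀ : Fin N → k) (x : KI D → k) :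
    (kG D e₁ e₂ T₀ X₀ R₀ x).natDegree ≤ 24 := by
  unfold kG
  refine natDegree_sub_le' ?_ ?_
  · refine (natDegree_prod_le' _ _ (fun i => 6 * D.deg i) fun i _ => ?_).trans ?_
    · exact kr_Dq_natDegree h i (kp_natDegree _ _ _) (kp_natDegree _ _ _) (kp_natDegree _ _ _)
        (kp_natDegree _ _ _)
    · rw [← Finset.mul_sum, h.sum]
      norm_num
  · exact (natDegree_mul_le' (kp_natDegree _ _ _)
      (natDegree_pow_le' (kp_natDegree _ _ _) 2)).trans (by norm_num)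

private theorem kF_eval {Y₀ : k} {R₀ : Fin N → k} (hY : Y₀ ^ 2 = ∏ i, R₀ i) (x : KI D → k) :
    (kF D Y₀ R₀ x).eval 0 = 0 := by
  unfold kF
  rw [eval_sub, eval_prod, eval_pow, kp_eval]
  simp only [kp_eval]
  rw [sub_eq_zero]
  exact hY.symm

private theorem kG_eval {e₁ e₂ T₀ : k} {X₀ R₀ : Fin N → k}
    (hT : T₀ ^ 2 = ∏ i, D.Dq i e₁ e₂ (X₀ i) (R₀ i)) (x : KI D → k) :
    (kG D e₁ e₂ T₀ X₀ R₀ x).eval 0 = 0 := by
  unfold kG
  rw [eval_sub, eval_prod, eval_mul, eval_pow, kp_eval, kp_eval]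
  have h1 : ∀ (i : Fin N) (E₁ E₂ X' R' : k[X]), (D.Dq i E₁ E₂ X' R').eval 0 =
      D.Dq i (E₁.eval 0) (E₂.eval 0) (X'.eval 0) (R'.eval 0) := by
    intro i E₁ E₂ X' R'
    have h2 := kr_Dq_map (D := D) i (Polynomial.aeval (0 : k)) E₁ E₂ X' R'
    simpa only [coe_aeval_eq_eval] using h2
  simp only [h1, kp_eval]
  rw [sub_eq_zero, map_one, one_mul]
  exact hT.symm

private theorem kF_zero {Y₀ : k} {R₀ : Fin N → k} (hY : Y₀ ^ 2 = ∏ i, R₀ i) :
    kF D Y₀ R₀ (fun _ => (0 : k)) = 0 := by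
  unfold kF
  simp only [kp_zero]
  rw [← map_prod, ← C_pow, ← C_sub]
  show C (∏ i, R₀ i - Y₀ ^ 2) = 0
  rw [hY, sub_self, C_0]

private theorem kG_zero {e₁ e₂ T₀ : k} {X₀ R₀ : Fin N → k}
    (hT : T₀ ^ 2 = ∏ i, D.Dq i e₁ e₂ (X₀ i) (R₀ i)) :
    kG D e₁ e₂ T₀ X₀ R₀ (fun _ => (0 : k)) = 0 := by
  unfold kG
  simp only [kp_zero]
  have h1 : ∀ (i : Fin N) (a b c d : k), D.Dq i (C a) (C b) (C c) (C d) =
      C (D.Dq i a b c d) := by
    intro i a b c d
    exact (kr_Dq_map (D := D) i (Algebra.ofId k k[X]) a b c d).symm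
  simp only [h1]
  rw [← map_prod, ← C_pow, ← C_mul, ← C_sub]
  show C (∏ i, D.Dq i e₁ e₂ (X₀ i) (R₀ i) - 1 * T₀ ^ 2) = 0
  rw [hT, one_mul, sub_self, C_0]

variable [CharZero k]

/-- 37 unknown coefficients (2 for `E₁`, `E₂`, 4 for the `X' i`, 12 for the `R' i`, 6 for `Y`,
2 for `q`, 11 for `g`) and 12 + 24 equations, `ZIso.exists_ne_zero`; compare VK3/Krull.
If all `E₁`, `E₂`, `X' i`, `R' i` are constant, then so are `Y`, `q` and `g`. -/
theorem krull (h : D.Valid) {e₁ e₂ Y₀ T₀ : k} {X₀ R₀ : Fin N → k} (hY : Y₀ ^ 2 = ∏ i, R₀ i)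
    (hY0 : Y₀ ≠ 0) (hT : T₀ ^ 2 = ∏ i, D.Dq i e₁ e₂ (X₀ i) (R₀ i)) (hT0 : T₀ ≠ 0) :
    ∃ (E₁ E₂ Y q g : k[X]) (X' R' : Fin N → k[X]), E₁.natDegree ≤ 1 ∧ E₂.natDegree ≤ 1 ∧
      q.natDegree ≤ 2 ∧ E₁.eval 0 = e₁ ∧ E₂.eval 0 = e₂ ∧ Y.eval 0 = Y₀ ∧ q.eval 0 = 1 ∧
      g.eval 0 = T₀ ∧ (∀ i, (X' i).eval 0 = X₀ i) ∧ (∀ i, (R' i).eval 0 = R₀ i) ∧
      ∏ i, R' i = Y ^ 2 ∧ ∏ i, D.Dq i E₁ E₂ (X' i) (R' i) = q * g ^ 2 ∧
      ¬ (E₁ = C e₁ ∧ E₂ = C e₂ ∧ (∀ i, X' i = C (X₀ i)) ∧ ∀ i, R' i = C (R₀ i)) := by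
  classical
  let R := MvPolynomial (KI D) k
  have key1 : ∀ x : KI D → k, (kF D Y₀ R₀ (fun i => (MvPolynomial.X i : R))).map
      (MvPolynomial.aeval x : R →ₐ[k] k).toRingHom = kF D Y₀ R₀ x := by
    intro x
    have h1 := kF_map (D := D) Y₀ R₀ (MvPolynomial.aeval x : R →ₐ[k] k)
      (fun i => (MvPolynomial.X i : R))
    simp only [MvPolynomial.aeval_X] at h1
    exact h1
  have key2 : ∀ x : KI D → k, (kG D e₁ e₂ T₀ X₀ R₀ (fun i => (MvPolynomial.X i : R))).map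
      (MvPolynomial.aeval x : R →ₐ[k] k).toRingHom = kG D e₁ e₂ T₀ X₀ R₀ x := by
    intro x
    have h1 := kG_map (D := D) e₁ e₂ T₀ X₀ R₀ (MvPolynomial.aeval x : R →ₐ[k] k)
      (fun i => (MvPolynomial.X i : R))
    simp only [MvPolynomial.aeval_X] at h1
    exact h1
  have hev : ∀ (x : KI D → k) (p : R), MvPolynomial.eval x p =
      (MvPolynomial.aeval x : R →ₐ[k] k).toRingHom p := by
    intro x p
    show _ = MvPolynomial.aeval x p
    rw [MvPolynomial.aeval_eq_eval]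
  obtain ⟨x, hx0, hx⟩ := Pool.Agent.ZIso.exists_ne_zero (K := k) (ι := KI D)
    (κ := Fin 12 ⊕ Fin 24)
    (by
      simp only [Fintype.card_sum, Fintype.card_fin, Fintype.card_sigma]
      rw [← Finset.mul_sum, h.sum]
      norm_num)
    (fun j => match j with
      | Sum.inl j => (kF D Y₀ R₀ (fun i => (MvPolynomial.X i : R))).coeff (j.val + 1)
      | Sum.inr j => (kG D e₁ e₂ T₀ X₀ R₀ (fun i => (MvPolynomial.X i : R))).coeff (j.val + 1))
    (fun j => by
      rcases j with j | j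
      · show MvPolynomial.eval 0
          ((kF D Y₀ R₀ (fun i => (MvPolynomial.X i : R))).coeff (j.val + 1)) = 0
        rw [hev, ← coeff_map, key1]
        show (kF D Y₀ R₀ (fun _ => (0 : k))).coeff (j.val + 1) = 0
        rw [kF_zero hY, coeff_zero]
      · show MvPolynomial.eval 0
          ((kG D e₁ e₂ T₀ X₀ R₀ (fun i => (MvPolynomial.X i : R))).coeff (j.val + 1)) = 0
        rw [hev, ← coeff_map, key2]
        show (kG D e₁ e₂ T₀ X₀ R₀ (fun _ => (0 : k))).coeff (j.val + 1) = 0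
        rw [kG_zero hT, coeff_zero])
  have hF : kF D Y₀ R₀ x = 0 := by
    ext n
    rw [coeff_zero]
    rcases n with _ | n
    · rw [coeff_zero_eq_eval_zero]
      exact kF_eval hY x
    · by_cases hn : n < 12
      · have h1 := hx (Sum.inl ⟨n, hn⟩)
        rw [hev] at h1
        change (MvPolynomial.aeval x : R →ₐ[k] k).toRingHom
          ((kF D Y₀ R₀ (fun i => (MvPolynomial.X i : R))).coeff (n + 1)) = 0 at h1
        rw [← coeff_map, key1] at h1
        exact h1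
      · have h1 := kF_natDegree h Y₀ R₀ x
        exact coeff_eq_zero_of_natDegree_lt (by omega)
  have hG : kG D e₁ e₂ T₀ X₀ R₀ x = 0 := by
    ext n
    rw [coeff_zero]
    rcases n with _ | n
    · rw [coeff_zero_eq_eval_zero]
      exact kG_eval hT x
    · by_cases hn : n < 24
      · have h1 := hx (Sum.inr ⟨n, hn⟩)
        rw [hev] at h1
        change (MvPolynomial.aeval x : R →ₐ[k] k).toRingHom
          ((kG D e₁ e₂ T₀ X₀ R₀ (fun i => (MvPolynomial.X i : R))).coeff (n + 1)) = 0 at h1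
        rw [← coeff_map, key2] at h1
        exact h1
      · have h1 := kG_natDegree h e₁ e₂ T₀ X₀ R₀ x
        exact coeff_eq_zero_of_natDegree_lt (by omega)
  refine ⟨kp e₁ 1 (fun j => x (Sum.inl (Sum.inl j))), kp e₂ 1 (fun j => x (Sum.inl (Sum.inr j))),
    kp Y₀ 6 (fun j => x (Sum.inr (Sum.inr (Sum.inl j)))),
    kp 1 2 (fun j => x (Sum.inr (Sum.inr (Sum.inr (Sum.inl j))))),
    kp T₀ 11 (fun j => x (Sum.inr (Sum.inr (Sum.inr (Sum.inr j))))),
    fun i => kp (X₀ i) (D.deg i) (fun j => x (Sum.inr (Sum.inl (Sum.inl ⟨i, j⟩)))),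
    fun i => kp (R₀ i) (3 * D.deg i) (fun j => x (Sum.inr (Sum.inl (Sum.inr ⟨i, j⟩)))),
    kp_natDegree _ _ _, kp_natDegree _ _ _, kp_natDegree _ _ _, kp_eval _ _ _, kp_eval _ _ _,
    kp_eval _ _ _, kp_eval _ _ _, kp_eval _ _ _, fun i => kp_eval _ _ _, fun i => kp_eval _ _ _,
    ?_, ?_, ?_⟩
  · exact sub_eq_zero.1 hF
  · have h1 := sub_eq_zero.1 hG
    simpa using h1
  rintro ⟨h1, h2, h3, h4⟩
  have hconst : ∀ (p : k[X]) (c : k), c ≠ 0 → p ^ 2 = C c → ∃ d, p = C d := by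
    intro p c hc hp
    have h5 := congrArg natDegree hp
    rw [natDegree_pow, natDegree_C] at h5
    exact ⟨_, eq_C_of_natDegree_eq_zero (by omega)⟩
  -- the polynomial `Y`
  have hYc : ∃ d, kp Y₀ 6 (fun j => x (Sum.inr (Sum.inr (Sum.inl j)))) = C d := by
    refine hconst _ (Y₀ ^ 2) (pow_ne_zero 2 hY0) ?_
    have h5 : ∏ i, kp (R₀ i) (3 * D.deg i) (fun j => x (Sum.inr (Sum.inl (Sum.inr ⟨i, j⟩)))) =
        kp Y₀ 6 (fun j => x (Sum.inr (Sum.inr (Sum.inl j)))) ^ 2 := sub_eq_zero.1 hF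
    rw [← h5, Finset.prod_congr rfl (fun i _ => h4 i), ← map_prod, ← hY]
  have hqg : kp 1 2 (fun j => x (Sum.inr (Sum.inr (Sum.inr (Sum.inl j))))) *
      kp T₀ 11 (fun j => x (Sum.inr (Sum.inr (Sum.inr (Sum.inr j))))) ^ 2 = C (T₀ ^ 2) := by
    have h5 : ∏ i, D.Dq i (kp e₁ 1 (fun j => x (Sum.inl (Sum.inl j))))
        (kp e₂ 1 (fun j => x (Sum.inl (Sum.inr j))))
        (kp (X₀ i) (D.deg i) (fun j => x (Sum.inr (Sum.inl (Sum.inl ⟨i, j⟩)))))
        (kp (R₀ i) (3 * D.deg i) (fun j => x (Sum.inr (Sum.inl (Sum.inr ⟨i, j⟩))))) =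
        kp 1 2 (fun j => x (Sum.inr (Sum.inr (Sum.inr (Sum.inl j))))) *
      kp T₀ 11 (fun j => x (Sum.inr (Sum.inr (Sum.inr (Sum.inr j))))) ^ 2 := by
      have h1 := sub_eq_zero.1 hG
      simpa using h1
    have h6 : ∀ i, D.Dq i (C e₁) (C e₂) (C (X₀ i)) (C (R₀ i)) =
        C (D.Dq i e₁ e₂ (X₀ i) (R₀ i)) := by
      intro i
      exact (kr_Dq_map (D := D) i (Algebra.ofId k k[X]) _ _ _ _).symm
    rw [← h5, hT, map_prod]
    refine Finset.prod_congr rfl fun i _ => ?_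
    rw [← h6, h1, h2]
    have h7 := h3 i
    have h8 := h4 i
    simp only at h7 h8
    rw [h7, h8]
  have hT2 : T₀ ^ 2 ≠ 0 := pow_ne_zero 2 hT0
  have h6 : kp 1 2 (fun j => x (Sum.inr (Sum.inr (Sum.inr (Sum.inl j))))) *
      kp T₀ 11 (fun j => x (Sum.inr (Sum.inr (Sum.inr (Sum.inr j))))) ^ 2 ≠ 0 := by
    rw [hqg]
    exact C_ne_zero.2 hT2
  have hq0 := left_ne_zero_of_mul h6
  have hg0 := right_ne_zero_of_mul h6
  have hg1 : kp T₀ 11 (fun j => x (Sum.inr (Sum.inr (Sum.inr (Sum.inr j))))) ≠ 0 := by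
    intro h7
    apply hg0
    rw [h7]
    ring
  have h8 := congrArg natDegree hqg
  rw [natDegree_mul hq0 hg0, natDegree_pow, natDegree_C] at h8
  have k5 := kp_const (eq_C_of_natDegree_eq_zero
    (p := kp 1 2 (fun j => x (Sum.inr (Sum.inr (Sum.inr (Sum.inl j)))))) (by omega))
  have k6 := kp_const (eq_C_of_natDegree_eq_zero
    (p := kp T₀ 11 (fun j => x (Sum.inr (Sum.inr (Sum.inr (Sum.inr j)))))) (by omega))
  obtain ⟨d, hd⟩ := hYc
  apply hx0
  funext j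
  rcases j with (j | j) | (⟨i, j⟩ | ⟨i, j⟩) | (j | (j | j))
  · exact congrFun (kp_const h1) j
  · exact congrFun (kp_const h2) j
  · exact congrFun (kp_const (h3 i)) j
  · exact congrFun (kp_const (h4 i)) j
  · exact congrFun (kp_const hd) j
  · exact congrFun k5 j
  · exact congrFun k6 j

end Pool.Agent.VFP
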