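import Pool.Agent.VFP.CaseI
import Pool.Agent.VFP.CaseII
import Pool.Agent.VFP.Krull
import Pool.Agent.VFP.Sing

/-!
# The vanishing of CL for affine points
-/

set_option autoImplicit false

noncomputable section

namespace Pool.Agent.VFP

open Pool.Agent.ZCyc Polynomial

universe u

variable {k : Type u} [Field k] {N r : ℕ}

variable [IsAlgClosed k] [CharZero k] {D : Dat k N r}

private lemma clAff_Dq {s t : k} {Z Xi Th : Fin N → k} (hs : ∀ i, D.dsc i s ≠ 0)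
    (ht : ∀ i, D.dsc i t ≠ 0) (hZ : ∀ i, Z i ≠ 0) (hW : D.Wd s t Z Xi Th) (i : Fin N) :
    D.Dq i (s + t) (s * t) (Xi i) (Th i ^ 2) = (Z i - D.dsc i s * D.dsc i t / Z i) ^ 2 := by
  have hsum := (VK3.Wd.kappa (hW i) (hZ i) (hs i) (ht i)).2.1
  change Z i + D.dsc i s * D.dsc i t / Z i = _ at hsum
  have hSd : VK3.Sy (4 * D.al i ^ 3 + 27 * D.be i ^ 2) (s + t) (s * t) =
      D.dsc i s * D.dsc i t := by
    rw [← VK3.aeval_mul_aeval]
    unfold Dat.dsc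
    simp only [map_add, map_mul, map_pow, map_ofNat]
  unfold Dat.Dq
  rw [hSd, ← VK3.aeval_mul_aeval, ← VK3.aeval_mul_aeval]
  have e : 4 * Xi i ^ 3 - 12 * (aeval s (D.al i) * aeval t (D.al i)) * Xi i +
      54 * (aeval s (D.be i) * aeval t (D.be i)) - Th i ^ 2 =
      Z i + D.dsc i s * D.dsc i t / Z i := by
    rw [hsum]
    ring
  rw [e]
  have h1 : D.dsc i s * D.dsc i t = Z i * (D.dsc i s * D.dsc i t / Z i) :=
    (mul_div_cancel₀ _ (hZ i)).symm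
  linear_combination -4 * h1

theorem psi_all (h : D.Valid) {δ₁ δ₂ : k} (hδ : δ₁ ≠ δ₂) {i₁ i₂ : Fin N}
    (hδ₁ : D.dsc i₁ δ₁ = 0) (hδ₂ : D.dsc i₂ δ₂ = 0) {s t : k} {Z Xi Th : Fin N → k}
    (hs : ∀ i, D.dsc i s ≠ 0) (ht : ∀ i, D.dsc i t ≠ 0) (hZ : ∀ i, Z i ≠ 0)
    (hW : D.Wd s t Z Xi Th) : D.psi s t Z Xi Th = 0 := by
  by_cases hD : ∃ i, D.Ds i s t (Z i) (Xi i) = 0
  · obtain ⟨i, hi⟩ := hD
    exact psi_zero h i (hs i) hi
  by_cases hD' : ∃ i, D.Ds i t s (Z i) (Xi i) = 0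
  · obtain ⟨i, hi⟩ := hD'
    have hiff := (VK3.Wd.kappa (hW i) (hZ i) (hs i) (ht i)).2.2
    have h1 : D.psi s t (Function.update Z i (D.dsc i s * D.dsc i t / Z i)) Xi Th = 0 := by
      refine psi_zero h i (hs i) ?_
      rw [Function.update_self]
      exact hiff.2 hi
    rw [psi_kappa h i hs ht hZ hW, neg_eq_zero] at h1
    exact h1
  by_cases hT : ∃ i, Th i = 0 ∨ Z i - D.dsc i s * D.dsc i t / Z i = 0
  · obtain ⟨i, hi⟩ := hT
    exact psi_fix h hs ht hZ hW hi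
  push Not at hD hD' hT
  have hY0 : ∏ i, Th i ≠ 0 := Finset.prod_ne_zero_iff.2 fun i _ => (hT i).1
  have hT0 : ∏ i, (Z i - D.dsc i s * D.dsc i t / Z i) ≠ 0 :=
    Finset.prod_ne_zero_iff.2 fun i _ => (hT i).2
  have hY : (∏ i, Th i) ^ 2 = ∏ i, Th i ^ 2 := (Finset.prod_pow _ _ _).symm
  have hTT : (∏ i, (Z i - D.dsc i s * D.dsc i t / Z i)) ^ 2 =
      ∏ i, D.Dq i (s + t) (s * t) (Xi i) (Th i ^ 2) := by
    rw [← Finset.prod_pow]
    exact Finset.prod_congr rfl fun i _ => (clAff_Dq hs ht hZ hW i).symm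
  obtain ⟨E₁, E₂, Y, q, g, X', R', hE₁, hE₂, hq, h1, h2, h3, h4, h5, h6, h7, h8, h9, h10⟩ :=
    krull h hY hY0 hTT hT0
  by_cases hE : E₁ = C (s + t) ∧ E₂ = C (s * t)
  · refine psi_caseII h hs ht hZ hW hD hD' hY0 hT0 hq h3 h4 h5 h6 h7 h8 h9 hE ?_
    rintro ⟨h11, h12⟩
    exact h10 ⟨hE.1, hE.2, h11, h12⟩
  · exact psi_caseI h hs ht hZ hW hD hD' hY0 hT0 hE₁ hE₂ hq h1 h2 h3 h4 h5 h6 h7 h8 h9 hδ hδ₁
      hδ₂ hE

/-- compare `Pool.Agent.VK3.CL_zero` -/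
theorem CL_aff (h : D.Valid) {δ₁ δ₂ : k} (hδ : δ₁ ≠ δ₂) {i₁ i₂ : Fin N}
    (hδ₁ : D.dsc i₁ δ₁ = 0) (hδ₂ : D.dsc i₂ δ₂ = 0) {s t : k} {x x' : Fin N → k}
    {y y' : Fin r → k} (hP : D.On s x y) (hQ : D.On t x' y') :
    D.CL (aff s x y) (aff t x' y') = 0 := by
  by_cases hy : ∃ b, y b = 0
  · obtain ⟨b, hb⟩ := hy
    exact CL_y_left (w := aff s x y) (b := b) hb _
  by_cases hy' : ∃ b, y' b = 0
  · obtain ⟨b, hb⟩ := hy'
    exact CL_y_right (w := aff t x' y') (b := b) hb _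
  by_cases hs : ∃ i, D.dsc i s = 0
  · obtain ⟨i, hi⟩ := hs
    exact (CL_sing h hi hP ((onX_aff _ _ _).2 hQ)).1
  by_cases ht : ∃ i, D.dsc i t = 0
  · obtain ⟨i, hi⟩ := ht
    exact (CL_sing h hi hQ ((onX_aff _ _ _).2 hP)).2
  push Not at hy hy' hs ht
  have hf : ∀ i, D.ff i s (x i) ≠ 0 := by
    intro i h0
    apply hy (D.blk i)
    have h1 := hP (D.blk i)
    rw [Finset.prod_eq_zero (i := i) (by simp) h0] at h1
    exact (pow_eq_zero_iff two_ne_zero).1 h1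
  have hf' : ∀ i, D.ff i t (x' i) ≠ 0 := by
    intro i h0
    apply hy' (D.blk i)
    have h1 := hQ (D.blk i)
    rw [Finset.prod_eq_zero (i := i) (by simp) h0] at h1
    exact (pow_eq_zero_iff two_ne_zero).1 h1
  choose u hu using fun i => IsAlgClosed.exists_pow_nat_eq
    (D.ff i t (x' i) / D.ff i s (x i)) (n := 2) (by norm_num)
  have hu0 : ∀ i, u i ≠ 0 := by
    intro i h0
    have h1 := hu i
    rw [h0, zero_pow two_ne_zero] at h1
    exact div_ne_zero (hf' i) (hf i) h1.symm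
  have hF : ∀ i, D.ff i t (x' i) = u i ^ 2 * D.ff i s (x i) := by
    intro i
    rw [hu i, div_mul_cancel₀ _ (hf i)]
  have hup : D.On t x' (D.up u y) := on_up hP hF
  obtain ⟨ε, hε⟩ := exists_sg (y := D.up u y) (y' := y') fun b => by rw [hup b, hQ b]
  have hsg : aff t x' y' = sg ε (aff t x' (D.up u y)) := by
    rw [sg_aff]
    congr 1
    funext b
    exact hε b
  choose n hn using fun i => IsAlgClosed.exists_pow_nat_eq (u i ^ 2) (n := 3) (by norm_num)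
  have hn0 : ∀ i, n i ≠ 0 := by
    intro i h0
    have h1 := hn i
    rw [h0, zero_pow three_ne_zero] at h1
    exact hu0 i ((pow_eq_zero_iff two_ne_zero).1 h1.symm)
  obtain ⟨Xi, hXi⟩ : ∃ Xi : Fin N → k, ∀ i, Xi i = (3 * (n i ^ 2 * x i ^ 2 + n i * x i * x' i +
    x' i ^ 2) + n i ^ 2 * aeval s (D.al i) + aeval t (D.al i)) / n i := ⟨_, fun _ => rfl⟩
  obtain ⟨Th, hTh⟩ : ∃ Th : Fin N → k, ∀ i, Th i = 3 * u i * ((n i * x i + x' i) * Xi i +
    n i * aeval s (D.al i) * x' i + aeval t (D.al i) * x i) / n i ^ 2 := ⟨_, fun _ => rfl⟩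
  have hL : D.Lft s t (fun i => u i ^ 2 * D.dsc i s) Xi Th u n x x' := by
    intro i
    have h1 := hn0 i
    refine ⟨h1, hn i, rfl, hF i, ?_, ?_⟩
    · rw [hXi i]
      field_simp
    · rw [hTh i]
      field_simp
  have h1 := psi_eq h hL hs
  rw [psi_all h hδ hδ₁ hδ₂ hs ht (fun i => mul_ne_zero (pow_ne_zero _ (hu0 i)) (hs i))
    (fun i => (hL i).wd), cl5_eq_CL hP] at h1
  rw [hsg, CL_sg_right, ← h1, smul_zero]

end Pool.Agent.VFP
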