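import Pool.Agent.VFP.Aff

/-!
# Zeros of the discriminants
-/

set_option autoImplicit false

noncomputable section

namespace Pool.Agent.VFP

open Pool.Agent.ZCyc Polynomial

universe u

variable {k : Type u} [Field k] {N r : ℕ}

private theorem eval_lin {E : k[X]} (hE : E.natDegree ≤ 1) (τ : k) :
    E.eval τ = E.coeff 1 * τ + E.coeff 0 := by
  conv_lhs => rw [eq_X_add_C_of_natDegree_le_one hE]
  simp

private theorem eq_C {E : k[X]} (hE : E.natDegree ≤ 1) (h : E.coeff 1 = 0) :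
    E = C (E.eval 0) := by
  conv_lhs => rw [eq_X_add_C_of_natDegree_le_one hE]
  rw [eval_lin hE, h]
  simp

variable [IsAlgClosed k] [CharZero k] {D : Dat k N r}

/-- Compare `Pool.Agent.VK3.exists_root_Sy`: the linear polynomials `E₂ - δ E₁ + δ ²`,
`δ = δ₁, δ₂`, are not both constant. -/
theorem exists_root {δ₁ δ₂ : k} (hδ : δ₁ ≠ δ₂) {i₁ i₂ : Fin N} (h1 : D.dsc i₁ δ₁ = 0)
    (h2 : D.dsc i₂ δ₂ = 0) {E₁ E₂ : k[X]} (hE₁ : E₁.natDegree ≤ 1) (hE₂ : E₂.natDegree ≤ 1)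
    (hE : ¬ (E₁ = C (E₁.eval 0) ∧ E₂ = C (E₂.eval 0))) :
    ∃ (i : Fin N) (τ δ : k), D.dsc i δ = 0 ∧ δ ^ 2 - E₁.eval τ * δ + E₂.eval τ = 0 := by
  have key : ∀ δ : k, E₂.coeff 1 - δ * E₁.coeff 1 ≠ 0 →
      ∃ τ : k, δ ^ 2 - E₁.eval τ * δ + E₂.eval τ = 0 := by
    intro δ h
    refine ⟨(E₁.coeff 0 * δ - E₂.coeff 0 - δ ^ 2) / (E₂.coeff 1 - δ * E₁.coeff 1), ?_⟩
    rw [eval_lin hE₁, eval_lin hE₂]
    field_simp
    ring
  by_cases c1 : E₂.coeff 1 - δ₁ * E₁.coeff 1 = 0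
  · by_cases c2 : E₂.coeff 1 - δ₂ * E₁.coeff 1 = 0
    · exfalso
      have h3 : (δ₁ - δ₂) * E₁.coeff 1 = 0 := by linear_combination c2 - c1
      have h4 : E₁.coeff 1 = 0 := (mul_eq_zero.mp h3).resolve_left (sub_ne_zero.mpr hδ)
      have h5 : E₂.coeff 1 = 0 := by rw [h4, mul_zero, sub_zero] at c1; exact c1
      exact hE ⟨eq_C hE₁ h4, eq_C hE₂ h5⟩
    · obtain ⟨τ, hτ⟩ := key δ₂ c2
      exact ⟨i₂, τ, δ₂, h2, hτ⟩
  · obtain ⟨τ, hτ⟩ := key δ₁ c1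
    exact ⟨i₁, τ, δ₁, h1, hτ⟩

end Pool.Agent.VFP
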