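import Pool.Agent.VFP.PVZero
import Pool.Agent.VFP.Point
import Pool.Agent.VFP.Conic
import Pool.Agent.VFP.Roots

/-!
# Rational curves along which s and t move
-/

set_option autoImplicit false

noncomputable section

namespace Pool.Agent.VFP

open Pool.Agent.ZCyc Polynomial

universe u

variable {k : Type u} [Field k] {N r : ℕ}

variable [IsAlgClosed k] [CharZero k] {D : Dat k N r}

omit [CharZero k] in
/-- values of `s`, `t` if `s + t` and `s t` have the values `e + f` and `e f` -/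
private lemma ci_st {v : Place k (Om k)} {s t : Om k} {e f : k} (h1 : v.At (s + t) (e + f))
    (h2 : v.At (s * t) (e * f)) : (v.At s e ∧ v.At t f) ∨ (v.At s f ∧ v.At t e) := by
  obtain ⟨s₁, hs₁⟩ := DCI57.exists_at v
    (mem_of_quad h1.mem h2.mem (by ring : s ^ 2 - (s + t) * s + s * t = 0))
  have ht₁ : v.At t (e + f - s₁) := by
    have := h1.sub hs₁
    rwa [add_sub_cancel_left] at this
  have h9 : s₁ * (e + f - s₁) = e * f := (hs₁.mul ht₁).unique h2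
  have h10 : (s₁ - e) * (s₁ - f) = 0 := by linear_combination -h9
  rcases mul_eq_zero.1 h10 with h11 | h11
  · have h12 := sub_eq_zero.1 h11
    rw [h12] at hs₁ ht₁
    rw [add_sub_cancel_left] at ht₁
    exact Or.inl ⟨hs₁, ht₁⟩
  · have h12 := sub_eq_zero.1 h11
    rw [h12] at hs₁ ht₁
    rw [add_sub_cancel_right] at ht₁
    exact Or.inr ⟨hs₁, ht₁⟩

omit [IsAlgClosed k] [CharZero k] in
private lemma ci_ne {v : Place k (Om k)} {f : Om k} {c : k} (h : v.At f c) (hc : c ≠ 0) :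
    f ≠ 0 := by
  rintro rfl
  exact hc (h.unique at_zero)

omit [IsAlgClosed k] [CharZero k] in
private lemma ci_dsc {v : Place k (Om k)} {s : Om k} {e : k} (hs : v.At s e) (i : Fin N) :
    v.At (D.dsc i s) (D.dsc i e) := by
  have h1 := at_evalc hs (D.al i)
  have h2 := at_evalc hs (D.be i)
  unfold Dat.dsc
  exact ((at_num 4).mul (h1.pow 3)).add ((at_num 27).mul (h2.pow 2))

omit [IsAlgClosed k] [CharZero k] in
private lemma ci_ds {v : Place k (Om k)} {s t Z Xi : Om k} {e f z x : k} (hs : v.At s e)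
    (ht : v.At t f) (hZ : v.At Z z) (hX : v.At Xi x) (i : Fin N) :
    v.At (D.Ds i s t Z Xi) (D.Ds i e f z x) := by
  have h1 := at_evalc hs (D.al i)
  have h2 := at_evalc hs (D.be i)
  have h3 := at_evalc ht (D.al i)
  have hDD := ((at_num (v := v) 4).mul (h1.pow 3)).add ((at_num 27).mul (h2.pow 2))
  unfold Dat.Ds VK3.Dst
  exact (((hZ.mul hDD).mul ((hX.pow 3).sub ((((at_num 3).mul h1).mul h3).mul hX))).sub
    ((hZ.pow 2).mul (h1.pow 3))).sub ((hDD.pow 2).mul (h3.pow 3))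

omit [CharZero k] in
/-- `Z` has the value `z` or `D_s D_t / z` -/
private lemma ci_Z {v : Place k (Om k)} {s t Z Xi Th : Om k} {e f z x y : k} {i : Fin N}
    (hs : v.At s e) (ht : v.At t f) (hX : v.At Xi x) (hT : v.At (Th ^ 2) (y ^ 2))
    (hW : VK3.Wd (aeval s (D.al i)) (aeval s (D.be i)) (aeval t (D.al i)) (aeval t (D.be i))
      Z Xi Th)
    (hw : VK3.Wd (aeval e (D.al i)) (aeval e (D.be i)) (aeval f (D.al i)) (aeval f (D.be i))
      z x y) (hz : z ≠ 0) : v.At Z z ∨ v.At Z (D.dsc i e * D.dsc i f / z) := by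
  have h1 := at_evalc hs (D.al i)
  have h2 := at_evalc hs (D.be i)
  have h3 := at_evalc ht (D.al i)
  have h4 := at_evalc ht (D.be i)
  have hG : v.At (4 * Xi ^ 3 - 12 * aeval s (D.al i) * aeval t (D.al i) * Xi +
      54 * aeval s (D.be i) * aeval t (D.be i) - Th ^ 2)
      (4 * x ^ 3 - 12 * aeval e (D.al i) * aeval f (D.al i) * x +
        54 * aeval e (D.be i) * aeval f (D.be i) - y ^ 2) :=
    (((((at_num 4).mul (hX.pow 3)).sub ((((at_num 12).mul h1).mul h3).mul hX))).add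
      (((at_num 54).mul h2).mul h4)).sub hT
  have hDD := (ci_dsc (D := D) hs i).mul (ci_dsc (D := D) ht i)
  obtain ⟨c, hc⟩ := DCI57.exists_at v (mem_of_quad hG.mem hDD.mem hW)
  have h5 := ((hc.pow 2).sub (hG.mul hc)).add hDD
  have h5' : Z ^ 2 - (4 * Xi ^ 3 - 12 * aeval s (D.al i) * aeval t (D.al i) * Xi +
      54 * aeval s (D.be i) * aeval t (D.be i) - Th ^ 2) * Z + D.dsc i s * D.dsc i t = 0 := hW
  rw [h5'] at h5
  have h6 := h5.unique at_zero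
  unfold VK3.Wd at hw
  have h7 : (c - z) * (c - D.dsc i e * D.dsc i f / z) = 0 := by
    unfold Dat.dsc at h6 ⊢
    field_simp
    linear_combination z * h6 - c * hw
  rcases mul_eq_zero.1 h7 with h8 | h8
  · left
    rwa [← sub_eq_zero.1 h8]
  · right
    rwa [← sub_eq_zero.1 h8]

/-- the case that `s` and `t` move: go to a zero of a discriminant (`exists_root`, `conic`) -/
theorem psi_caseI (h : D.Valid) {s t : k} {Z Xi Th : Fin N → k} (hs : ∀ i, D.dsc i s ≠ 0)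
    (ht : ∀ i, D.dsc i t ≠ 0) (hZ : ∀ i, Z i ≠ 0) (hW : D.Wd s t Z Xi Th)
    (hD : ∀ i, D.Ds i s t (Z i) (Xi i) ≠ 0) (hD' : ∀ i, D.Ds i t s (Z i) (Xi i) ≠ 0)
    (hTh : ∏ i, Th i ≠ 0) (hT : ∏ i, (Z i - D.dsc i s * D.dsc i t / Z i) ≠ 0)
    {E₁ E₂ Y q g : k[X]} {X' R' : Fin N → k[X]} (hE₁ : E₁.natDegree ≤ 1)
    (hE₂ : E₂.natDegree ≤ 1) (hq : q.natDegree ≤ 2) (h1 : E₁.eval 0 = s + t)
    (h2 : E₂.eval 0 = s * t) (h3 : Y.eval 0 = ∏ i, Th i) (h4 : q.eval 0 = 1)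
    (h5 : g.eval 0 = ∏ i, (Z i - D.dsc i s * D.dsc i t / Z i)) (h6 : ∀ i, (X' i).eval 0 = Xi i)
    (h7 : ∀ i, (R' i).eval 0 = Th i ^ 2) (h8 : ∏ i, R' i = Y ^ 2)
    (h9 : ∏ i, D.Dq i E₁ E₂ (X' i) (R' i) = q * g ^ 2) {δ₁ δ₂ : k} (hδ : δ₁ ≠ δ₂)
    {i₁ i₂ : Fin N} (hδ₁ : D.dsc i₁ δ₁ = 0) (hδ₂ : D.dsc i₂ δ₂ = 0)
    (hE : ¬ (E₁ = C (s + t) ∧ E₂ = C (s * t))) : D.psi s t Z Xi Th = 0 := by
  have hN : 0 < N := Fin.pos i₁
  obtain ⟨i, τ₁, δ, hδ0, hτδ⟩ := exists_root hδ hδ₁ hδ₂ hE₁ hE₂ (by rw [h1, h2]; exact hE)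
  have hτ₁ : τ₁ ≠ 0 := by
    intro h0
    rw [h0, h1, h2] at hτδ
    have h3 : (δ - s) * (δ - t) = 0 := by linear_combination hτδ
    rcases mul_eq_zero.1 h3 with h4 | h4
    · rw [sub_eq_zero.1 h4] at hδ0
      exact hs i hδ0
    · rw [sub_eq_zero.1 h4] at hδ0
      exact ht i hδ0
  obtain ⟨τ, ρ, c₀, c₁, hρ, hc₀, hc₁⟩ := conic q hq h4 τ₁ hτ₁
  obtain ⟨s', t', Z', Th', e1, e2, e3, e4, e5, e6⟩ := exists_point h8 h9 hρ hN
  -- values above `c₀`
  have hev : ∀ v : Place k (Om k), v.At (tt k) c₀ → ∀ p : k[X], v.At (aeval τ p) (p.eval 0) := by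
    intro v hv p
    exact (hc₀ v hv).1.aeval p
  have hst : ∀ v : Place k (Om k), v.At (tt k) c₀ →
      v.At (s' + t') (s + t) ∧ v.At (s' * t') (s * t) := by
    intro v hv
    constructor
    · rw [e1, ← h1]
      exact hev v hv E₁
    · rw [e2, ← h2]
      exact hev v hv E₂
  have hXv : ∀ v : Place k (Om k), v.At (tt k) c₀ → ∀ j, v.At (aeval τ (X' j)) (Xi j) := by
    intro v hv j
    rw [← h6 j]
    exact hev v hv (X' j)
  have hTv : ∀ v : Place k (Om k), v.At (tt k) c₀ → ∀ j, v.At (Th' j ^ 2) (Th j ^ 2) := by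
    intro v hv j
    rw [e3 j, ← h7 j]
    exact hev v hv (R' j)
  obtain ⟨v₀, hv₀⟩ := exists_place (tt_transc (k := k)) c₀
  have hds : ∀ j, D.dsc j s' ≠ 0 ∧ D.dsc j t' ≠ 0 := by
    intro j
    rcases ci_st (hst v₀ hv₀).1 (hst v₀ hv₀).2 with ⟨h10, h11⟩ | ⟨h10, h11⟩
    · exact ⟨ci_ne (ci_dsc h10 j) (hs j), ci_ne (ci_dsc h11 j) (ht j)⟩
    · exact ⟨ci_ne (ci_dsc h10 j) (ht j), ci_ne (ci_dsc h11 j) (hs j)⟩
  obtain ⟨hZ', e7⟩ := e6 fun j => mul_ne_zero (hds j).1 (hds j).2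
  have hDs : ∀ j, D.Ds j s' t' (Z' j) (aeval τ (X' j)) ≠ 0 := by
    intro j
    have hWj := hW j
    have hWj' : VK3.Wd (aeval t (D.al j)) (aeval t (D.be j)) (aeval s (D.al j))
        (aeval s (D.be j)) (Z j) (Xi j) (Th j) := by
      unfold VK3.Wd at hWj ⊢
      linear_combination hWj
    rcases ci_st (hst v₀ hv₀).1 (hst v₀ hv₀).2 with ⟨h10, h11⟩ | ⟨h10, h11⟩
    · rcases ci_Z h10 h11 (hXv v₀ hv₀ j) (hTv v₀ hv₀ j) (e5 j) hWj (hZ j) with h12 | h12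
      · exact ci_ne (ci_ds h10 h11 h12 (hXv v₀ hv₀ j) j) (hD j)
      · refine ci_ne (ci_ds h10 h11 h12 (hXv v₀ hv₀ j) j) fun h13 => hD' j ?_
        exact ((VK3.Wd.kappa hWj (hZ j) (hs j) (ht j)).2.2).1 h13
    · rcases ci_Z h10 h11 (hXv v₀ hv₀ j) (hTv v₀ hv₀ j) (e5 j) hWj' (hZ j) with h12 | h12
      · exact ci_ne (ci_ds h10 h11 h12 (hXv v₀ hv₀ j) j) (hD' j)
      · refine ci_ne (ci_ds h10 h11 h12 (hXv v₀ hv₀ j) j) fun h13 => hD j ?_
        exact ((VK3.Wd.kappa hWj' (hZ j) (ht j) (hs j)).2.2).1 h13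
  refine transfer h (I := Unit) (fun _ => s') (fun _ => t') (fun _ => Z')
    (fun _ j => aeval τ (X' j)) (fun _ => Th') (fun _ => e5) (fun _ j => (hds j).1)
    (fun _ => hZ') (fun _ => hDs) c₀ c₁ _ 0 ?_ ?_
  · intro v hv
    refine ⟨fun _ => D.psi s t Z Xi Th, fun _ => ?_, by simp⟩
    refine pv_zero h hs ht hZ hW hTh hT (hst v hv).1 (hst v hv).2 (hXv v hv) (hTv v hv) ?_ e5 hZ'
      ?_
    · rw [e4, ← h3]
      exact hev v hv Y
    · rw [e7, ← h5]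
      have h10 := (hc₀ v hv).2.mul (hev v hv g)
      rwa [one_mul] at h10
  · intro v hv
    have hE1v := (hc₁ v hv).aeval E₁
    have hE2v := (hc₁ v hv).aeval E₂
    rw [← e1] at hE1v
    rw [← e2] at hE2v
    obtain ⟨s₁, hs₁⟩ := DCI57.exists_at v
      (mem_of_quad hE1v.mem hE2v.mem (by ring : s' ^ 2 - (s' + t') * s' + s' * t' = 0))
    have ht₁ : v.At t' (E₁.eval τ₁ - s₁) := by
      have := hE1v.sub hs₁
      rwa [add_sub_cancel_left] at this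
    have h10 : s₁ * (E₁.eval τ₁ - s₁) = E₂.eval τ₁ := (hs₁.mul ht₁).unique hE2v
    refine ⟨fun _ => 0, fun _ => PV.inf i s₁ (E₁.eval τ₁ - s₁) hs₁ ht₁ ?_, by simp⟩
    have h11 : (δ - s₁) * (δ - (E₁.eval τ₁ - s₁)) = 0 := by
      linear_combination hτδ + h10
    rcases mul_eq_zero.1 h11 with h12 | h12
    · left
      rw [← sub_eq_zero.1 h12]
      exact hδ0
    · right; left
      rw [← sub_eq_zero.1 h12]
      exact hδ0

end Pool.Agent.VFP
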