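import Pool.Agent.VFP.Defs
import Pool.Agent.VK3.AlgW
import Pool.Agent.VK3.AlgInt
import Pool.Agent.VK3.AlgEx
import Pool.Agent.VK3.AlgA
import Pool.Agent.VK3.AlgB
import Pool.Agent.VK3.AlgC
import Pool.Agent.VK3.Sym

/-!
# Auxiliary definitions

`aff s x y` is the affine point with `(s₀ : s₁) = (1 : s)`, `(x_i : z_i) = (x i : 1)`;
`D.al i = A_i(1, X)`, `D.be i = B_i(1, X)`, `D.ff i s x = x ³ + A_i(1, s) x + B_i(1, s)`.
-/

set_option autoImplicit false

noncomputable section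

namespace Pool.Agent.VFP

open Pool.Agent.ZCyc Polynomial
open Pool.Agent.VK3 (Lift Wd Dst Sy)

universe u

variable {k : Type u} [Field k] {N r : ℕ}

/-- changes of signs of the coordinates `y_b` -/
def sg {K : Type*} [Field K] (ε : Fin r → ℤˣ) (w : Crd N r K) : Crd N r K where
  s := w.s
  x := w.x
  z := w.z
  y b := (((ε b : ℤˣ) : ℤ) : K) * w.y b

/-- the product of the signs -/
def sn (ε : Fin r → ℤˣ) : ℚ := ∏ b, (((ε b : ℤˣ) : ℤ) : ℚ)

/-- the affine points -/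
def aff {K : Type*} [Field K] (s : K) (x : Fin N → K) (y : Fin r → K) : Crd N r K where
  s := ![1, s]
  x := x
  z _ := 1
  y := y

/-- the polynomial `A_i(1, X)` -/
def Dat.al (D : Dat k N r) (i : Fin N) : k[X] := MvPolynomial.aeval ![(1 : k[X]), X] (D.A i)

/-- the polynomial `B_i(1, X)` -/
def Dat.be (D : Dat k N r) (i : Fin N) : k[X] := MvPolynomial.aeval ![(1 : k[X]), X] (D.B i)

/-- the cubic polynomial `x ³ + A_i(1, s) x + B_i(1, s)` -/
def Dat.ff (D : Dat k N r) {K : Type*} [Field K] [Algebra k K] (i : Fin N) (s x : K) : K :=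
  x ^ 3 + aeval s (D.al i) * x + aeval s (D.be i)

/-- its discriminant -/
def Dat.dsc (D : Dat k N r) {K : Type*} [Field K] [Algebra k K] (i : Fin N) (s : K) : K :=
  4 * aeval s (D.al i) ^ 3 + 27 * aeval s (D.be i) ^ 2

/-- the affine point `aff s x y` is on `X` -/
def Dat.On (D : Dat k N r) {K : Type*} [Field K] [Algebra k K] (s : K) (x : Fin N → K)
    (y : Fin r → K) : Prop :=
  ∀ b, y b ^ 2 = ∏ i with D.blk i = b, D.ff i s (x i)

/-- zero-cycles on `X × X` modulo rational equivalence -/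
abbrev Dat.V (D : Dat k N r) : Type u := (Crd N r k × Crd N r k →₀ ℚ) ⧸ D.ratEq

/-- the class of a pair of points -/
def Dat.cv (D : Dat k N r) (w w' : Crd N r k) : D.V :=
  Submodule.Quotient.mk (Finsupp.single (w, w') 1)

/-- `{w} × w'`, where `{w}` is the alternating sum over all changes of signs -/
def Dat.T1 (D : Dat k N r) (w w' : Crd N r k) : D.V := ∑ ε : Fin r → ℤˣ, sn ε • D.cv (sg ε w) w'

/-- `{w} × {w'}` -/
def Dat.T (D : Dat k N r) (w w' : Crd N r k) : D.V :=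
  ∑ ε : Fin r → ℤˣ, ∑ ε' : Fin r → ℤˣ, (sn ε * sn ε') • D.cv (sg ε w) (sg ε' w')

/-- `{w} × {w'} + (-1) ^ N {w'} × {w}` -/
def Dat.CL (D : Dat k N r) (w w' : Crd N r k) : D.V := D.T w w' + (-1 : ℚ) ^ N • D.T w' w

/-- the class `CL` of the values of `P` and `Q` at `v` is `C` -/
def Dat.VCL (D : Dat k N r) (v : Place k (Om k)) (P Q : Crd N r (Om k)) (C : D.V) : Prop :=
  ∃ p q : Crd N r k, D.OnX p ∧ D.OnX q ∧ D.IsValue v P p ∧ D.IsValue v Q q ∧ D.CL p q = C

section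

variable [IsAlgClosed k] (D : Dat k N r)

/-- a square root -/
def sq (c : k) : k := Classical.choose (IsAlgClosed.exists_pow_nat_eq c (n := 2) (by norm_num))

lemma sq_sq (c : k) : sq c ^ 2 = c :=
  Classical.choose_spec (IsAlgClosed.exists_pow_nat_eq c (n := 2) (by norm_num))

/-- square roots `y_b` -/
def Dat.rt (s : k) (x : Fin N → k) (b : Fin r) : k := sq (∏ i with D.blk i = b, D.ff i s (x i))

/-- the factor of `y_b` -/
def Dat.up {K : Type*} [Field K] (u : Fin N → K) (y : Fin r → K) (b : Fin r) : K :=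
  (∏ i with D.blk i = b, u i) * y b

/-- the class `CL` of the pair `(s, x, y)`, `(t, x', u y)`, `y_b` square roots -/
def Dat.cl5 (s t : k) (u x x' : Fin N → k) : D.V :=
  D.CL (aff s x (D.rt s x)) (aff t x' (D.up u (D.rt s x)))

end

/-- `(u, n, x, x')` is a lift of the point `(s, t, Z, Xi, Th)` -/
def Dat.Lft (D : Dat k N r) {K : Type*} [Field K] [Algebra k K] (s t : K)
    (Z Xi Th u n x x' : Fin N → K) : Prop :=
  ∀ i, Lift (aeval s (D.al i)) (aeval s (D.be i)) (aeval t (D.al i)) (aeval t (D.be i)) (Z i)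
    (Xi i) (Th i) (u i) (n i) (x i) (x' i)

/-- the equations of the Jacobian fibrations -/
def Dat.Wd (D : Dat k N r) {K : Type*} [Field K] [Algebra k K] (s t : K)
    (Z Xi Th : Fin N → K) : Prop :=
  ∀ i, VK3.Wd (aeval s (D.al i)) (aeval s (D.be i)) (aeval t (D.al i)) (aeval t (D.be i)) (Z i)
    (Xi i) (Th i)

/-- the function `Dst` -/
def Dat.Ds (D : Dat k N r) {K : Type*} [Field K] [Algebra k K] (i : Fin N) (s t Z Xi : K) : K :=
  Dst (aeval s (D.al i)) (aeval s (D.be i)) (aeval t (D.al i)) Z Xi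

section

variable [IsAlgClosed k] (D : Dat k N r)

open Classical in
/-- the class of the lifts of the point `(s, t, Z, Xi, Th)` -/
def Dat.psi (s t : k) (Z Xi Th : Fin N → k) : D.V :=
  if h : ∃ w : (Fin N → k) × (Fin N → k) × (Fin N → k) × (Fin N → k),
      D.Lft s t Z Xi Th w.1 w.2.1 w.2.2.1 w.2.2.2 then
    D.cl5 s t h.choose.1 h.choose.2.2.1 h.choose.2.2.2 else 0

end

/-- the value of the function `psi` at the place `v` -/
inductive PV [IsAlgClosed k] (D : Dat k N r) (v : Place k (Om k)) (s t : Om k)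
    (Z Xi Th : Fin N → Om k) : D.V → Prop
  | fin (s' t' : k) (Z' Xi' Th' : Fin N → k) : v.At s s' → v.At t t' → (∀ i, v.At (Z i) (Z' i)) →
      (∀ i, v.At (Xi i) (Xi' i)) → (∀ i, v.At (Th i) (Th' i)) → (∀ i, Z' i ≠ 0) →
      (∀ i, D.dsc i s' ≠ 0) → (∀ i, D.dsc i t' ≠ 0) → PV D v s t Z Xi Th (D.psi s' t' Z' Xi' Th')
  | inf (i : Fin N) (s' t' : k) : v.At s s' → v.At t t' → (D.dsc i s' = 0 ∨ D.dsc i t' = 0 ∨
      v.At (Z i) 0 ∨ Z i ∉ v.ring ∨ Xi i ∉ v.ring ∨ Th i ∉ v.ring) → PV D v s t Z Xi Th 0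

section

variable [IsAlgClosed k] (D : Dat k N r)

/-- `(Z - Z') ²` for the two solutions `Z` and `Z'` of `Z + Z' = G`, `Z Z' = D_i(s) D_i(t)`, where
`G = 4 X' ³ - 12 A_i(s) A_i(t) X' + 54 B_i(s) B_i(t) - R'` and `e₁ = s + t`, `e₂ = s t` -/
def Dat.Dq (i : Fin N) {R : Type*} [CommRing R] [Algebra k R] (e₁ e₂ X' R' : R) : R :=
  (4 * X' ^ 3 - 12 * Sy (D.al i) e₁ e₂ * X' + 54 * Sy (D.be i) e₁ e₂ - R') ^ 2 -
    4 * Sy (4 * D.al i ^ 3 + 27 * D.be i ^ 2) e₁ e₂

end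

end Pool.Agent.VFP
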