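import Pool.Agent.VFP.Kappa

/-!
# Even numbers of involutions
-/

set_option autoImplicit false

noncomputable section

namespace Pool.Agent.VFP

open Pool.Agent.ZCyc Polynomial

universe u

variable {k : Type u} [Field k] {N r : ℕ}

variable [IsAlgClosed k] [CharZero k] {D : Dat k N r}

/-- apply the involution in the coordinates of `S` -/
private lemma even_kappa (h : D.Valid) {s t : k} {Z Xi Th : Fin N → k}
    (hs : ∀ i, D.dsc i s ≠ 0) (ht : ∀ i, D.dsc i t ≠ 0) (hZ : ∀ i, Z i ≠ 0)
    (hW : D.Wd s t Z Xi Th) (S : Finset (Fin N)) :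
    D.psi s t (fun i => if i ∈ S then D.dsc i s * D.dsc i t / Z i else Z i) Xi Th =
      (-1 : ℚ) ^ S.card • D.psi s t Z Xi Th := by
  classical
  induction S using Finset.induction_on with
  | empty => simp
  | insert i S hi ih =>
    have hW' : D.Wd s t (fun j => if j ∈ S then D.dsc j s * D.dsc j t / Z j else Z j) Xi Th := by
      intro j
      by_cases hj : j ∈ S
      · simp only [if_pos hj]
        exact (VK3.Wd.kappa (hW j) (hZ j) (hs j) (ht j)).1
      · simp only [if_neg hj]
        exact hW j
    have hZ' : ∀ j, (fun j => if j ∈ S then D.dsc j s * D.dsc j t / Z j else Z j) j ≠ 0 := by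
      intro j
      by_cases hj : j ∈ S
      · simp only [if_pos hj]
        exact div_ne_zero (mul_ne_zero (hs j) (ht j)) (hZ j)
      · simp only [if_neg hj]
        exact hZ j
    have h1 := psi_kappa h i hs ht hZ' hW'
    have h2 : Function.update (fun j => if j ∈ S then D.dsc j s * D.dsc j t / Z j else Z j) i
        (D.dsc i s * D.dsc i t /
          (fun j => if j ∈ S then D.dsc j s * D.dsc j t / Z j else Z j) i) =
        fun j => if j ∈ insert i S then D.dsc j s * D.dsc j t / Z j else Z j := by
      funext j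
      by_cases hj : j = i
      · subst hj
        rw [Function.update_self]
        simp only [if_neg hi, Finset.mem_insert_self, if_true]
      · rw [Function.update_of_ne hj]
        simp only [Finset.mem_insert, hj, false_or]
    rw [h2] at h1
    rw [h1, ih, Finset.card_insert_of_notMem hi, pow_succ]
    simp

/-- change the signs of `Th` in the coordinates of `S` -/
private lemma even_neg (h : D.Valid) {s t : k} {Z Xi Th : Fin N → k}
    (hs : ∀ i, D.dsc i s ≠ 0) (S : Finset (Fin N)) :
    D.psi s t Z Xi (fun i => if i ∈ S then -Th i else Th i) =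
      (-1 : ℚ) ^ S.card • D.psi s t Z Xi Th := by
  classical
  induction S using Finset.induction_on with
  | empty => simp
  | insert i S hi ih =>
    have h1 := psi_neg h i (Z := Z) (Xi := Xi) (t := t)
      (Th := fun j => if j ∈ S then -Th j else Th j) hs
    have h2 : Function.update (fun j => if j ∈ S then -Th j else Th j) i
        (-(fun j => if j ∈ S then -Th j else Th j) i) =
        fun j => if j ∈ insert i S then -Th j else Th j := by
      funext j
      by_cases hj : j = i
      · subst hj
        rw [Function.update_self]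
        simp only [if_neg hi, Finset.mem_insert_self, if_true]
      · rw [Function.update_of_ne hj]
        simp only [Finset.mem_insert, hj, false_or]
    rw [h2] at h1
    rw [h1, ih, Finset.card_insert_of_notMem hi, pow_succ]
    simp

omit [IsAlgClosed k] in
/-- products which change by signs -/
private lemma even_card {f g : Fin N → k} (S : Finset (Fin N)) (hS : ∀ i ∈ S, g i = -f i)
    (hS' : ∀ i, i ∉ S → g i = f i) (h : ∏ i, g i = ∏ i, f i) (h0 : ∏ i, f i ≠ 0) :
    (-1 : ℚ) ^ S.card = 1 := by
  classical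
  have h1 : ∏ i, g i = (-1) ^ S.card * ∏ i, f i := by
    have h2 : ∀ i, g i = (if i ∈ S then -1 else 1) * f i := by
      intro i
      by_cases hi : i ∈ S
      · rw [if_pos hi, hS i hi]
        ring
      · rw [if_neg hi, hS' i hi]
        ring
    rw [Finset.prod_congr rfl fun i _ => h2 i, Finset.prod_mul_distrib]
    congr 1
    rw [Finset.prod_ite_mem, Finset.univ_inter, Finset.prod_const]
  rw [h] at h1
  have h2 : (-1 : k) ^ S.card = 1 := by
    apply mul_right_cancel₀ h0
    rw [one_mul]
    exact h1.symm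
  rcases Nat.even_or_odd S.card with h3 | h3
  · exact h3.neg_one_pow
  · rw [h3.neg_one_pow] at h2
    exfalso
    have h4 : (2 : k) = 0 := by linear_combination -h2
    exact two_ne_zero h4

/-- Let `Z' i` be `Z i` or `D_i(s) D_i(t) / Z i`, and `Th' i = ± Th i`, with an even number of
changes (in the form `∏ (Z' i - D_i(s) D_i(t) / Z' i) = ∏ (Z i - D_i(s) D_i(t) / Z i) ≠ 0`,
`∏ Th' i = ∏ Th i ≠ 0`). Then `psi` does not change. -/
theorem psi_even (h : D.Valid) {s t : k} {Z Xi Th Z' Th' : Fin N → k}
    (hs : ∀ i, D.dsc i s ≠ 0) (ht : ∀ i, D.dsc i t ≠ 0) (hZ : ∀ i, Z i ≠ 0)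
    (hW : D.Wd s t Z Xi Th) (hTh : ∀ i, Th' i ^ 2 = Th i ^ 2)
    (hZ' : ∀ i, Z' i = Z i ∨ Z' i = D.dsc i s * D.dsc i t / Z i)
    (h1 : ∏ i, Th' i = ∏ i, Th i) (h1' : ∏ i, Th i ≠ 0)
    (h2 : ∏ i, (Z' i - D.dsc i s * D.dsc i t / Z' i) = ∏ i, (Z i - D.dsc i s * D.dsc i t / Z i))
    (h2' : ∏ i, (Z i - D.dsc i s * D.dsc i t / Z i) ≠ 0) :
    D.psi s t Z' Xi Th' = D.psi s t Z Xi Th := by
  classical
  have hW' : D.Wd s t Z Xi Th' := by
    intro i
    have h3 := hW i
    unfold VK3.Wd at h3 ⊢
    rw [hTh i]
    exact h3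
  obtain ⟨S, hS⟩ : ∃ S : Finset (Fin N), S = Finset.univ.filter fun i => Z' i ≠ Z i := ⟨_, rfl⟩
  obtain ⟨R, hR⟩ : ∃ R : Finset (Fin N), R = Finset.univ.filter fun i => Th' i ≠ Th i := ⟨_, rfl⟩
  have memS : ∀ i, i ∈ S ↔ Z' i ≠ Z i := fun i => by simp [hS]
  have memR : ∀ i, i ∈ R ↔ Th' i ≠ Th i := fun i => by simp [hR]
  have eZ : Z' = fun i => if i ∈ S then D.dsc i s * D.dsc i t / Z i else Z i := by
    funext i
    by_cases hi : i ∈ S
    · rw [if_pos hi]
      exact (hZ' i).resolve_left ((memS i).1 hi)
    · rw [if_neg hi]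
      by_contra hne
      exact hi ((memS i).2 hne)
  have eT' : ∀ i, i ∈ R → Th' i = -Th i := by
    intro i hi
    rcases sq_eq_sq_iff_eq_or_eq_neg.1 (hTh i) with h3 | h3
    · exact absurd h3 ((memR i).1 hi)
    · exact h3
  have eT : Th' = fun i => if i ∈ R then -Th i else Th i := by
    funext i
    by_cases hi : i ∈ R
    · rw [if_pos hi]
      exact eT' i hi
    · rw [if_neg hi]
      by_contra hne
      exact hi ((memR i).2 hne)
  have cS : (-1 : ℚ) ^ S.card = 1 := by
    refine even_card S ?_ ?_ h2 h2'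
    · intro i hi
      have h3 : Z' i = D.dsc i s * D.dsc i t / Z i := (hZ' i).resolve_left ((memS i).1 hi)
      have h4 := hZ i
      have h5 := hs i
      have h6 := ht i
      rw [h3]
      field_simp
      ring
    · intro i hi
      have h3 : Z' i = Z i := by
        by_contra hne
        exact hi ((memS i).2 hne)
      rw [h3]
  have cR : (-1 : ℚ) ^ R.card = 1 := by
    refine even_card R eT' ?_ h1 h1'
    intro i hi
    by_contra hne
    exact hi ((memR i).2 hne)
  have h3 := even_kappa h hs ht hZ hW' S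
  have h4 := even_neg h (t := t) (Z := Z) (Xi := Xi) (Th := Th) hs R
  rw [← eZ, cS, one_smul] at h3
  rw [← eT, cR, one_smul] at h4
  rw [h3, h4]

end Pool.Agent.VFP
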