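import Pool.Agent.VFP.Transfer
import Pool.Agent.DCI57.At

/-!
# The involutions kappa
-/

set_option autoImplicit false

noncomputable section

namespace Pool.Agent.VFP

open Pool.Agent.ZCyc Polynomial

universe u

variable {k : Type u} [Field k] {N r : ℕ}

private lemma kap_tt_transc : Transcendental k (tt k) := by
  have h0 : Transcendental k (RatFunc.X : RatFunc k) := RatFunc.transcendental_X
  intro hcon
  apply h0
  have h2 : IsAlgebraic k (algebraMap (RatFunc k) (Om k) RatFunc.X) ↔
      IsAlgebraic k (RatFunc.X : RatFunc k) :=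
    isAlgebraic_algebraMap_iff (algebraMap (RatFunc k) (Om k)).injective
  exact h2.1 hcon

private lemma kap_inv_not_mem {v : Place k (Om k)} {f : Om k} (hf : v.At f 0) (hf0 : f ≠ 0) :
    f⁻¹ ∉ v.ring := by
  rw [Place.at_zero_iff, v.vanishes_iff_or] at hf
  rcases hf with hf | hf
  · exact absurd hf hf0
  · exact hf

/-- the roots of a monic quadratic polynomial over the ring are in the ring -/
private lemma kap_mem {v : Place k (Om k)} {G D z : Om k} (hG : G ∈ v.ring) (hD : D ∈ v.ring)
    (h : z ^ 2 - G * z + D = 0) : z ∈ v.ring := by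
  by_cases hz : z = 0
  · rw [hz]
    exact zero_mem _
  rcases v.ring.mem_or_inv_mem z with h1 | h1
  · exact h1
  · have h2 : z = G - D * z⁻¹ := by
      field_simp
      linear_combination h
    rw [h2]
    exact sub_mem hG (mul_mem hD h1)

variable [IsAlgClosed k] [CharZero k] {D : Dat k N r}

/-- Compare `Pool.Agent.VK3.psi_kappa`: only `Th i` moves. If `Ds j = 0` for some `j ≠ i` both
sides are `0` by `psi_zero`. -/
theorem psi_kappa (h : D.Valid) (i : Fin N) {s t : k} {Z Xi Th : Fin N → k}
    (hs : ∀ i, D.dsc i s ≠ 0) (ht : ∀ i, D.dsc i t ≠ 0) (hZ : ∀ i, Z i ≠ 0)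
    (hW : D.Wd s t Z Xi Th) :
    D.psi s t (Function.update Z i (D.dsc i s * D.dsc i t / Z i)) Xi Th =
      -D.psi s t Z Xi Th := by
  set Z' : k := D.dsc i s * D.dsc i t / Z i with hZ'
  -- zeros of `Ds` in another coordinate
  by_cases hj : ∃ j, j ≠ i ∧ D.Ds j s t (Z j) (Xi j) = 0
  · obtain ⟨j, hji, hj⟩ := hj
    rw [psi_zero h j (hs j) hj, psi_zero h j (hs j)
      (by rw [Function.update_of_ne hji]; exact hj), neg_zero]
  push Not at hj
  by_cases hDD : D.Ds i s t (Z i) (Xi i) = 0 ∧ D.Ds i s t Z' (Xi i) = 0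
  · rw [psi_zero h i (hs i) hDD.1, psi_zero h i (hs i)
      (by rw [Function.update_self]; exact hDD.2), neg_zero]
  -- the product and the sum of `Z i` and `Z'`
  have hprod : Z i * Z' = D.dsc i s * D.dsc i t := by
    rw [hZ']
    have := hZ i
    field_simp
  set G₀ : k := 4 * Xi i ^ 3 - 12 * aeval s (D.al i) * aeval t (D.al i) * Xi i +
    54 * aeval s (D.be i) * aeval t (D.be i) - Th i ^ 2 with hG₀'
  have hsum : Z i + Z' = G₀ := by
    have h1 : Z i * (Z i + Z') = Z i * G₀ := by
      rw [hG₀', mul_add, hprod]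
      unfold Dat.dsc
      have hWi := hW i
      unfold VK3.Wd at hWi
      linear_combination hWi
    exact mul_left_cancel₀ (hZ i) h1
  -- the family
  let ι : k →+* Om k := algebraMap k (Om k)
  have hιr : ι = algebraMap k (Om k) := rfl
  have hι : Function.Injective ι := (algebraMap k (Om k)).injective
  have hι0 : ∀ c : k, c ≠ 0 → ι c ≠ 0 := by
    intro c hc h0
    exact hc (hι (by rw [h0, map_zero]))
  have htt : tt k ≠ 0 := by
    intro h0
    apply kap_tt_transc (k := k)
    rw [h0]
    exact isAlgebraic_zero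
  set H : Om k := ι (Th i) + ((tt k)⁻¹ - 1) with hH
  set G : Om k := ι (G₀ + Th i ^ 2) - H ^ 2 with hG
  obtain ⟨Z₁, hZ₁⟩ : ∃ Z₁ : Om k, Z₁ ^ 2 - G * Z₁ + ι (Z i * Z') = 0 := by
    have hmon : ((X : (Om k)[X]) ^ 2 - C G * X + C (ι (Z i * Z'))).degree = 2 := by
      compute_degree!
    obtain ⟨w, hw⟩ := IsAlgClosed.exists_root ((X : (Om k)[X]) ^ 2 - C G * X + C (ι (Z i * Z')))
      (by rw [hmon]; norm_num)
    refine ⟨w, ?_⟩
    have := hw
    rw [IsRoot.def] at this
    simpa using this
  set Z₂ : Om k := G - Z₁ with hZ₂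
  have hZ₂' : Z₂ ^ 2 - G * Z₂ + ι (Z i * Z') = 0 := by
    rw [hZ₂]
    linear_combination hZ₁
  have h12 : Z₁ * Z₂ = ι (Z i * Z') := by
    rw [hZ₂]
    linear_combination -hZ₁
  have hZZ : Z i * Z' ≠ 0 := by
    rw [hprod]
    exact mul_ne_zero (hs i) (ht i)
  have hZZ' : ι (Z i * Z') ≠ 0 := hι0 _ hZZ
  have hne1 : Z₁ ≠ 0 := by
    intro h0
    rw [h0, zero_mul] at h12
    exact hZZ' h12.symm
  have hne2 : Z₂ ≠ 0 := by
    intro h0
    rw [h0, mul_zero] at h12
    exact hZZ' h12.symm
  -- aeval at constants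
  have hev : ∀ (c : k) (p : k[X]), aeval (ι c) p = ι (aeval c p) := fun c p =>
    Polynomial.aeval_algebraMap_apply (Om k) c p
  have hdsc : ∀ (j : Fin N) (c : k), D.dsc j (ι c) = ι (D.dsc j c) := by
    intro j c
    unfold Dat.dsc
    rw [hev, hev]
    simp only [map_add, map_mul, map_pow, map_ofNat]
  have hDsc : ∀ (j : Fin N) (z x : k), D.Ds j (ι s) (ι t) (ι z) (ι x) = ι (D.Ds j s t z x) := by
    intro j z x
    unfold Dat.Ds VK3.Dst
    rw [hev, hev, hev]
    simp only [map_add, map_sub, map_mul, map_pow, map_ofNat]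
  have hGG : G = 4 * (ι (Xi i)) ^ 3 - 12 * ι (aeval s (D.al i)) * ι (aeval t (D.al i)) * ι (Xi i) +
      54 * ι (aeval s (D.be i)) * ι (aeval t (D.be i)) - H ^ 2 := by
    rw [hG, hG₀']
    simp only [map_add, map_mul, map_pow, map_sub, map_ofNat]
    ring
  have hWi : ∀ z : Om k, z ^ 2 - G * z + ι (Z i * Z') = 0 →
      VK3.Wd (aeval (ι s) (D.al i)) (aeval (ι s) (D.be i)) (aeval (ι t) (D.al i))
        (aeval (ι t) (D.be i)) z (ι (Xi i)) H := by
    intro z hz
    unfold VK3.Wd
    have h1 := hdsc i s
    have h2 := hdsc i t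
    unfold Dat.dsc at h1 h2
    rw [h1, h2, ← map_mul]
    change z ^ 2 - _ * z + ι (D.dsc i s * D.dsc i t) = 0
    rw [← hprod, hev, hev, hev, hev, ← hGG]
    exact hz
  -- `Ds` does not vanish
  have htrans : ∀ z z' : Om k, z + z' = G → z * z' = ι (Z i * Z') → z ≠ 0 →
      ¬ IsAlgebraic k z := by
    intro z z' h1 h2 hz0 halg
    apply kap_tt_transc (k := k)
    have halg' : IsAlgebraic k z' := by
      have h3 : z' = ι (Z i * Z') * z⁻¹ := by
        rw [← h2]
        field_simp
      rw [h3]
      exact (isAlgebraic_algebraMap (Z i * Z')).mul halg.inv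
    have h4 : IsAlgebraic k (H ^ 2) := by
      have h5 : H ^ 2 = ι (G₀ + Th i ^ 2) - (z + z') := by
        rw [h1, hG]
        ring
      rw [h5]
      exact (isAlgebraic_algebraMap (G₀ + Th i ^ 2)).sub (halg.add halg')
    have h5 : IsAlgebraic k H := IsAlgebraic.of_pow (by norm_num) h4
    have h6 : IsAlgebraic k ((tt k)⁻¹) := by
      have h7 : (tt k)⁻¹ = H - ι (Th i) + 1 := by
        rw [hH]
        ring
      rw [h7]
      exact (h5.sub (isAlgebraic_algebraMap (Th i))).add isAlgebraic_one
    have h7 := h6.inv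
    rwa [inv_inv] at h7
  have hDst : ∀ z : Om k, ¬ IsAlgebraic k z → D.Ds i (ι s) (ι t) z (ι (Xi i)) ≠ 0 := by
    intro z hz h0
    apply hz
    set c₁ : k := (4 * aeval s (D.al i) ^ 3 + 27 * aeval s (D.be i) ^ 2) *
      (Xi i ^ 3 - 3 * aeval s (D.al i) * aeval t (D.al i) * Xi i) with hc₁
    set c₂ : k := aeval s (D.al i) ^ 3 with hc₂
    set c₃ : k := (4 * aeval s (D.al i) ^ 3 + 27 * aeval s (D.be i) ^ 2) ^ 2 *
      aeval t (D.al i) ^ 3 with hc₃
    set R : k[X] := C c₁ * X - C c₂ * X ^ 2 - C c₃ with hR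
    have hRk : ∀ w : k, R.eval w = D.Ds i s t w (Xi i) := by
      intro w
      rw [hR, hc₁, hc₂, hc₃]
      unfold Dat.Ds VK3.Dst
      simp only [eval_sub, eval_mul, eval_C, eval_X, eval_pow]
      ring
    refine ⟨R, ?_, ?_⟩
    · intro hR0
      apply hDD
      rw [← hRk, ← hRk, hR0]
      simp
    · have h2 : aeval z R = D.Ds i (ι s) (ι t) z (ι (Xi i)) := by
        unfold Dat.Ds VK3.Dst
        rw [hev, hev, hev, hR, hc₁, hc₂, hc₃]
        simp only [map_sub, map_mul, aeval_C, aeval_X, map_pow, map_add, map_ofNat]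
        rw [hιr]
        ring
      rw [h2, h0]
  have hna1 : ¬ IsAlgebraic k Z₁ := htrans Z₁ Z₂ (by rw [hZ₂]; ring) h12 hne1
  have hna2 : ¬ IsAlgebraic k Z₂ := htrans Z₂ Z₁ (by rw [hZ₂]; ring) (by rw [mul_comm]; exact h12)
    hne2
  -- transfer
  have hZne : Z' ≠ 0 := right_ne_zero_of_mul hZZ
  have main : (0 : D.V) = D.psi s t (Function.update Z i Z') Xi Th + D.psi s t Z Xi Th := by
    refine transfer h (I := Fin 2) (fun _ => ι s) (fun _ => ι t)
      (fun e => Function.update (fun j => ι (Z j)) i ((![Z₁, Z₂] : Fin 2 → Om k) e))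
      (fun _ j => ι (Xi j)) (fun _ => Function.update (fun j => ι (Th j)) i H)
      ?_ ?_ ?_ ?_ 0 1 0 _ ?_ ?_
    · intro e j
      by_cases hji : j = i
      · subst hji
        rw [Function.update_self, Function.update_self]
        fin_cases e
        · exact hWi Z₁ hZ₁
        · exact hWi Z₂ hZ₂'
      · rw [Function.update_of_ne hji, Function.update_of_ne hji]
        have h1 := hW j
        unfold VK3.Wd at h1 ⊢
        rw [hev, hev, hev, hev]
        have h2 := congrArg ι h1
        simp only [map_add, map_sub, map_mul, map_pow, map_ofNat, map_zero] at h2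
        exact h2
    · intro e j
      rw [hdsc]
      exact hι0 _ (hs j)
    · intro e j
      by_cases hji : j = i
      · subst hji
        rw [Function.update_self]
        fin_cases e
        · exact hne1
        · exact hne2
      · rw [Function.update_of_ne hji]
        exact hι0 _ (hZ j)
    · intro e j
      by_cases hji : j = i
      · subst hji
        rw [Function.update_self]
        fin_cases e
        · exact hDst Z₁ hna1
        · exact hDst Z₂ hna2
      · rw [Function.update_of_ne hji, hDsc]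
        exact hι0 _ (hj j hji)
    · -- above `0`
      intro v hv
      refine ⟨fun _ => 0, ?_, by simp⟩
      intro e
      refine PV.inf i s t (Place.at_const s) (Place.at_const t) ?_
      right; right; right; right; right
      rw [Function.update_self]
      intro hmem
      apply kap_inv_not_mem hv htt
      have h1 : (tt k)⁻¹ = H - ι (Th i) + ι 1 := by
        rw [hH, map_one]
        ring
      rw [h1]
      exact add_mem (sub_mem hmem (v.const_mem (Th i))) (v.const_mem 1)
    · -- above `1`
      intro v hv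
      have hHv : v.At H (Th i) := by
        have h1 := (Place.at_const (v := v) (Th i)).add ((hv.inv one_ne_zero).sub
          (Place.at_const (v := v) (1 : k)))
        rw [inv_one, sub_self, add_zero, map_one] at h1
        exact h1
      have hGv : v.At G G₀ := by
        have h1 := (Place.at_const (v := v) (G₀ + Th i ^ 2)).sub (hHv.pow 2)
        rw [add_sub_cancel_right] at h1
        exact h1
      have hm1 : Z₁ ∈ v.ring := kap_mem hGv.mem (v.const_mem _) hZ₁
      obtain ⟨z₁, hz₁⟩ := DCI57.exists_at v hm1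
      have hz₂ : v.At Z₂ (G₀ - z₁) := hGv.sub hz₁
      have hq : z₁ * (G₀ - z₁) = Z i * Z' := by
        have h1 := hz₁.mul hz₂
        rw [h12] at h1
        exact h1.unique (Place.at_const (Z i * Z'))
      have hz : z₁ = Z i ∨ z₁ = Z' := by
        have h1 : (z₁ - Z i) * (z₁ - Z') = 0 := by
          rw [← hsum] at hq
          linear_combination -hq
        rcases mul_eq_zero.1 h1 with h2 | h2
        · left; exact sub_eq_zero.1 h2
        · right; exact sub_eq_zero.1 h2
      have hval : ∀ (w : Om k) (z : k), v.At w z → ∀ j,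
          v.At (Function.update (fun j => ι (Z j)) i w j) (Function.update Z i z j) := by
        intro w z hwz j
        by_cases hji : j = i
        · subst hji
          rw [Function.update_self, Function.update_self]
          exact hwz
        · rw [Function.update_of_ne hji, Function.update_of_ne hji]
          exact Place.at_const _
      have hvalT : ∀ j, v.At (Function.update (fun j => ι (Th j)) i H j) (Th j) := by
        intro j
        by_cases hji : j = i
        · subst hji
          rw [Function.update_self]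
          exact hHv
        · rw [Function.update_of_ne hji]
          exact Place.at_const _
      have hzne : ∀ z : k, z ≠ 0 → ∀ j, Function.update Z i z j ≠ 0 := by
        intro z hz0 j
        by_cases hji : j = i
        · subst hji
          rw [Function.update_self]
          exact hz0
        · rw [Function.update_of_ne hji]
          exact hZ j
      have key : ∀ z₁ z₂ : k, v.At Z₁ z₁ → v.At Z₂ z₂ → z₁ ≠ 0 → z₂ ≠ 0 →
          ∃ C : Fin 2 → D.V, (∀ e, PV D v (ι s) (ι t)
            (Function.update (fun j => ι (Z j)) i ((![Z₁, Z₂] : Fin 2 → Om k) e))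
            (fun j => ι (Xi j)) (Function.update (fun j => ι (Th j)) i H) (C e)) ∧
            ∑ e, C e = D.psi s t (Function.update Z i z₁) Xi Th +
              D.psi s t (Function.update Z i z₂) Xi Th := by
        intro z₁ z₂ h1 h2 h3 h4
        refine ⟨![D.psi s t (Function.update Z i z₁) Xi Th,
          D.psi s t (Function.update Z i z₂) Xi Th], ?_, ?_⟩
        · intro e
          fin_cases e
          · exact PV.fin s t (Function.update Z i z₁) Xi Th (Place.at_const s) (Place.at_const t)
              (hval Z₁ z₁ h1) (fun j => Place.at_const (Xi j)) hvalT (hzne z₁ h3) hs ht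
          · exact PV.fin s t (Function.update Z i z₂) Xi Th (Place.at_const s) (Place.at_const t)
              (hval Z₂ z₂ h2) (fun j => Place.at_const (Xi j)) hvalT (hzne z₂ h4) hs ht
        · rw [Fin.sum_univ_two]
          rfl
      rcases hz with h1 | h1
      · have h2 : G₀ - z₁ = Z' := by rw [h1, ← hsum]; ring
        rw [h1] at hz₁
        rw [h2] at hz₂
        obtain ⟨C, hC1, hC2⟩ := key (Z i) Z' hz₁ hz₂ (hZ i) hZne
        refine ⟨C, hC1, ?_⟩
        rw [hC2, add_comm, Function.update_eq_self]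
      · have h2 : G₀ - z₁ = Z i := by rw [h1, ← hsum]; ring
        rw [h1] at hz₁
        rw [h2] at hz₂
        obtain ⟨C, hC1, hC2⟩ := key Z' (Z i) hz₁ hz₂ hZne (hZ i)
        refine ⟨C, hC1, ?_⟩
        rw [hC2, Function.update_eq_self]
  exact eq_neg_of_add_eq_zero_left main.symm

omit [IsAlgClosed k] in
private lemma kap_wd {s t : k} {Z Xi Th : Fin N → k}
    (hs : ∀ i, D.dsc i s ≠ 0) (ht : ∀ i, D.dsc i t ≠ 0) (hZ : ∀ i, Z i ≠ 0)
    (hW : D.Wd s t Z Xi Th) (S : Finset (Fin N)) :
    (∀ i, (if i ∈ S then D.dsc i s * D.dsc i t / Z i else Z i) ≠ 0) ∧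
      D.Wd s t (fun i => if i ∈ S then D.dsc i s * D.dsc i t / Z i else Z i) Xi Th := by
  constructor
  · intro i
    split_ifs
    · exact div_ne_zero (mul_ne_zero (hs i) (ht i)) (hZ i)
    · exact hZ i
  · intro i
    simp only
    split_ifs
    · exact ((hW i).kappa (hZ i) (hs i) (ht i)).1
    · exact hW i

private lemma kap_finset (h : D.Valid) {s t : k} {Z Xi Th : Fin N → k}
    (hs : ∀ i, D.dsc i s ≠ 0) (ht : ∀ i, D.dsc i t ≠ 0) (hZ : ∀ i, Z i ≠ 0)
    (hW : D.Wd s t Z Xi Th) (S : Finset (Fin N)) :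
    D.psi s t (fun i => if i ∈ S then D.dsc i s * D.dsc i t / Z i else Z i) Xi Th =
      (-1 : ℚ) ^ S.card • D.psi s t Z Xi Th := by
  classical
  induction S using Finset.induction_on with
  | empty => simp
  | insert a S ha ih =>
    obtain ⟨h1, h2⟩ := kap_wd hs ht hZ hW S
    have h3 := psi_kappa h a hs ht h1 h2
    have h4 : Function.update (fun i => if i ∈ S then D.dsc i s * D.dsc i t / Z i else Z i) a
        (D.dsc a s * D.dsc a t / (if a ∈ S then D.dsc a s * D.dsc a t / Z a else Z a)) =
        fun i => if i ∈ insert a S then D.dsc i s * D.dsc i t / Z i else Z i := by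
      funext i
      by_cases hi : i = a
      · subst hi
        rw [Function.update_self, if_neg ha, if_pos (Finset.mem_insert_self i S)]
      · rw [Function.update_of_ne hi]
        simp only [Finset.mem_insert, hi, false_or]
    rw [← h4, h3, ih, Finset.card_insert_of_notMem ha, pow_succ, mul_comm, mul_smul, neg_smul,
      one_smul]

/-- from `psi_kappa` for all `i` and `psi_swap` -/
theorem psi_sym (h : D.Valid) {s t : k} {Z Xi Th : Fin N → k} (hs : ∀ i, D.dsc i s ≠ 0)
    (ht : ∀ i, D.dsc i t ≠ 0) (hZ : ∀ i, Z i ≠ 0) (hW : D.Wd s t Z Xi Th) :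
    D.psi t s Z Xi Th = D.psi s t Z Xi Th := by
  classical
  have h1 := kap_finset h hs ht hZ hW Finset.univ
  obtain ⟨h2, h3⟩ := kap_wd hs ht hZ hW Finset.univ
  simp only [Finset.mem_univ, if_true, Finset.card_univ, Fintype.card_fin] at h1 h2 h3
  have h4 := psi_swap h hs ht h2 h3
  have h5 : (fun i => D.dsc i s * D.dsc i t / (D.dsc i s * D.dsc i t / Z i)) = Z := by
    funext i
    have e1 := hs i
    have e2 := ht i
    have e3 := hZ i
    field_simp
  rw [h5, h1, smul_smul, ← pow_add, ← two_mul, pow_mul, neg_one_sq, one_pow, one_smul] at h4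
  exact h4

omit [IsAlgClosed k] [CharZero k] in
private lemma kap_zero {x : D.V} (hx : x = -x) : x = 0 := by
  have h1 : (2 : ℚ) • x = 0 := by
    rw [two_smul]
    nth_rewrite 1 [hx]
    exact neg_add_cancel x
  exact (smul_eq_zero.1 h1).resolve_left (by norm_num)

/-- if `Th i = 0`, or `Z i` is fixed by the involution, then `psi = 0` -/
theorem psi_fix (h : D.Valid) {s t : k} {Z Xi Th : Fin N → k} (hs : ∀ i, D.dsc i s ≠ 0)
    (ht : ∀ i, D.dsc i t ≠ 0) (hZ : ∀ i, Z i ≠ 0) (hW : D.Wd s t Z Xi Th) {i : Fin N}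
    (hi : Th i = 0 ∨ Z i - D.dsc i s * D.dsc i t / Z i = 0) : D.psi s t Z Xi Th = 0 := by
  apply kap_zero
  rcases hi with hi | hi
  · have h1 := psi_neg h i (s := s) (t := t) (Z := Z) (Xi := Xi) (Th := Th) hs
    have h2 : Function.update Th i (-Th i) = Th := by
      rw [hi, neg_zero, ← hi, Function.update_eq_self]
    rw [h2] at h1
    exact h1
  · have h1 := psi_kappa h i hs ht hZ hW
    rw [← sub_eq_zero.1 hi, Function.update_eq_self] at h1
    exact h1

end Pool.Agent.VFP
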