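import Pool.Agent.VFP.Bridge
import Pool.Agent.VFP.Value

/-!
# Lines in the plane of (x_i, x_i')
-/

set_option autoImplicit false

noncomputable section

namespace Pool.Agent.VFP

open Pool.Agent.ZCyc Polynomial

universe u

section aux

variable {k : Type u} [Field k]

private lemma line_inf_aux [IsAlgClosed k] {v : Place k (Om k)} {M X e n c₁ c₂ c₀ : Om k}
    {e' n' c₁' c₂' c₀' : k} (hM : M ∉ v.ring) (he : v.At e e') (hn : v.At n n')
    (h1 : v.At c₁ c₁') (h2 : v.At c₂ c₂') (h0 : v.At c₀ c₀')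
    (heq : e * n ^ 2 * M * X ^ 2 + (e * n * M ^ 2 + c₁) * X + (M ^ 3 + c₂ * M + c₀) = 0) :
    X ∉ v.ring := by
  intro hX
  obtain ⟨x, hx⟩ := DCI57.exists_at v hX
  have hN := inv_at_of_not_mem hM
  have hM0 := ne_zero_of_not_mem hM
  have e1 : e * n ^ 2 * M⁻¹ ^ 2 * X ^ 2 + (e * n * M⁻¹ + c₁ * M⁻¹ ^ 3) * X +
      (1 + c₂ * M⁻¹ ^ 2 + c₀ * M⁻¹ ^ 3) = 0 := by
    field_simp
    linear_combination heq
  have e2 := ((((he.mul (hn.pow 2)).mul (hN.pow 2)).mul (hx.pow 2)).add
    ((((he.mul hn).mul hN).add (h1.mul (hN.pow 3))).mul hx)).add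
    (((Place.at_const (v := v) 1).add (h2.mul (hN.pow 2))).add (h0.mul (hN.pow 3)))
  rw [map_one, e1] at e2
  have e3 := e2.unique at_zero
  simp at e3

private lemma line_fin_aux {v : Place k (Om k)} {α β γ X : Om k} {α' β' γ' : k}
    (hα : v.At α α') (hβ : v.At β β') (hγ : v.At γ γ') (hα' : α' ≠ 0)
    (heq : α * X ^ 2 + β * X + γ = 0) : X ∈ v.ring := by
  by_contra hX
  have hN := inv_at_of_not_mem hX
  have h0 := ne_zero_of_not_mem hX
  have e1 : α + β * X⁻¹ + γ * X⁻¹ ^ 2 = 0 := by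
    field_simp
    linear_combination heq
  have e2 := (hα.add (hβ.mul hN)).add (hγ.mul (hN.pow 2))
  rw [e1] at e2
  have e3 := e2.unique at_zero
  apply hα'
  simpa using e3

private lemma line_roots {K : Type*} [Field K] [IsAlgClosed K] {α : K} (β γ : K) (hα : α ≠ 0) :
    ∃ X₁ X₂ : K, α * (X₁ + X₂) = -β ∧ α * (X₁ * X₂) = γ := by
  obtain ⟨z, hz⟩ := IsAlgClosed.exists_root (C α * X ^ 2 + C β * X + C γ : K[X])
    (by rw [Polynomial.degree_quadratic hα]; norm_num)
  have hz' : α * z ^ 2 + β * z + γ = 0 := by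
    have := hz
    simp only [Polynomial.IsRoot, eval_add, eval_mul, eval_C, eval_pow, eval_X] at this
    exact this
  refine ⟨z, -β / α - z, ?_, ?_⟩
  · field_simp
    ring
  · have h1 : α * (-β / α - z) = -β - α * z := by
      field_simp
    linear_combination z * h1 - hz'

private lemma line_M_ne (m : k) : algebraMap k (Om k) m + (1 - tt k) / tt k ≠ 0 := by
  intro h
  apply param_transc (k := k)
  have h1 : (1 - tt k) / tt k = algebraMap k (Om k) (-m) := by
    rw [map_neg]
    linear_combination h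
  rw [h1]
  exact isAlgebraic_algebraMap _

end aux

variable {k : Type u} [Field k] {N r : ℕ}

variable [IsAlgClosed k] [CharZero k] {D : Dat k N r}

/-- Compare `Pool.Agent.VK3.line`: only the coordinates `x_i`, `x'_i` move. -/
theorem line (h : D.Valid) (i : Fin N) {s t n w : k} {u x x' : Fin N → k} (hn0 : n ≠ 0)
    (hn : n ^ 3 = u i ^ 2) (hF : ∀ j, D.ff j t (x' j) = u j ^ 2 * D.ff j s (x j))
    (hm : x' i - n * x i ≠ 0)
    (hw : 3 * n ^ 2 * (x' i - n * x i) * (x i + w) =
      -(3 * n * (x' i - n * x i) ^ 2 + n * aeval t (D.al i) - n ^ 3 * aeval s (D.al i))) :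
    D.cl5 s t u x x' + D.cl5 s t u (Function.update x i w)
      (Function.update x' i (n * w + (x' i - n * x i))) = 0 := by
  -- constants
  obtain ⟨m₀, hm₀⟩ : ∃ m₀ : k, m₀ = x' i - n * x i := ⟨_, rfl⟩
  obtain ⟨x₁, hx₁⟩ : ∃ x₁ : k, x₁ = x i := ⟨_, rfl⟩
  have hx2 : x' i = n * x₁ + m₀ := by rw [hm₀, hx₁]; ring
  rw [← hm₀, ← hx₁] at hw
  rw [← hm₀] at hm ⊢
  have h3 : (3 : k) ≠ 0 := by norm_num
  -- the product of the roots
  have hprod : 3 * n ^ 2 * m₀ * (x₁ * w) =
      m₀ ^ 3 + aeval t (D.al i) * m₀ + aeval t (D.be i) - n ^ 3 * aeval s (D.be i) := by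
    have hF' : (n * x₁ + m₀) ^ 3 + aeval t (D.al i) * (n * x₁ + m₀) + aeval t (D.be i) =
        n ^ 3 * (x₁ ^ 3 + aeval s (D.al i) * x₁ + aeval s (D.be i)) := by
      rw [hn, ← hx2, hx₁]; exact hF i
    linear_combination x₁ * hw - hF'
  obtain ⟨φ, hφ⟩ : ∃ φ : k →+* Om k, φ = algebraMap k (Om k) := ⟨_, rfl⟩
  have hφA : ∀ c : k, aeval (φ c) (D.al i) = φ (aeval c (D.al i)) := fun c => by
    rw [hφ]; exact Polynomial.aeval_algebraMap_apply (Om k) c _
  have hφB : ∀ c : k, aeval (φ c) (D.be i) = φ (aeval c (D.be i)) := fun c => by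
    rw [hφ]; exact Polynomial.aeval_algebraMap_apply (Om k) c _
  have hφF : ∀ (j : Fin N) (c y : k), D.ff j (φ c) (φ y) = φ (D.ff j c y) := fun j c y => by
    rw [hφ]; exact ff_const j c y
  have hat : ∀ (v : Place k (Om k)) (c : k), v.At (φ c) c := by
    intro v c
    rw [hφ]
    exact Place.at_const c
  -- the parameter
  obtain ⟨M, hM⟩ : ∃ M : Om k, M = φ m₀ + (1 - tt k) / tt k := ⟨_, rfl⟩
  have hM0 : M ≠ 0 := by
    rw [hM, hφ]
    exact line_M_ne m₀
  have hφn : φ n ≠ 0 := by rw [Ne, map_eq_zero]; exact hn0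
  have hφ3 : φ 3 ≠ 0 := by rw [Ne, map_eq_zero]; exact h3
  -- the quadratic polynomial
  obtain ⟨X₁, X₂, hsum, hpr⟩ := line_roots (α := φ 3 * φ n ^ 2 * M)
    (φ 3 * φ n * M ^ 2 + φ (n * aeval t (D.al i) - n ^ 3 * aeval s (D.al i)))
    (M ^ 3 + φ (aeval t (D.al i)) * M + φ (aeval t (D.be i) - n ^ 3 * aeval s (D.be i)))
    (mul_ne_zero (mul_ne_zero hφ3 (pow_ne_zero 2 hφn)) hM0)
  have hX : ∀ j : Fin 2, φ 3 * φ n ^ 2 * M * (![X₁, X₂] j) ^ 2 +
      (φ 3 * φ n * M ^ 2 + φ (n * aeval t (D.al i) - n ^ 3 * aeval s (D.al i))) *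
        (![X₁, X₂] j) +
      (M ^ 3 + φ (aeval t (D.al i)) * M + φ (aeval t (D.be i) - n ^ 3 * aeval s (D.be i))) =
      0 := by
    intro j
    fin_cases j
    · simp only [Fin.zero_eta, Matrix.cons_val_zero]
      linear_combination X₁ * hsum - hpr
    · simp only [Fin.mk_one, Matrix.cons_val_one, Matrix.cons_val_fin_one]
      linear_combination X₂ * hsum - hpr
  have hFX : ∀ j : Fin 2, D.ff i (φ t) (φ n * ![X₁, X₂] j + M) =
      φ (u i) ^ 2 * D.ff i (φ s) (![X₁, X₂] j) := by
    intro j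
    have h1 := hX j
    have h2 : φ (u i) ^ 2 = φ n ^ 3 := by rw [← map_pow, ← map_pow, hn]
    have h4 : φ 3 = 3 := map_ofNat φ 3
    unfold Dat.ff
    rw [hφA, hφA, hφB, hφB, h2]
    rw [map_sub, map_sub, map_mul, map_mul, map_mul, map_pow, h4] at h1
    linear_combination h1
  -- the family
  obtain ⟨P, hPd⟩ : ∃ P : Fin 2 → Fin N → Om k,
      P = fun j => Function.update (fun l => φ (x l)) i (![X₁, X₂] j) := ⟨_, rfl⟩
  obtain ⟨Q, hQd⟩ : ∃ Q : Fin 2 → Fin N → Om k,
      Q = fun j => Function.update (fun l => φ (x' l)) i (φ n * ![X₁, X₂] j + M) := ⟨_, rfl⟩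
  have hPi : ∀ j, P j i = ![X₁, X₂] j := fun j => by rw [hPd]; exact Function.update_self _ _ _
  have hQi : ∀ j, Q j i = φ n * ![X₁, X₂] j + M := fun j => by
    rw [hQd]; exact Function.update_self _ _ _
  have hPl : ∀ j l, l ≠ i → P j l = φ (x l) := fun j l hl => by
    rw [hPd]; exact Function.update_of_ne hl _ _
  have hQl : ∀ j l, l ≠ i → Q j l = φ (x' l) := fun j l hl => by
    rw [hQd]; exact Function.update_of_ne hl _ _
  have hFF : ∀ j l, D.ff l (φ t) (Q j l) = φ (u l) ^ 2 * D.ff l (φ s) (P j l) := by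
    intro j l
    by_cases hl : l = i
    · rw [hl, hPi, hQi]
      exact hFX j
    · rw [hPl j l hl, hQl j l hl, hφF, hφF, hF l, map_mul, map_pow]
  have hY : ∀ j : Fin 2, ∃ y : Fin r → Om k, D.On (φ s) (P j) y := by
    intro j
    choose y hy using fun b : Fin r => IsAlgClosed.exists_pow_nat_eq
      (∏ l with D.blk l = b, D.ff l (φ s) (P j l)) (n := 2) (by norm_num)
    exact ⟨y, hy⟩
  choose Y hY using hY
  have hbr := bridgeCL (D := D) (I := Fin 2) (fun j => aff (φ s) (P j) (Y j))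
    (fun j => aff (φ t) (Q j) (D.up (fun l => φ (u l)) (Y j)))
    (fun j => (onX_aff _ _ _).2 (hY j))
    (fun j => (onX_aff _ _ _).2 (on_up (hY j) (hFF j)))
    0 1 0 (D.cl5 s t u x x' + D.cl5 s t u (Function.update x i w)
      (Function.update x' i (n * w + m₀))) ?_ ?_
  · exact hbr.symm
  · -- above `0`
    intro v hv
    have hMr : M ∉ v.ring := by
      intro hMr
      apply param_zero hv
      have : (1 - tt k) / tt k = M - φ m₀ := by rw [hM]; ring
      rw [this]
      exact sub_mem hMr (hat v m₀).mem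
    refine ⟨fun _ => 0, fun j => ?_, by simp⟩
    refine value_inf h (hY j) (hFF j) (hat v s) (hat v t) ⟨i, Or.inl ?_⟩
    rw [hPi]
    exact line_inf_aux hMr (hat v 3) (hat v n) (hat v _) (hat v _) (hat v _) (hX j)
  · -- above `1`
    intro v hv
    have hMv : v.At M m₀ := by
      have h1 := (hat v m₀).add (param_one hv)
      rw [← hM, add_zero] at h1
      exact h1
    have hα := ((hat v 3).mul ((hat v n).pow 2)).mul hMv
    have hβ := (((hat v 3).mul (hat v n)).mul (hMv.pow 2)).add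
      (hat v (n * aeval t (D.al i) - n ^ 3 * aeval s (D.al i)))
    have hγ := ((hMv.pow 3).add ((hat v (aeval t (D.al i))).mul hMv)).add
      (hat v (aeval t (D.be i) - n ^ 3 * aeval s (D.be i)))
    have hα' : 3 * n ^ 2 * m₀ ≠ 0 := mul_ne_zero (mul_ne_zero h3 (pow_ne_zero 2 hn0)) hm
    obtain ⟨c₁, hc₁⟩ := DCI57.exists_at v (line_fin_aux hα hβ hγ hα' (hX 0))
    obtain ⟨c₂, hc₂⟩ := DCI57.exists_at v (line_fin_aux hα hβ hγ hα' (hX 1))
    have hval : ∀ (j : Fin 2) (c : k), v.At (![X₁, X₂] j) c →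
        D.VCL v (aff (φ s) (P j) (Y j)) (aff (φ t) (Q j) (D.up (fun l => φ (u l)) (Y j)))
          (D.cl5 s t u (Function.update x i c) (Function.update x' i (n * c + m₀))) := by
      intro j c hc
      refine value_fin h (hY j) (hFF j) (hat v s) (hat v t) (fun l => hat v (u l)) ?_ ?_
      · intro l
        by_cases hl : l = i
        · rw [hl, hPi, Function.update_self]
          exact hc
        · rw [hPl j l hl, Function.update_of_ne hl]
          exact hat v _
      · intro l
        by_cases hl : l = i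
        · rw [hl, hQi, Function.update_self]
          exact ((hat v n).mul hc).add hMv
        · rw [hQl j l hl, Function.update_of_ne hl]
          exact hat v _
    have hv1 := hval 0 c₁ hc₁
    have hv2 := hval 1 c₂ hc₂
    simp only [Matrix.cons_val_zero, Matrix.cons_val_one, Matrix.cons_val_fin_one] at hc₁ hc₂
    have hs := (hα.mul (hc₁.add hc₂)).unique (hsum ▸ hβ.neg)
    have hp := (hα.mul (hc₁.mul hc₂)).unique (hpr ▸ hγ)
    have hs' : c₁ + c₂ = x₁ + w := by
      apply mul_left_cancel₀ hα'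
      linear_combination hs - hw
    have hp' : c₁ * c₂ = x₁ * w := by
      apply mul_left_cancel₀ hα'
      linear_combination hp - hprod
    have hxx : Function.update x i x₁ = x := by rw [hx₁]; exact Function.update_eq_self i x
    have hxx' : Function.update x' i (n * x₁ + m₀) = x' := by
      rw [← hx2]; exact Function.update_eq_self i x'
    refine ⟨![D.cl5 s t u (Function.update x i c₁) (Function.update x' i (n * c₁ + m₀)),
      D.cl5 s t u (Function.update x i c₂) (Function.update x' i (n * c₂ + m₀))], ?_, ?_⟩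
    · intro j
      fin_cases j
      · exact hv1
      · exact hv2
    · rw [Fin.sum_univ_two]
      simp only [Matrix.cons_val_zero, Matrix.cons_val_one, Matrix.cons_val_fin_one]
      have hz : (c₁ - x₁) * (c₁ - w) = 0 := by
        linear_combination c₁ * hs' - hp'
      rcases mul_eq_zero.1 hz with h1 | h1
      · have e1 : c₁ = x₁ := sub_eq_zero.1 h1
        have e2 : c₂ = w := by
          rw [e1] at hs'
          exact add_left_cancel hs'
        rw [e1, e2, hxx, hxx']
      · have e1 : c₁ = w := sub_eq_zero.1 h1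
        have e2 : c₂ = x₁ := by
          rw [e1] at hs'
          linear_combination hs'
        rw [e1, e2, hxx, hxx', add_comm]

end Pool.Agent.VFP
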