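import Pool.Agent.VFP.Bridge
import Pool.Agent.VFP.Value
import Pool.Agent.VK3.Line0

/-!
# The line through the origin
-/

set_option autoImplicit false

noncomputable section

namespace Pool.Agent.VFP

open Pool.Agent.ZCyc Polynomial

universe u

variable {k : Type u} [Field k] {N r : ℕ}

private theorem exists_y [IsAlgClosed k] (D : Dat k N r) (s : Om k) (x : Fin N → Om k) :
    ∃ y : Fin r → Om k, D.On s x y := by
  have h1 : ∀ b, ∃ y : Om k, y ^ 2 = ∏ i with D.blk i = b, D.ff i s (x i) := fun b =>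
    IsAlgClosed.exists_pow_nat_eq _ (by norm_num)
  choose y hy using h1
  exact ⟨y, hy⟩

private theorem upd_at {v : Place k (Om k)} (i : Fin N) (x : Fin N → k) {X : Om k} {X₀ : k}
    (hX : v.At X X₀) (j : Fin N) :
    v.At (Function.update (fun j => algebraMap k (Om k) (x j)) i X j)
      (Function.update x i X₀ j) := by
  by_cases hj : j = i
  · rw [hj, Function.update_self, Function.update_self]
    exact hX
  · rw [Function.update_of_ne hj, Function.update_of_ne hj]
    exact Place.at_const _

private theorem upd_F {D : Dat k N r} {i : Fin N} {s t : k} {u x x' : Fin N → k}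
    (hF : ∀ j, D.ff j t (x' j) = u j ^ 2 * D.ff j s (x j)) {X X' : Om k}
    (hX : D.ff i (algebraMap k (Om k) t) X' =
      algebraMap k (Om k) (u i) ^ 2 * D.ff i (algebraMap k (Om k) s) X) (j : Fin N) :
    D.ff j (algebraMap k (Om k) t) (Function.update (fun j => algebraMap k (Om k) (x' j)) i X' j) =
      algebraMap k (Om k) (u j) ^ 2 * D.ff j (algebraMap k (Om k) s)
        (Function.update (fun j => algebraMap k (Om k) (x j)) i X j) := by
  by_cases hj : j = i
  · rw [hj, Function.update_self, Function.update_self]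
    exact hX
  · rw [Function.update_of_ne hj, Function.update_of_ne hj, ff_const, ff_const, hF j, map_mul,
      map_pow]

private theorem ff_map (D : Dat k N r) (i : Fin N) (s : k) (X : Om k) :
    D.ff i (algebraMap k (Om k) s) X = X ^ 3 + algebraMap k (Om k) (aeval s (D.al i)) * X +
      algebraMap k (Om k) (aeval s (D.be i)) := by
  rw [Dat.ff, aeval_algebraMap_apply, aeval_algebraMap_apply]

variable [IsAlgClosed k] [CharZero k] {D : Dat k N r}

/-- the first point of the family -/
private def fP (i : Fin N) (s : k) (x : Fin N → k) (X : Om k) (y : Fin r → Om k) :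
    Crd N r (Om k) :=
  aff (algebraMap k (Om k) s) (Function.update (fun j => algebraMap k (Om k) (x j)) i X) y

/-- the second point of the family -/
private def fQ (D : Dat k N r) (i : Fin N) (t : k) (u x' : Fin N → k) (X' : Om k)
    (y : Fin r → Om k) : Crd N r (Om k) :=
  aff (algebraMap k (Om k) t) (Function.update (fun j => algebraMap k (Om k) (x' j)) i X')
    (D.up (fun j => algebraMap k (Om k) (u j)) y)

private theorem vcl_inf (h : D.Valid) {v : Place k (Om k)} {i : Fin N} {s t : k}
    {u x x' : Fin N → k} (hF : ∀ j, D.ff j t (x' j) = u j ^ 2 * D.ff j s (x j)) {X X' : Om k}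
    (hX : D.ff i (algebraMap k (Om k) t) X' =
      algebraMap k (Om k) (u i) ^ 2 * D.ff i (algebraMap k (Om k) s) X) {y : Fin r → Om k}
    (hy : D.On (algebraMap k (Om k) s)
      (Function.update (fun j => algebraMap k (Om k) (x j)) i X) y) (hXr : X ∉ v.ring) :
    D.VCL v (fP i s x X y) (fQ D i t u x' X' y) 0 := by
  refine value_inf h hy (upd_F hF hX) (Place.at_const s) (Place.at_const t) ⟨i, Or.inl ?_⟩
  rw [Function.update_self]
  exact hXr

private theorem vcl_fin (h : D.Valid) {v : Place k (Om k)} {i : Fin N} {s t : k}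
    {u x x' : Fin N → k} (hF : ∀ j, D.ff j t (x' j) = u j ^ 2 * D.ff j s (x j)) {X X' : Om k}
    (hX : D.ff i (algebraMap k (Om k) t) X' =
      algebraMap k (Om k) (u i) ^ 2 * D.ff i (algebraMap k (Om k) s) X) {y : Fin r → Om k}
    (hy : D.On (algebraMap k (Om k) s)
      (Function.update (fun j => algebraMap k (Om k) (x j)) i X) y) (hX₀ : v.At X (x i))
    (hX₀' : v.At X' (x' i)) :
    D.VCL v (fP i s x X y) (fQ D i t u x' X' y) (D.cl5 s t u x x') := by
  have h1 := value_fin h hy (upd_F hF hX) (Place.at_const s) (Place.at_const t)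
    (fun j => Place.at_const (u j)) (upd_at i x hX₀) (upd_at i x' hX₀')
  rw [Function.update_eq_self, Function.update_eq_self] at h1
  exact h1

/-- Compare `Pool.Agent.VK3.line0` (and use `Pool.Agent.VK3.roots_degenerate` or copy it). -/
theorem line0 (h : D.Valid) (i : Fin N) {s t n : k} {u x x' : Fin N → k} (hn0 : n ≠ 0)
    (hn : n ^ 3 = u i ^ 2) (hF : ∀ j, D.ff j t (x' j) = u j ^ 2 * D.ff j s (x j))
    (hx : x' i = n * x i) : D.cl5 s t u x x' = 0 := by
  -- the line in coordinates
  have hlin : (n * aeval t (D.al i) - n ^ 3 * aeval s (D.al i)) * x i +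
      (aeval t (D.be i) - n ^ 3 * aeval s (D.be i)) = 0 := by
    have hFi := hF i
    rw [hx] at hFi
    simp only [Dat.ff] at hFi
    linear_combination hFi + (x i ^ 3 + aeval s (D.al i) * x i + aeval s (D.be i)) * hn * (-1)
  -- the function `m`
  obtain ⟨m, hm⟩ : ∃ m : Om k, m = (1 - tt k) / tt k := ⟨_, rfl⟩
  have ht0 : tt k ≠ 0 := by simpa using tt_ne (0 : k)
  have ht1 : 1 - tt k ≠ 0 := by
    intro h1
    exact tt_ne (1 : k) (by rw [map_one]; exact (sub_eq_zero.1 h1).symm)
  have hm0 : m ≠ 0 := by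
    rw [hm]
    exact div_ne_zero ht1 ht0
  have hm1 : ∀ v : Place k (Om k), v.At (tt k) 1 → v.At m 0 := by
    intro v hv
    rw [hm]
    exact param_one hv
  have hm2 : ∀ v : Place k (Om k), v.At (tt k) 0 → v.At m⁻¹ 0 := by
    intro v hv
    rw [hm]
    exact inv_at_of_not_mem (param_zero hv)
  have hn' : algebraMap k (Om k) n ^ 3 = algebraMap k (Om k) (u i) ^ 2 := by
    rw [← map_pow, hn, map_pow]
  have hn0' : algebraMap k (Om k) n ≠ 0 := by simpa using hn0
  by_cases hβ₀ : n * aeval t (D.al i) - n ^ 3 * aeval s (D.al i) = 0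
  · -- the line is contained in the surface
    have hγ₀ : aeval t (D.be i) - n ^ 3 * aeval s (D.be i) = 0 := by
      rw [hβ₀, zero_mul, zero_add] at hlin
      exact hlin
    obtain ⟨X, hX⟩ : ∃ X : Om k, X = algebraMap k (Om k) (x i) + m := ⟨_, rfl⟩
    obtain ⟨y, hy⟩ := exists_y D (algebraMap k (Om k) s)
      (Function.update (fun j => algebraMap k (Om k) (x j)) i X)
    have hβ₁ := congrArg (algebraMap k (Om k)) hβ₀
    have hγ₁ := congrArg (algebraMap k (Om k)) hγ₀
    simp only [map_sub, map_mul, map_pow, map_zero] at hβ₁ hγ₁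
    have hFX : D.ff i (algebraMap k (Om k) t) (algebraMap k (Om k) n * X) =
        algebraMap k (Om k) (u i) ^ 2 * D.ff i (algebraMap k (Om k) s) X := by
      rw [ff_map, ff_map]
      linear_combination X * hβ₁ + hγ₁ + (X ^ 3 + algebraMap k (Om k) (aeval s (D.al i)) * X +
        algebraMap k (Om k) (aeval s (D.be i))) * hn'
    have hB := bridgeCL (D := D) (I := Unit) (fun _ => fP i s x X y)
      (fun _ => fQ D i t u x' (algebraMap k (Om k) n * X) y)
      (fun _ => (onX_aff _ _ _).2 hy) (fun _ => (onX_aff _ _ _).2 (on_up hy (upd_F hF hFX)))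
      0 1 0 (D.cl5 s t u x x') ?_ ?_
    · exact hB.symm
    · intro v hv
      have hXr : X ∉ v.ring := by
        intro hXr
        have h1 : m ∈ v.ring := by
          have := sub_mem hXr (v.const_mem (x i))
          rw [hX] at this
          simpa using this
        rw [hm] at h1
        exact param_zero hv h1
      exact ⟨fun _ => 0, fun _ => vcl_inf h hF hFX hy hXr, by simp⟩
    · intro v hv
      have hX1 : v.At X (x i) := by
        have := (Place.at_const (v := v) (x i)).add (hm1 v hv)
        rw [hX]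
        simpa using this
      refine ⟨fun _ => D.cl5 s t u x x', fun _ => vcl_fin h hF hFX hy hX1 ?_, by simp⟩
      rw [hx]
      exact (Place.at_const (v := v) n).mul hX1
  · -- the line moves to infinity
    obtain ⟨α, hα⟩ : ∃ α : Om k, α = 3 * algebraMap k (Om k) n ^ 2 * m := ⟨_, rfl⟩
    obtain ⟨β, hβ⟩ : ∃ β : Om k, β = 3 * algebraMap k (Om k) n * m ^ 2 +
      algebraMap k (Om k) (n * aeval t (D.al i) - n ^ 3 * aeval s (D.al i)) := ⟨_, rfl⟩
    obtain ⟨γ, hγ⟩ : ∃ γ : Om k, γ = m ^ 3 + algebraMap k (Om k) (aeval t (D.al i)) * m +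
      algebraMap k (Om k) (aeval t (D.be i) - n ^ 3 * aeval s (D.be i)) := ⟨_, rfl⟩
    have hα0 : α ≠ 0 := by
      rw [hα]
      exact mul_ne_zero (mul_ne_zero (by norm_num) (pow_ne_zero 2 hn0')) hm0
    obtain ⟨z, hz⟩ := IsAlgClosed.exists_eq_mul_self ((β / α) ^ 2 - 4 * (γ / α))
    obtain ⟨X₁, hX₁⟩ : ∃ X₁ : Om k, X₁ = (-(β / α) + z) / 2 := ⟨_, rfl⟩
    obtain ⟨X₂, hX₂⟩ : ∃ X₂ : Om k, X₂ = (-(β / α) - z) / 2 := ⟨_, rfl⟩
    have e1 : α * (X₁ + X₂) = -β := by
      rw [hX₁, hX₂]
      field_simp
      ring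
    have e2 : α * (X₁ * X₂) = γ := by
      have h1 : X₁ * X₂ = γ / α := by
        rw [hX₁, hX₂]
        linear_combination (1 / 4) * hz
      rw [h1]
      field_simp
    have q1 : α * X₁ ^ 2 + β * X₁ + γ = 0 := by
      linear_combination X₁ * e1 - e2
    have q2 : α * X₂ ^ 2 + β * X₂ + γ = 0 := by
      linear_combination X₂ * e1 - e2
    have hFX : ∀ X : Om k, α * X ^ 2 + β * X + γ = 0 →
        D.ff i (algebraMap k (Om k) t) (algebraMap k (Om k) n * X + m) =
          algebraMap k (Om k) (u i) ^ 2 * D.ff i (algebraMap k (Om k) s) X := by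
      intro X hX
      rw [hα, hβ, hγ] at hX
      simp only [map_sub, map_mul, map_pow] at hX
      rw [ff_map, ff_map]
      linear_combination hX + (X ^ 3 + algebraMap k (Om k) (aeval s (D.al i)) * X +
        algebraMap k (Om k) (aeval s (D.be i))) * hn'
    have hinf : ∀ v : Place k (Om k), v.At (tt k) 0 → ∀ X : Om k, α * X ^ 2 + β * X + γ = 0 →
        X ∉ v.ring := by
      intro v hv X hX hXr
      obtain ⟨c, hc⟩ := DCI57.exists_at v hXr
      have hi := hm2 v hv
      have h1 : v.At (algebraMap k (Om k) (3 * n ^ 2) * (X ^ 2 * m⁻¹ ^ 2) +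
          algebraMap k (Om k) (3 * n) * (X * m⁻¹) +
          algebraMap k (Om k) (n * aeval t (D.al i) - n ^ 3 * aeval s (D.al i)) *
            (X * m⁻¹ ^ 3) +
          algebraMap k (Om k) 1 + algebraMap k (Om k) (aeval t (D.al i)) * m⁻¹ ^ 2 +
          algebraMap k (Om k) (aeval t (D.be i) - n ^ 3 * aeval s (D.be i)) * m⁻¹ ^ 3)
          (3 * n ^ 2 * (c ^ 2 * 0 ^ 2) + 3 * n * (c * 0) +
            (n * aeval t (D.al i) - n ^ 3 * aeval s (D.al i)) * (c * 0 ^ 3) + 1 +
            aeval t (D.al i) * 0 ^ 2 +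
            (aeval t (D.be i) - n ^ 3 * aeval s (D.be i)) * 0 ^ 3) :=
        ((((((Place.at_const _).mul ((hc.pow 2).mul (hi.pow 2))).add
          ((Place.at_const _).mul (hc.mul hi))).add
          ((Place.at_const _).mul (hc.mul (hi.pow 3)))).add (Place.at_const _)).add
          ((Place.at_const _).mul (hi.pow 2))).add ((Place.at_const _).mul (hi.pow 3))
      have h2 : algebraMap k (Om k) (3 * n ^ 2) * (X ^ 2 * m⁻¹ ^ 2) +
          algebraMap k (Om k) (3 * n) * (X * m⁻¹) +
          algebraMap k (Om k) (n * aeval t (D.al i) - n ^ 3 * aeval s (D.al i)) *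
            (X * m⁻¹ ^ 3) +
          algebraMap k (Om k) 1 + algebraMap k (Om k) (aeval t (D.al i)) * m⁻¹ ^ 2 +
          algebraMap k (Om k) (aeval t (D.be i) - n ^ 3 * aeval s (D.be i)) * m⁻¹ ^ 3 = 0 := by
        have h3 : algebraMap k (Om k) (3 * n ^ 2) * (X ^ 2 * m⁻¹ ^ 2) +
          algebraMap k (Om k) (3 * n) * (X * m⁻¹) +
          algebraMap k (Om k) (n * aeval t (D.al i) - n ^ 3 * aeval s (D.al i)) *
            (X * m⁻¹ ^ 3) +
          algebraMap k (Om k) 1 + algebraMap k (Om k) (aeval t (D.al i)) * m⁻¹ ^ 2 +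
          algebraMap k (Om k) (aeval t (D.be i) - n ^ 3 * aeval s (D.be i)) * m⁻¹ ^ 3 =
            (α * X ^ 2 + β * X + γ) / m ^ 3 := by
          rw [hα, hβ, hγ]
          have h4 : algebraMap k (Om k) (3 * n ^ 2) = 3 * algebraMap k (Om k) n ^ 2 := by
            rw [map_mul, map_pow, map_ofNat]
          have h5 : algebraMap k (Om k) (3 * n) = 3 * algebraMap k (Om k) n := by
            rw [map_mul, map_ofNat]
          rw [h4, h5, map_one]
          field_simp
          ring
        rw [h3, hX, zero_div]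
      rw [h2] at h1
      have h3 := h1.unique (by simpa using Place.at_const (v := v) (0 : k))
      simp at h3
    obtain ⟨y₁, hy₁⟩ := exists_y D (algebraMap k (Om k) s)
      (Function.update (fun j => algebraMap k (Om k) (x j)) i X₁)
    obtain ⟨y₂, hy₂⟩ := exists_y D (algebraMap k (Om k) s)
      (Function.update (fun j => algebraMap k (Om k) (x j)) i X₂)
    have hB := bridgeCL (D := D) (I := Fin 2) ![fP i s x X₁ y₁, fP i s x X₂ y₂]
      ![fQ D i t u x' (algebraMap k (Om k) n * X₁ + m) y₁,
        fQ D i t u x' (algebraMap k (Om k) n * X₂ + m) y₂]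
      (by
        intro j
        fin_cases j
        · exact (onX_aff _ _ _).2 hy₁
        · exact (onX_aff _ _ _).2 hy₂)
      (by
        intro j
        fin_cases j
        · exact (onX_aff _ _ _).2 (on_up hy₁ (upd_F hF (hFX X₁ q1)))
        · exact (onX_aff _ _ _).2 (on_up hy₂ (upd_F hF (hFX X₂ q2)))) 0 1 0
      (D.cl5 s t u x x') ?_ ?_
    · exact hB.symm
    · intro v hv
      refine ⟨![0, 0], ?_, by simp⟩
      intro j
      fin_cases j
      · exact vcl_inf h hF (hFX X₁ q1) hy₁ (hinf v hv X₁ q1)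
      · exact vcl_inf h hF (hFX X₂ q2) hy₂ (hinf v hv X₂ q2)
    · intro v hv
      have hmv := hm1 v hv
      have hαv : v.At α 0 := by
        have h1 := (Place.at_const (v := v) (3 * n ^ 2)).mul hmv
        rw [mul_zero, map_mul, map_pow, map_ofNat] at h1
        rw [hα]
        exact h1
      have hβv : v.At β (n * aeval t (D.al i) - n ^ 3 * aeval s (D.al i)) := by
        have h1 := ((Place.at_const (v := v) (3 * n)).mul (hmv.pow 2)).add
          (Place.at_const (v := v) (n * aeval t (D.al i) - n ^ 3 * aeval s (D.al i)))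
        rw [zero_pow two_ne_zero, mul_zero, zero_add, map_mul, map_ofNat] at h1
        rw [hβ]
        exact h1
      have hγv : v.At γ (aeval t (D.be i) - n ^ 3 * aeval s (D.be i)) := by
        have h1 := ((hmv.pow 3).add
          ((Place.at_const (v := v) (aeval t (D.al i))).mul hmv)).add
          (Place.at_const (v := v) (aeval t (D.be i) - n ^ 3 * aeval s (D.be i)))
        rw [zero_pow three_ne_zero, mul_zero, zero_add, zero_add] at h1
        rw [hγ]
        exact h1
      have hx₀ : -(aeval t (D.be i) - n ^ 3 * aeval s (D.be i)) /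
          (n * aeval t (D.al i) - n ^ 3 * aeval s (D.al i)) = x i := by
        rw [div_eq_iff hβ₀]
        linear_combination -hlin
      have hdeg := VK3.roots_degenerate hα0 hαv hβv hγv hβ₀ e1 e2
      rw [hx₀] at hdeg
      have hfin : ∀ {X : Om k}, v.At X (x i) →
          v.At (algebraMap k (Om k) n * X + m) (x' i) := by
        intro X hX
        have h1 := ((Place.at_const (v := v) n).mul hX).add hmv
        rw [add_zero, ← hx] at h1
        exact h1
      rcases hdeg with ⟨hX₁r, hX₂v⟩ | ⟨hX₂r, hX₁v⟩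
      · refine ⟨![0, D.cl5 s t u x x'], ?_, by simp⟩
        intro j
        fin_cases j
        · exact vcl_inf h hF (hFX X₁ q1) hy₁ hX₁r
        · exact vcl_fin h hF (hFX X₂ q2) hy₂ hX₂v (hfin hX₂v)
      · refine ⟨![D.cl5 s t u x x', 0], ?_, by simp⟩
        intro j
        fin_cases j
        · exact vcl_fin h hF (hFX X₁ q1) hy₁ hX₁v (hfin hX₁v)
        · exact vcl_inf h hF (hFX X₂ q2) hy₂ hX₂r

end Pool.Agent.VFP
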