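import Pool.Agent.VFP.Even

/-!
# The value of psi at the given point
-/

set_option autoImplicit false

noncomputable section

namespace Pool.Agent.VFP

open Pool.Agent.ZCyc Polynomial

universe u

variable {k : Type u} [Field k] {N r : ℕ}

variable [IsAlgClosed k] [CharZero k] {D : Dat k N r}

omit [CharZero k] in
/-- the value of the root of a monic quadratic polynomial -/
private theorem exists_at_quad {v : Place k (Om k)} {f G H : Om k} {g h : k} (hG : v.At G g)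
    (hH : v.At H h) (hf : f ^ 2 - G * f + H = 0) :
    ∃ c : k, v.At f c ∧ c ^ 2 - g * c + h = 0 := by
  obtain ⟨c, hc⟩ := DCI57.exists_at v (mem_of_quad hG.mem hH.mem hf)
  refine ⟨c, hc, ?_⟩
  have h1 := ((hc.pow 2).sub (hG.mul hc)).add hH
  rw [hf] at h1
  exact h1.unique at_zero

/-- At a place with `τ = 0`, `ρ = 1` the value of `psi` is its value at the given point: use
`psi_sym`, `psi_even`. -/
theorem pv_zero (h : D.Valid) {s t : k} {Z Xi Th : Fin N → k} (hs : ∀ i, D.dsc i s ≠ 0)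
    (ht : ∀ i, D.dsc i t ≠ 0) (hZ : ∀ i, Z i ≠ 0) (hW : D.Wd s t Z Xi Th)
    (hTh : ∏ i, Th i ≠ 0) (hT : ∏ i, (Z i - D.dsc i s * D.dsc i t / Z i) ≠ 0)
    {v : Place k (Om k)} {s' t' : Om k} {Z' Xi' Th' : Fin N → Om k}
    (h1 : v.At (s' + t') (s + t)) (h2 : v.At (s' * t') (s * t)) (hXi : ∀ i, v.At (Xi' i) (Xi i))
    (hTh' : ∀ i, v.At (Th' i ^ 2) (Th i ^ 2)) (hTh1 : v.At (∏ i, Th' i) (∏ i, Th i))
    (hW' : D.Wd s' t' Z' Xi' Th') (hZ' : ∀ i, Z' i ≠ 0)
    (hT' : v.At (∏ i, (Z' i - D.dsc i s' * D.dsc i t' / Z' i))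
      (∏ i, (Z i - D.dsc i s * D.dsc i t / Z i))) :
    PV D v s' t' Z' Xi' Th' (D.psi s t Z Xi Th) := by
  -- the values of `s'` and `t'`
  obtain ⟨s0, hs0, hq⟩ := exists_at_quad h1 h2 (f := s') (by ring)
  obtain ⟨t0, ht0, hst⟩ : ∃ t0 : k, v.At t' t0 ∧ ((s0 = s ∧ t0 = t) ∨ (s0 = t ∧ t0 = s)) := by
    refine ⟨s + t - s0, ?_, ?_⟩
    · have := h1.sub hs0
      rwa [add_sub_cancel_left] at this
    · have h3 : (s0 - s) * (s0 - t) = 0 := by linear_combination hq
      rcases mul_eq_zero.1 h3 with h4 | h4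
      · left
        rw [sub_eq_zero] at h4
        exact ⟨h4, by rw [h4]; ring⟩
      · right
        rw [sub_eq_zero] at h4
        exact ⟨h4, by rw [h4]; ring⟩
  have hd0 : ∀ i, D.dsc i s0 * D.dsc i t0 = D.dsc i s * D.dsc i t := by
    intro i
    rcases hst with ⟨e1, e2⟩ | ⟨e1, e2⟩
    · rw [e1, e2]
    · rw [e1, e2, mul_comm]
  have hss : ∀ i, D.dsc i s0 ≠ 0 := by
    intro i
    rcases hst with ⟨e1, e2⟩ | ⟨e1, e2⟩
    · rw [e1]; exact hs i
    · rw [e1]; exact ht i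
  have htt : ∀ i, D.dsc i t0 ≠ 0 := by
    intro i
    rcases hst with ⟨e1, e2⟩ | ⟨e1, e2⟩
    · rw [e2]; exact ht i
    · rw [e2]; exact hs i
  -- the values of `Th'`
  have hth : ∀ i, ∃ d : k, v.At (Th' i) d ∧ d ^ 2 = Th i ^ 2 := fun i =>
    exists_sq_at rfl (hTh' i)
  choose th hth1 hth2 using hth
  -- the values of `Z'`
  have hdd : ∀ i, v.At (D.dsc i s' * D.dsc i t') (D.dsc i s * D.dsc i t) := by
    intro i
    rw [← hd0 i]
    exact (dsc_at i hs0).mul (dsc_at i ht0)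
  have hz : ∀ i, ∃ z : k, v.At (Z' i) z ∧ (z = Z i ∨ z = D.dsc i s * D.dsc i t / Z i) := by
    intro i
    have hG : v.At (4 * Xi' i ^ 3 - 12 * aeval s' (D.al i) * aeval t' (D.al i) * Xi' i +
        54 * aeval s' (D.be i) * aeval t' (D.be i) - Th' i ^ 2)
        (4 * Xi i ^ 3 - 12 * aeval s0 (D.al i) * aeval t0 (D.al i) * Xi i +
        54 * aeval s0 (D.be i) * aeval t0 (D.be i) - Th i ^ 2) :=
      ((((at_num 4).mul ((hXi i).pow 3)).sub ((((at_num 12).mul (at_evalc hs0 _)).mul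
        (at_evalc ht0 _)).mul (hXi i))).add (((at_num 54).mul (at_evalc hs0 _)).mul
        (at_evalc ht0 _))).sub (hTh' i)
    obtain ⟨z, hz1, hz2⟩ := exists_at_quad hG (hdd i) (hW' i)
    refine ⟨z, hz1, ?_⟩
    have hsym : (4 * Xi i ^ 3 - 12 * aeval s0 (D.al i) * aeval t0 (D.al i) * Xi i +
        54 * aeval s0 (D.be i) * aeval t0 (D.be i) - Th i ^ 2) =
        (4 * Xi i ^ 3 - 12 * aeval s (D.al i) * aeval t (D.al i) * Xi i +
        54 * aeval s (D.be i) * aeval t (D.be i) - Th i ^ 2) := by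
      rcases hst with ⟨e1, e2⟩ | ⟨e1, e2⟩
      · rw [e1, e2]
      · rw [e1, e2]; ring
    rw [hsym] at hz2
    have hWi := hW i
    unfold VK3.Wd at hWi
    have hWi' : Z i ^ 2 - (4 * Xi i ^ 3 - 12 * aeval s (D.al i) * aeval t (D.al i) * Xi i +
        54 * aeval s (D.be i) * aeval t (D.be i) - Th i ^ 2) * Z i +
        D.dsc i s * D.dsc i t = 0 := hWi
    have h3 : (z - Z i) * (Z i * z - D.dsc i s * D.dsc i t) = 0 := by
      linear_combination (Z i) * hz2 - z * hWi'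
    rcases mul_eq_zero.1 h3 with h4 | h4
    · left
      exact sub_eq_zero.1 h4
    · right
      rw [eq_div_iff (hZ i)]
      linear_combination h4
  choose z hz1 hz2 using hz
  have hz0 : ∀ i, z i ≠ 0 := by
    intro i
    rcases hz2 i with e | e
    · rw [e]; exact hZ i
    · rw [e]; exact div_ne_zero (mul_ne_zero (hs i) (ht i)) (hZ i)
  -- the products
  have hp1 : ∏ i, th i = ∏ i, Th i := (Place.At.prod fun i _ => hth1 i).unique hTh1
  have hp2 : ∏ i, (z i - D.dsc i s * D.dsc i t / z i) =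
      ∏ i, (Z i - D.dsc i s * D.dsc i t / Z i) := by
    refine (Place.At.prod (v := v) fun i _ => ?_).unique hT'
    exact (hz1 i).sub ((hdd i).div (hz1 i) (hz0 i))
  have heven := psi_even h hs ht hZ hW hth2 hz2 hp1 hTh hp2 hT
  rw [← heven]
  rcases hst with ⟨e1, e2⟩ | ⟨e1, e2⟩
  · subst e1 e2
    exact PV.fin _ _ _ _ _ hs0 ht0 hz1 hXi hth1 hz0 hss htt
  · subst e1 e2
    have hWz : D.Wd t0 s0 z Xi th := by
      intro i
      have hWi := hW i
      unfold VK3.Wd at hWi ⊢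
      rw [hth2 i]
      have hWi' : Z i ^ 2 - (4 * Xi i ^ 3 - 12 * aeval t0 (D.al i) * aeval s0 (D.al i) * Xi i +
          54 * aeval t0 (D.be i) * aeval s0 (D.be i) - Th i ^ 2) * Z i +
          D.dsc i t0 * D.dsc i s0 = 0 := hWi
      change z i ^ 2 - (4 * Xi i ^ 3 - 12 * aeval t0 (D.al i) * aeval s0 (D.al i) * Xi i +
          54 * aeval t0 (D.be i) * aeval s0 (D.be i) - Th i ^ 2) * z i +
          D.dsc i t0 * D.dsc i s0 = 0
      rcases hz2 i with e | e
      · rw [e]; exact hWi'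
      · have h5 : z i * Z i = D.dsc i t0 * D.dsc i s0 := by
          rw [e, div_mul_cancel₀ _ (hZ i)]
        have h6 : Z i ^ 2 * (z i ^ 2 - (4 * Xi i ^ 3 - 12 * aeval t0 (D.al i) *
            aeval s0 (D.al i) * Xi i + 54 * aeval t0 (D.be i) * aeval s0 (D.be i) - Th i ^ 2) *
            z i + D.dsc i t0 * D.dsc i s0) = 0 := by
          rw [← h5] at hWi' ⊢
          linear_combination (z i * Z i) * hWi'
        exact (mul_eq_zero.1 h6).resolve_left (pow_ne_zero 2 (hZ i))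
    rw [← psi_sym h hs ht hz0 hWz]
    exact PV.fin _ _ _ _ _ hs0 ht0 hz1 hXi hth1 hz0 hss htt

end Pool.Agent.VFP
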