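import Pool.Agent.VFP.Single

/-!
# The parts of the Chow group
-/

set_option autoImplicit false

noncomputable section

namespace Pool.Agent.VFP

open Pool.Agent.ZCyc Polynomial

universe u

variable {k : Type u} [Field k] {N r : ℕ}

section

variable {D : Dat k N r}

private lemma pos_r (h : D.Valid) : 0 < r := by
  rcases Nat.eq_zero_or_pos r with h0 | h0
  · subst h0
    have h1 := h.sum
    rw [Finset.sum_eq_zero fun i _ => (Fin.elim0 (D.blk i) : D.deg i = 0)] at h1
    omega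
  · exact h0

/-- there are one or two blocks, and the sums of the degrees are `4`, or `2` and `2` -/
theorem blocks (h : D.Valid) : r = 1 ∨ (r = 2 ∧ ∀ b, ∑ i with D.blk i = b, D.deg i = 2) := by
  have h0 := pos_r h
  have h1 : ∀ b, 2 ≤ ∑ i with D.blk i = b, D.deg i := by
    intro b
    have h2 := h.pos b
    obtain ⟨c, hc⟩ := h.even b
    omega
  have h2 : ∑ b, ∑ i with D.blk i = b, D.deg i = 4 := by
    rw [Finset.sum_fiberwise, h.sum]
  have h3 : r * 2 ≤ 4 := by
    rw [← h2]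
    calc r * 2 = ∑ _b : Fin r, 2 := by simp
      _ ≤ _ := Finset.sum_le_sum fun b _ => h1 b
  have h4 : r = 1 ∨ r = 2 := by omega
  rcases h4 with h4 | h4
  · exact Or.inl h4
  · subst h4
    refine Or.inr ⟨rfl, ?_⟩
    rw [Fin.sum_univ_two] at h2
    have h5 := h1 0
    have h6 := h1 1
    intro b
    fin_cases b
    · change ∑ i with D.blk i = 0, D.deg i = 2
      omega
    · change ∑ i with D.blk i = 1, D.deg i = 2
      omega

end

variable [IsAlgClosed k] [CharZero k] {D : Dat k N r}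

omit [IsAlgClosed k] [CharZero k] in
private lemma sg_inf {b b' : Fin r} (_hb : b ≠ b') (w : Crd N r k) :
    sg (fl b) (D.inf b' w) = D.inf b' (sg (fl b) w) := by
  refine Crd.ext rfl rfl rfl ?_
  funext c
  simp only [sg, Dat.inf]
  split_ifs
  · rw [mul_zero]
  · rfl

omit [IsAlgClosed k] [CharZero k] in
private lemma sum_units {M : Type*} [AddCommGroup M] (f : (Fin 1 → ℤˣ) → M) :
    ∑ ε, f ε = f 1 + f (fl 0) := by
  rw [← (Equiv.funUnique (Fin 1) ℤˣ).symm.sum_comp]
  have h1 : (Finset.univ : Finset ℤˣ) = {1, -1} := by decide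
  rw [h1, Finset.sum_pair (by decide)]
  congr 2
  · funext b
    fin_cases b
    rfl

private lemma sum_units2 {M : Type*} [AddCommGroup M] (f : (Fin 2 → ℤˣ) → M) :
    ∑ ε, f ε = f 1 + f (fl 0) + f (fl 1) + f (fl 0 * fl 1) := by
  have h1 : (Finset.univ : Finset ℤˣ) = {1, -1} := by decide
  rw [← (finTwoArrowEquiv ℤˣ).symm.sum_comp, Fintype.sum_prod_type, h1,
    Finset.sum_pair (by decide), Finset.sum_pair (by decide), Finset.sum_pair (by decide)]
  have e1 : (finTwoArrowEquiv ℤˣ).symm (1, 1) = 1 := by decide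
  have e2 : (finTwoArrowEquiv ℤˣ).symm (1, -1) = fl 1 := by
    funext b
    fin_cases b <;> rfl
  have e3 : (finTwoArrowEquiv ℤˣ).symm (-1, 1) = fl 0 := by
    funext b
    fin_cases b <;> rfl
  have e4 : (finTwoArrowEquiv ℤˣ).symm (-1, -1) = fl 0 * fl 1 := by
    funext b
    fin_cases b <;> rfl
  rw [e1, e2, e3, e4]
  abel

private lemma sn_fl (b : Fin r) : sn (fl b) = -1 := by
  unfold sn fl
  rw [Finset.prod_eq_single b]
  · simp
  · intro c _ hc
    rw [Function.update_of_ne hc]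
    simp
  · intro hb
    exact absurd (Finset.mem_univ b) hb

private lemma sn_one : sn (1 : Fin r → ℤˣ) = 1 := by
  unfold sn
  simp

/-- `2 ^ r [w] × w' - {w} × w'` does not depend on `w` -/
theorem parts_left (h : D.Valid) {w o w' : Crd N r k} (hw : D.OnX w) (ho : D.OnX o)
    (hw' : D.OnX w') : (2 : ℚ) ^ r • D.cv w w' - D.T1 w w' =
      (2 : ℚ) ^ r • D.cv o w' - D.T1 o w' := by
  rcases blocks h with rfl | ⟨rfl, hb⟩
  · -- one block
    have key : ∀ w, D.OnX w → (2 : ℚ) ^ 1 • D.cv w w' - D.T1 w w' =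
        (2 : ℚ) • D.cv (D.inf 0 w) w' := by
      intro w hw
      rw [← pencil h 0 hw hw']
      unfold Dat.T1
      rw [sum_units, sn_fl, sn_one, sg_one]
      module
    rw [key w hw, key o ho]
    congr 1
    refine cv_inf h (onX_inf h 0 hw) (onX_inf h 0 ho) hw' ?_ ?_
    · intro i
      simp [Dat.inf, Subsingleton.elim (D.blk i) 0]
    · intro i
      simp [Dat.inf, Subsingleton.elim (D.blk i) 0]
  · -- two blocks
    have key : ∀ w, D.OnX w → (2 : ℚ) ^ 2 • D.cv w w' - D.T1 w w' =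
        (4 : ℚ) • D.cv (D.inf 0 (D.inf 1 w)) w' := by
      intro w hw
      have hz : ∀ (b b' : Fin 2), b ≠ b' → ∀ (w : Crd N 2 k) (i : Fin N), D.blk i ≠ b →
          (D.inf b' w).z i = 0 := by
        intro b b' hbb w i hi
        have h1 : D.blk i = b' := by omega
        simp [Dat.inf, h1]
      have p0 := pencil h 0 hw hw'
      have p1 := pencil h 1 hw hw'
      have p2 := pencil h 0 (onX_sg (fl 1) hw) hw'
      have s1 := single h (hb 1) (onX_inf h 0 hw) hw' (hz 1 0 (by decide) w)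
      have p3 := pencil h 0 (onX_inf h 1 hw) hw'
      have s0 := single h (hb 0) (onX_inf h 1 hw) hw' (hz 0 1 (by decide) w)
      rw [sg_inf (by decide)] at s1
      rw [s1, sg_sg] at p2
      rw [s0] at p3
      unfold Dat.T1
      rw [sum_units2, sn_mul, sn_fl, sn_fl, sn_one, sg_one]
      have e1 : D.cv (sg (fl 0) w) w' = (2 : ℚ) • D.cv (D.inf 0 w) w' - D.cv w w' := by
        rw [← p0]; abel
      have e2 : D.cv (sg (fl 1) w) w' = (2 : ℚ) • D.cv (D.inf 1 w) w' - D.cv w w' := by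
        rw [← p1]; abel
      have e3 : D.cv (sg (fl 0 * fl 1) w) w' = (2 : ℚ) • D.cv (D.inf 0 w) w' -
          D.cv (sg (fl 1) w) w' := by
        rw [← p2]; abel
      have e4 : D.cv (D.inf 0 (D.inf 1 w)) w' = D.cv (D.inf 1 w) w' := by
        have h2 : (2 : ℚ) • D.cv (D.inf 0 (D.inf 1 w)) w' = (2 : ℚ) • D.cv (D.inf 1 w) w' := by
          rw [← p3, two_smul]
        exact smul_right_injective _ (two_ne_zero (α := ℚ)) h2
      rw [e3, e1, e2, e4]
      module
    rw [key w hw, key o ho]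
    congr 1
    have hz : ∀ (w : Crd N 2 k) (i : Fin N), (D.inf 0 (D.inf 1 w)).z i = 0 := by
      intro w i
      rcases Fin.exists_fin_two.1 ⟨D.blk i, rfl⟩ with h1 | h1
      · simp [Dat.inf, h1]
      · simp [Dat.inf, h1]
    exact cv_inf h (onX_inf h 0 (onX_inf h 1 hw)) (onX_inf h 0 (onX_inf h 1 ho)) hw' (hz w) (hz o)

/-- the coefficients of `2 ^ r [w] - {w}` -/
private def cc (ε : Fin r → ℤˣ) : ℚ := (if ε = 1 then 2 ^ r else 0) - sn ε

private lemma sum_cc {M : Type*} [AddCommGroup M] [Module ℚ M] (f : (Fin r → ℤˣ) → M) :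
    ∑ ε, cc ε • f ε = (2 : ℚ) ^ r • f 1 - ∑ ε, sn ε • f ε := by
  unfold cc
  simp only [sub_smul, Finset.sum_sub_distrib, ite_smul, zero_smul]
  rw [Finset.sum_ite_eq' Finset.univ (1 : Fin r → ℤˣ), if_pos (Finset.mem_univ _)]

/-- Apply `parts_left` and `cv_swap`. -/
theorem parts (h : D.Valid) : ∃ G H : Crd N r k → D.V, ∀ w w', D.OnX w → D.OnX w' →
    (4 : ℚ) ^ r • D.cv w w' = D.T w w' + G w + H w' := by
  by_cases hne : ∃ o : Crd N r k, D.OnX o
  swap
  · exact ⟨0, 0, fun w w' hw => absurd ⟨w, hw⟩ hne⟩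
  obtain ⟨o, ho⟩ := hne
  -- the left part
  have hL : ∀ w w', D.OnX w → D.OnX w' → ∑ ε, cc ε • D.cv (sg ε w) w' =
      ∑ ε, cc ε • D.cv (sg ε o) w' := by
    intro w w' hw hw'
    rw [sum_cc fun ε => D.cv (sg ε w) w', sum_cc fun ε => D.cv (sg ε o) w', sg_one, sg_one]
    exact parts_left h hw ho hw'
  -- the right part
  have hR : ∀ w w', D.OnX w → D.OnX w' → ∑ ε, cc ε • D.cv w (sg ε w') =
      ∑ ε, cc ε • D.cv w (sg ε o) := by
    intro w w' hw hw'
    have h1 := cv_swap (D := D) (Finset.univ : Finset (Bool × (Fin r → ℤˣ)))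
      (fun p => (if p.1 then 1 else -1) * cc p.2) (fun p => sg p.2 (if p.1 then w' else o))
      (fun _ => w) (by
        rw [Fintype.sum_prod_type, Fintype.sum_bool]
        have h2 := hL w' w hw' hw
        simp only [if_true, Bool.false_eq_true, if_false, one_mul, neg_mul, neg_smul,
          Finset.sum_neg_distrib]
        rw [h2, add_neg_cancel])
    rw [Fintype.sum_prod_type, Fintype.sum_bool] at h1
    simp only [if_true, Bool.false_eq_true, if_false, one_mul, neg_mul, neg_smul,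
      Finset.sum_neg_distrib] at h1
    exact add_neg_eq_zero.1 h1
  refine ⟨fun w => (2 : ℚ) ^ r • ∑ ε, cc ε • D.cv w (sg ε o),
    fun w' => ∑ ε', sn ε' • ∑ ε, cc ε • D.cv (sg ε o) (sg ε' w'), ?_⟩
  intro w w' hw hw'
  have hT : D.T w w' = ∑ ε', sn ε' • D.T1 w (sg ε' w') := by
    unfold Dat.T Dat.T1
    rw [Finset.sum_comm]
    refine Finset.sum_congr rfl fun ε' _ => ?_
    rw [Finset.smul_sum]
    refine Finset.sum_congr rfl fun ε _ => ?_
    rw [smul_smul, mul_comm]
  have hT1 : ∀ w'', D.OnX w'' → D.T1 w w'' = (2 : ℚ) ^ r • D.cv w w'' -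
      ∑ ε, cc ε • D.cv (sg ε o) w'' := by
    intro w'' hw''
    rw [← hL w w'' hw hw'', sum_cc fun ε => D.cv (sg ε w) w'', sg_one]
    unfold Dat.T1
    abel
  have h2 : ∑ ε', sn ε' • D.cv w (sg ε' w') = (2 : ℚ) ^ r • D.cv w w' -
      ∑ ε, cc ε • D.cv w (sg ε o) := by
    rw [← hR w w' hw hw', sum_cc fun ε => D.cv w (sg ε w'), sg_one]
    abel
  have h3 : D.T w w' = (2 : ℚ) ^ r • ((2 : ℚ) ^ r • D.cv w w' - ∑ ε, cc ε • D.cv w (sg ε o)) -
      ∑ ε', sn ε' • ∑ ε, cc ε • D.cv (sg ε o) (sg ε' w') := by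
    rw [hT, ← h2, Finset.smul_sum, ← Finset.sum_sub_distrib]
    refine Finset.sum_congr rfl fun ε' _ => ?_
    rw [hT1 _ (onX_sg ε' hw'), smul_sub, smul_comm]
  rw [h3, smul_sub, smul_smul, ← mul_pow]
  norm_num
  abel

end Pool.Agent.VFP
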