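import Pool.Agent.VFP.Bridge
import Pool.Agent.VFP.Scale

/-!
# Moving a block to infinity
-/

set_option autoImplicit false

noncomputable section

namespace Pool.Agent.VFP

open Pool.Agent.ZCyc Polynomial

universe u

variable {k : Type u} [Field k] {N r : ℕ}

variable [IsAlgClosed k] [CharZero k] {D : Dat k N r}

/-- the point with the block `b` moved to infinity -/
def Dat.inf (D : Dat k N r) (b : Fin r) (w : Crd N r k) : Crd N r k where
  s := w.s
  x i := if D.blk i = b then 1 else w.x i
  z i := if D.blk i = b then 0 else w.z i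
  y b' := if b' = b then 0 else w.y b'

/-- the sign change of `y_b` -/
def fl (b : Fin r) : Fin r → ℤˣ := Function.update 1 b (-1)

omit [IsAlgClosed k] [CharZero k] in
private theorem pn_at_prod {v : Place k (Om k)} {ι : Type} (I : Finset ι) {f : ι → Om k}
    {c : ι → k} (h : ∀ i ∈ I, v.At (f i) (c i)) : v.At (∏ i ∈ I, f i) (∏ i ∈ I, c i) := by
  classical
  induction I using Finset.induction_on with
  | empty => simpa using at_one
  | insert a I ha ih =>
    rw [Finset.prod_insert ha, Finset.prod_insert ha]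
    exact (h a (Finset.mem_insert_self a I)).mul
      (ih fun i hi => h i (Finset.mem_insert_of_mem hi))

omit [IsAlgClosed k] [CharZero k] in
private theorem pn_scale_one (P : Crd N r (Om k)) : D.scale 1 (fun _ => 1) P = P := by
  refine Crd.ext ?_ ?_ ?_ ?_
  · funext j
    simp [Dat.scale]
  · funext j
    simp [Dat.scale]
  · funext j
    simp [Dat.scale]
  · funext j
    simp [Dat.scale]

omit [IsAlgClosed k] [CharZero k] in
private theorem pn_isValue {v : Place k (Om k)} {P : Crd N r (Om k)} {p : Crd N r k}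
    (h1 : ∀ j, v.At (P.s j) (p.s j)) (h2 : ∀ i, v.At (P.x i) (p.x i))
    (h3 : ∀ i, v.At (P.z i) (p.z i)) (h4 : ∀ b, v.At (P.y b) (p.y b)) : D.IsValue v P p := by
  refine ⟨1, fun _ => 1, ?_⟩
  rw [pn_scale_one]
  exact ⟨h1, h2, h3, h4⟩

omit [IsAlgClosed k] [CharZero k] in
private theorem pn_aeval (s : Fin 2 → k) (A : MvPolynomial (Fin 2) k) :
    MvPolynomial.aeval (fun j => algebraMap k (Om k) (s j)) A =
      algebraMap k (Om k) (MvPolynomial.aeval s A) := by
  have h := MvPolynomial.aeval_algebraMap_apply (Om k) s A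
  exact h

omit [IsAlgClosed k] [CharZero k] in
theorem onX_inf (h : D.Valid) (b : Fin r) {w : Crd N r k} (hw : D.OnX w) : D.OnX (D.inf b w) := by
  obtain ⟨h1, h2, h3⟩ := hw
  refine ⟨h1, fun i => ?_, fun b' => ?_⟩
  · by_cases hi : D.blk i = b
    · left
      show (if D.blk i = b then (1 : k) else w.x i) ≠ 0
      rw [if_pos hi]
      exact one_ne_zero
    · have e1 : (D.inf b w).x i = w.x i := if_neg hi
      have e2 : (D.inf b w).z i = w.z i := if_neg hi
      rw [e1, e2]
      exact h2 i
  · by_cases hb : b' = b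
    · subst hb
      obtain ⟨i, hi⟩ := h.surj b'
      have e1 : (D.inf b' w).y b' = 0 := if_pos rfl
      rw [e1, zero_pow two_ne_zero, eq_comm]
      apply Finset.prod_eq_zero (i := i)
      · simp [hi]
      · have e2 : (D.inf b' w).z i = 0 := if_pos hi
        unfold Dat.fac
        rw [e2, zero_mul]
    · have e1 : (D.inf b w).y b' = w.y b' := if_neg hb
      rw [e1, h3 b']
      apply Finset.prod_congr rfl
      intro i hi
      have hi' : D.blk i ≠ b := by
        rw [Finset.mem_filter] at hi
        rw [hi.2]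
        exact hb
      have e2 : (D.inf b w).x i = w.x i := if_neg hi'
      have e3 : (D.inf b w).z i = w.z i := if_neg hi'
      have e4 : (D.inf b w).s = w.s := rfl
      unfold Dat.fac
      rw [e2, e3, e4]

/-- the family of the pencil -/
private def pnP (D : Dat k N r) (b : Fin r) (w : Crd N r k) (Y : Om k) : Crd N r (Om k) where
  s j := algebraMap k (Om k) (w.s j)
  x i := if D.blk i = b then
    algebraMap k (Om k) (w.x i) + (1 - tt k) / tt k * algebraMap k (Om k) (w.z i)
    else algebraMap k (Om k) (w.x i)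
  z i := algebraMap k (Om k) (w.z i)
  y b' := if b' = b then Y else algebraMap k (Om k) (w.y b')

omit [IsAlgClosed k] [CharZero k] in
private theorem pn_onX {b : Fin r} {w : Crd N r k} (hw : D.OnX w) {Y : Om k}
    (hY : Y ^ 2 = ∏ i with D.blk i = b, D.fac (pnP D b w 0) i) : D.OnX (pnP D b w Y) := by
  obtain ⟨h1, h2, h3⟩ := hw
  refine ⟨fun h0 => h1 ?_, fun i => ?_, fun b' => ?_⟩
  · funext j
    have := congrFun h0 j
    exact (map_eq_zero (algebraMap k (Om k))).1 this
  · by_cases hz : w.z i = 0
    · left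
      have hx : w.x i ≠ 0 := by
        rcases h2 i with h4 | h4
        · exact h4
        · exact absurd hz h4
      have e1 : (pnP D b w Y).x i = algebraMap k (Om k) (w.x i) := by
        show (if D.blk i = b then
          algebraMap k (Om k) (w.x i) + (1 - tt k) / tt k * algebraMap k (Om k) (w.z i)
          else algebraMap k (Om k) (w.x i)) = _
        rw [hz, map_zero, mul_zero, add_zero, ite_self]
      rw [e1]
      exact fun h0 => hx ((map_eq_zero (algebraMap k (Om k))).1 h0)
    · right
      exact fun h0 => hz ((map_eq_zero (algebraMap k (Om k))).1 h0)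
  · by_cases hb : b' = b
    · subst hb
      have e1 : (pnP D b' w Y).y b' = Y := if_pos rfl
      rw [e1, hY]
      rfl
    · have e1 : (pnP D b w Y).y b' = algebraMap k (Om k) (w.y b') := if_neg hb
      rw [e1, ← map_pow, h3 b', map_prod]
      apply Finset.prod_congr rfl
      intro i hi
      have hi' : D.blk i ≠ b := by
        rw [Finset.mem_filter] at hi
        rw [hi.2]
        exact hb
      have e2 : (pnP D b w Y).x i = algebraMap k (Om k) (w.x i) := if_neg hi'
      have e3 : (pnP D b w Y).z i = algebraMap k (Om k) (w.z i) := rfl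
      have e4 : (pnP D b w Y).s = fun j => algebraMap k (Om k) (w.s j) := rfl
      unfold Dat.fac
      rw [e2, e3, e4, pn_aeval, pn_aeval]
      simp only [map_mul, map_add, map_pow]

omit [IsAlgClosed k] [CharZero k] in
private theorem pn_x_one {v : Place k (Om k)} (hv : v.At (tt k) 1) (b : Fin r) (w : Crd N r k)
    (Y : Om k) (i : Fin N) : v.At ((pnP D b w Y).x i) (w.x i) := by
  show v.At (if D.blk i = b then
    algebraMap k (Om k) (w.x i) + (1 - tt k) / tt k * algebraMap k (Om k) (w.z i)
    else algebraMap k (Om k) (w.x i)) (w.x i)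
  split_ifs
  · have h1 := (Place.at_const (v := v) (w.x i)).add
      ((param_one hv).mul (Place.at_const (v := v) (w.z i)))
    rwa [zero_mul, add_zero] at h1
  · exact Place.at_const (w.x i)

/-- the value of the product at `t = 1` -/
private theorem pn_Y_one {v : Place k (Om k)} (hv : v.At (tt k) 1) {b : Fin r} {w : Crd N r k}
    (hw : D.OnX w) {Y : Om k} (hY : Y ^ 2 = ∏ i with D.blk i = b, D.fac (pnP D b w 0) i) :
    v.At Y (w.y b) ∨ v.At Y (-(w.y b)) := by
  have h1 : v.At (∏ i with D.blk i = b, D.fac (pnP D b w 0) i)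
      (∏ i with D.blk i = b, D.fac w i) := by
    apply pn_at_prod
    intro i _
    have hx := pn_x_one (D := D) hv b w 0 i
    have hz : v.At ((pnP D b w 0).z i) (w.z i) := Place.at_const (w.z i)
    have hA : v.At (MvPolynomial.aeval (pnP D b w 0).s (D.A i))
        (MvPolynomial.aeval w.s (D.A i)) := by
      have e : MvPolynomial.aeval (pnP D b w 0).s (D.A i) =
        algebraMap k (Om k) (MvPolynomial.aeval w.s (D.A i)) := pn_aeval w.s _
      rw [e]
      exact Place.at_const _
    have hB : v.At (MvPolynomial.aeval (pnP D b w 0).s (D.B i))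
        (MvPolynomial.aeval w.s (D.B i)) := by
      have e : MvPolynomial.aeval (pnP D b w 0).s (D.B i) =
        algebraMap k (Om k) (MvPolynomial.aeval w.s (D.B i)) := pn_aeval w.s _
      rw [e]
      exact Place.at_const _
    exact hz.mul (((hx.pow 3).add ((hA.mul hx).mul (hz.pow 2))).add (hB.mul (hz.pow 3)))
  rw [← hw.2.2 b] at h1
  obtain ⟨d, hd, hd2⟩ := exists_sq_at hY h1
  rcases sq_eq_sq_iff_eq_or_eq_neg.1 hd2 with h2 | h2
  · left
    rwa [h2] at hd
  · right
    rwa [h2] at hd

omit [IsAlgClosed k] [CharZero k] in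
private theorem fl_self (b : Fin r) : fl b b = -1 := by
  simp [fl]

omit [IsAlgClosed k] [CharZero k] in
private theorem fl_ne {b b' : Fin r} (h : b' ≠ b) : fl b b' = 1 := by
  simp [fl, Function.update_of_ne h]

omit [IsAlgClosed k] [CharZero k] in
private theorem sg_fl_inf (b : Fin r) (w : Crd N r k) : sg (fl b) (D.inf b w) = D.inf b w := by
  refine Crd.ext rfl rfl rfl ?_
  funext b'
  show (((fl b b' : ℤˣ) : ℤ) : k) * (if b' = b then (0 : k) else w.y b') =
    if b' = b then (0 : k) else w.y b'
  by_cases h : b' = b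
  · rw [if_pos h, mul_zero]
  · rw [if_neg h, fl_ne h]
    simp

omit [IsAlgClosed k] [CharZero k] in
private theorem fl_mul_fl (b : Fin r) : fl b * fl b = 1 := by
  funext b'
  show fl b b' * fl b b' = 1
  by_cases h : b' = b
  · rw [h, fl_self]
    rfl
  · rw [fl_ne h]
    rfl

omit [IsAlgClosed k] [CharZero k] in
private theorem pn_val_one {v : Place k (Om k)} (hv : v.At (tt k) 1) {b : Fin r} {w : Crd N r k}
    {Y : Om k} {d : k} (hd : v.At Y d) (p : Crd N r k) (hs : p.s = w.s) (hx : p.x = w.x)
    (hz : p.z = w.z) (hy : ∀ b', p.y b' = if b' = b then d else w.y b') :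
    D.IsValue v (pnP D b w Y) p := by
  apply pn_isValue
  · intro j
    rw [hs]
    exact Place.at_const (w.s j)
  · intro i
    rw [hx]
    exact pn_x_one hv b w Y i
  · intro i
    rw [hz]
    exact Place.at_const (w.z i)
  · intro b'
    rw [hy b']
    show v.At (if b' = b then Y else algebraMap k (Om k) (w.y b')) _
    by_cases h : b' = b
    · rw [if_pos h, if_pos h]
      exact hd
    · rw [if_neg h, if_neg h]
      exact Place.at_const (w.y b')

omit [IsAlgClosed k] [CharZero k] in
private theorem pn_x_ne {v : Place k (Om k)} (hv : v.At (tt k) 0) {b : Fin r} {w : Crd N r k}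
    (hw : D.OnX w) (Y : Om k) {i : Fin N} (hi : D.blk i = b) :
    (pnP D b w Y).x i ≠ 0 ∧ v.At (((pnP D b w Y).x i)⁻¹ * algebraMap k (Om k) (w.z i)) 0 := by
  have e1 : (pnP D b w Y).x i =
      algebraMap k (Om k) (w.x i) + (1 - tt k) / tt k * algebraMap k (Om k) (w.z i) := if_pos hi
  rw [e1]
  by_cases hz : w.z i = 0
  · have hx : w.x i ≠ 0 := by
      rcases hw.2.1 i with h4 | h4
      · exact h4
      · exact absurd hz h4
    rw [hz, map_zero, mul_zero, add_zero, mul_zero]
    exact ⟨fun h0 => hx ((map_eq_zero (algebraMap k (Om k))).1 h0), at_zero⟩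
  · have h1 : algebraMap k (Om k) (w.x i) + (1 - tt k) / tt k * algebraMap k (Om k) (w.z i) ∉
        v.ring := by
      intro hmem
      have h2 : (1 - tt k) / tt k * algebraMap k (Om k) (w.z i) ∈ v.ring := by
        have h3 := sub_mem hmem (v.const_mem (w.x i))
        rwa [add_sub_cancel_left] at h3
      have h4 : (1 - tt k) / tt k ∈ v.ring := by
        have h5 := mul_mem h2 (v.const_mem ((w.z i)⁻¹))
        have hz' : algebraMap k (Om k) (w.z i) ≠ 0 :=
          fun h0 => hz ((map_eq_zero (algebraMap k (Om k))).1 h0)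
        rw [map_inv₀, mul_assoc, mul_inv_cancel₀ hz', mul_one] at h5
        exact h5
      exact param_zero hv h4
    refine ⟨ne_zero_of_not_mem h1, ?_⟩
    have h2 := (inv_at_of_not_mem h1).mul (Place.at_const (v := v) (w.z i))
    rwa [zero_mul] at h2

omit [IsAlgClosed k] [CharZero k] in
private theorem pn_val_zero (h : D.Valid) {v : Place k (Om k)} (hv : v.At (tt k) 0) {b : Fin r}
    {w : Crd N r k} (hw : D.OnX w) {Y : Om k}
    (hY : Y ^ 2 = ∏ i with D.blk i = b, D.fac (pnP D b w 0) i) :
    D.IsValue v (pnP D b w Y) (D.inf b w) := by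
  obtain ⟨m, hm⟩ : ∃ m : Fin N → Om k, m = fun i =>
    if D.blk i = b then ((pnP D b w Y).x i)⁻¹ else 1 := ⟨_, rfl⟩
  have hm1 : ∀ i, D.blk i = b → m i = ((pnP D b w Y).x i)⁻¹ := by
    intro i hi
    rw [hm]
    exact if_pos hi
  have hm2 : ∀ i, D.blk i ≠ b → m i = 1 := by
    intro i hi
    rw [hm]
    exact if_neg hi
  refine ⟨1, m, ?_, ?_, ?_, ?_⟩
  · intro j
    show v.At (1 * algebraMap k (Om k) (w.s j)) (w.s j)
    rw [one_mul]
    exact Place.at_const (w.s j)
  · intro i
    show v.At (1 ^ D.deg i * m i * (pnP D b w Y).x i) (if D.blk i = b then 1 else w.x i)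
    rw [one_pow, one_mul]
    by_cases hi : D.blk i = b
    · rw [if_pos hi, hm1 i hi, inv_mul_cancel₀ (pn_x_ne hv hw Y hi).1]
      exact at_one
    · have e2 : (pnP D b w Y).x i = algebraMap k (Om k) (w.x i) := if_neg hi
      rw [if_neg hi, hm2 i hi, one_mul, e2]
      exact Place.at_const (w.x i)
  · intro i
    show v.At (m i * algebraMap k (Om k) (w.z i)) (if D.blk i = b then 0 else w.z i)
    by_cases hi : D.blk i = b
    · rw [if_pos hi, hm1 i hi]
      exact (pn_x_ne hv hw Y hi).2
    · rw [if_neg hi, hm2 i hi, one_mul]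
      exact Place.at_const (w.z i)
  · intro b'
    show v.At (1 ^ D.wy b' * (∏ i with D.blk i = b', m i) ^ 2 * (pnP D b w Y).y b')
      (if b' = b then 0 else w.y b')
    rw [one_pow, one_mul]
    by_cases hb : b' = b
    · subst hb
      have e1 : (pnP D b' w Y).y b' = Y := if_pos rfl
      rw [if_pos rfl, e1, Place.at_zero_iff]
      apply v.vanishes_of_pow (n := 2)
      have e2 : ((∏ i with D.blk i = b', m i) ^ 2 * Y) ^ 2 =
          ∏ i with D.blk i = b', (m i) ^ 4 * D.fac (pnP D b' w 0) i := by
        rw [Finset.prod_mul_distrib, ← hY, Finset.prod_pow]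
        ring
      rw [e2, ← Place.at_zero_iff]
      obtain ⟨i₀, hi₀⟩ := h.surj b'
      have e3 : (0 : k) = ∏ i with D.blk i = b', (0 : k) := by
        symm
        apply Finset.prod_eq_zero (i := i₀)
        · simp [hi₀]
        · rfl
      rw [e3]
      apply pn_at_prod
      intro i hi
      rw [Finset.mem_filter] at hi
      obtain ⟨g1, g2⟩ := pn_x_ne hv hw Y hi.2
      rw [← hm1 i hi.2] at g2
      have g3 : m i * (pnP D b' w Y).x i = 1 := by
        rw [hm1 i hi.2, inv_mul_cancel₀ g1]
      have e4 : D.fac (pnP D b' w 0) i = algebraMap k (Om k) (w.z i) *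
          (((pnP D b' w Y).x i) ^ 3 + algebraMap k (Om k) (MvPolynomial.aeval w.s (D.A i)) *
            (pnP D b' w Y).x i * algebraMap k (Om k) (w.z i) ^ 2 +
          algebraMap k (Om k) (MvPolynomial.aeval w.s (D.B i)) *
            algebraMap k (Om k) (w.z i) ^ 3) := by
        rw [← pn_aeval, ← pn_aeval]
        rfl
      have e5 : (m i) ^ 4 * D.fac (pnP D b' w 0) i = (m i * algebraMap k (Om k) (w.z i)) *
          (1 + algebraMap k (Om k) (MvPolynomial.aeval w.s (D.A i)) *
            (m i * algebraMap k (Om k) (w.z i)) ^ 2 +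
          algebraMap k (Om k) (MvPolynomial.aeval w.s (D.B i)) *
            (m i * algebraMap k (Om k) (w.z i)) ^ 3) := by
        rw [e4]
        have g4 : (m i * (pnP D b' w Y).x i) ^ 3 = 1 := by rw [g3, one_pow]
        linear_combination (m i * algebraMap k (Om k) (w.z i)) * g4 +
          (m i * algebraMap k (Om k) (w.z i)) ^ 3 *
            algebraMap k (Om k) (MvPolynomial.aeval w.s (D.A i)) * g3
      rw [e5]
      have g5 := g2.mul ((at_one.add ((Place.at_const (v := v)
        (MvPolynomial.aeval w.s (D.A i))).mul (g2.pow 2))).add ((Place.at_const (v := v)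
        (MvPolynomial.aeval w.s (D.B i))).mul (g2.pow 3)))
      rwa [zero_mul] at g5
    · have e1 : (pnP D b w Y).y b' = algebraMap k (Om k) (w.y b') := if_neg hb
      have e2 : ∏ i with D.blk i = b', m i = 1 := by
        apply Finset.prod_eq_one
        intro i hi
        rw [Finset.mem_filter] at hi
        apply hm2
        rw [hi.2]
        exact hb
      rw [if_neg hb, e1, e2, one_pow, one_mul]
      exact Place.at_const (w.y b')

/-- family `x_i + ((1 - t) / t) z_i` for the `i` in the block `b`, `± y_b`, the other coordinates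
constant -/
theorem pencil (h : D.Valid) (b : Fin r) {w w' : Crd N r k} (hw : D.OnX w) (hw' : D.OnX w') :
    D.cv w w' + D.cv (sg (fl b) w) w' = (2 : ℚ) • D.cv (D.inf b w) w' := by
  obtain ⟨Y, hY⟩ := IsAlgClosed.exists_pow_nat_eq
    (∏ i with D.blk i = b, D.fac (pnP D b w 0) i) (n := 2) (by norm_num)
  have hP := pn_onX hw hY
  refine bridge (I := Fin 2) (fun _ => 1) ![pnP D b w Y, sg (fl b) (pnP D b w Y)]
    (fun _ => cst (Om k) w') ?_ (fun _ => onX_cst hw') 1 0 _ _ ?_ ?_
  · rw [Fin.forall_fin_two]
    exact ⟨hP, onX_sg _ hP⟩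
  · intro v hv
    rcases pn_Y_one hv hw hY with hd | hd
    · have h1 : D.IsValue v (pnP D b w Y) w := by
        refine pn_val_one hv hd w rfl rfl rfl fun b' => ?_
        by_cases hb : b' = b
        · rw [if_pos hb, hb]
        · rw [if_neg hb]
      refine ⟨![w, sg (fl b) w], fun _ => w', ?_, fun _ => hw', ?_,
        fun _ => isValue_cst v w', ?_⟩
      · rw [Fin.forall_fin_two]
        exact ⟨hw, onX_sg _ hw⟩
      · rw [Fin.forall_fin_two]
        exact ⟨h1, isValue_sg _ h1⟩
      · rw [Fin.sum_univ_two]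
        simp only [one_smul, Matrix.cons_val_zero, Matrix.cons_val_one]
    · have h1 : D.IsValue v (pnP D b w Y) (sg (fl b) w) := by
        refine pn_val_one hv hd _ rfl rfl rfl fun b' => ?_
        show (((fl b b' : ℤˣ) : ℤ) : k) * w.y b' = _
        by_cases hb : b' = b
        · rw [if_pos hb, hb, fl_self]
          simp
        · rw [if_neg hb, fl_ne hb]
          simp
      have h2 : D.IsValue v (sg (fl b) (pnP D b w Y)) w := by
        have h3 := isValue_sg (fl b) h1
        rwa [sg_sg, fl_mul_fl, sg_one] at h3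
      refine ⟨![sg (fl b) w, w], fun _ => w', ?_, fun _ => hw', ?_,
        fun _ => isValue_cst v w', ?_⟩
      · rw [Fin.forall_fin_two]
        exact ⟨onX_sg _ hw, hw⟩
      · rw [Fin.forall_fin_two]
        exact ⟨h1, h2⟩
      · rw [Fin.sum_univ_two]
        simp only [one_smul, Matrix.cons_val_zero, Matrix.cons_val_one]
        rw [add_comm]
  · intro v hv
    have h1 := pn_val_zero h hv hw hY
    have h2 : D.IsValue v (sg (fl b) (pnP D b w Y)) (D.inf b w) := by
      have h3 := isValue_sg (fl b) h1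
      rwa [sg_fl_inf] at h3
    refine ⟨fun _ => D.inf b w, fun _ => w', fun _ => onX_inf h b hw, fun _ => hw', ?_,
      fun _ => isValue_cst v w', ?_⟩
    · rw [Fin.forall_fin_two]
      exact ⟨h1, h2⟩
    · rw [Fin.sum_univ_two]
      simp only [one_smul]
      rw [two_smul]

/-- the family which joins two points at infinity -/
private def ciP (w o : Crd N r k) : Crd N r (Om k) where
  s j := (1 - tt k) * algebraMap k (Om k) (w.s j) + tt k * algebraMap k (Om k) (o.s j)
  x _ := 1
  z _ := 0
  y _ := 0

omit [IsAlgClosed k] [CharZero k] in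
private theorem ci_onX (h : D.Valid) {w o : Crd N r k} (hw : D.OnX w) : D.OnX (ciP w o) := by
  refine ⟨fun h0 => hw.1 ?_, fun i => ?_, fun b => ?_⟩
  · funext j
    have h1 : (1 - tt k) * algebraMap k (Om k) (w.s j) + tt k * algebraMap k (Om k) (o.s j) = 0 :=
      congrFun h0 j
    by_cases h2 : o.s j = w.s j
    · rw [h2] at h1
      have h3 : algebraMap k (Om k) (w.s j) = 0 := by
        linear_combination h1
      exact (map_eq_zero (algebraMap k (Om k))).1 h3
    · exfalso
      have h3 : o.s j - w.s j ≠ 0 := sub_ne_zero.2 h2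
      have h4 : algebraMap k (Om k) (o.s j - w.s j) ≠ 0 :=
        fun h0 => h3 ((map_eq_zero (algebraMap k (Om k))).1 h0)
      apply tt_ne (-(w.s j) / (o.s j - w.s j))
      rw [map_div₀, eq_div_iff h4, map_sub, map_neg]
      linear_combination h1
  · left
    exact one_ne_zero
  · obtain ⟨i, hi⟩ := h.surj b
    show (0 : Om k) ^ 2 = _
    rw [zero_pow two_ne_zero, eq_comm]
    apply Finset.prod_eq_zero (i := i)
    · simp [hi]
    · have e2 : (ciP w o).z i = 0 := rfl
      unfold Dat.fac
      rw [e2, zero_mul]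

private theorem ci_val (h : D.Valid) {v : Place k (Om k)} {w o : Crd N r k} {p : Crd N r k}
    (hp : D.OnX p) (hz : ∀ i, p.z i = 0) (hs : ∀ j, v.At ((ciP w o).s j) (p.s j)) :
    D.IsValue v (ciP w o) p := by
  refine ⟨1, fun i => algebraMap k (Om k) (p.x i), ?_, ?_, ?_, ?_⟩
  · intro j
    show v.At (1 * (ciP w o).s j) (p.s j)
    rw [one_mul]
    exact hs j
  · intro i
    show v.At (1 ^ D.deg i * algebraMap k (Om k) (p.x i) * 1) (p.x i)
    rw [one_pow, one_mul, mul_one]
    exact Place.at_const (p.x i)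
  · intro i
    show v.At (algebraMap k (Om k) (p.x i) * 0) (p.z i)
    rw [mul_zero, hz i]
    exact at_zero
  · intro b
    obtain ⟨i, hi⟩ := h.surj b
    have h1 : p.y b = 0 := by
      rw [← hi]
      exact y_eq_zero hp (hz i)
    show v.At (1 ^ D.wy b * (∏ i with D.blk i = b, algebraMap k (Om k) (p.x i)) ^ 2 * 0) (p.y b)
    rw [mul_zero, h1]
    exact at_zero

/-- all points with `z = 0` have the same class: the family `s = (1 - t) w.s + t o.s` -/
theorem cv_inf (h : D.Valid) {w o w' : Crd N r k} (hw : D.OnX w) (ho : D.OnX o)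
    (hw' : D.OnX w') (hz : ∀ i, w.z i = 0) (hz' : ∀ i, o.z i = 0) : D.cv w w' = D.cv o w' := by
  refine bridge (I := Unit) (fun _ => 1) (fun _ => ciP w o) (fun _ => cst (Om k) w')
    (fun _ => ci_onX h hw) (fun _ => onX_cst hw') 0 1 _ _ ?_ ?_
  · intro v hv
    refine ⟨fun _ => w, fun _ => w', fun _ => hw, fun _ => hw', fun _ => ?_,
      fun _ => isValue_cst v w', ?_⟩
    · apply ci_val h hw hz
      intro j
      have h1 := ((at_one.sub hv).mul (Place.at_const (v := v) (w.s j))).add
        (hv.mul (Place.at_const (v := v) (o.s j)))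
      rw [sub_zero, one_mul, zero_mul, add_zero] at h1
      exact h1
    · simp
  · intro v hv
    refine ⟨fun _ => o, fun _ => w', fun _ => ho, fun _ => hw', fun _ => ?_,
      fun _ => isValue_cst v w', ?_⟩
    · apply ci_val h ho hz'
      intro j
      have h1 := ((at_one.sub hv).mul (Place.at_const (v := v) (w.s j))).add
        (hv.mul (Place.at_const (v := v) (o.s j)))
      rw [sub_self, one_mul, zero_mul, zero_add] at h1
      exact h1
    · simp

omit [IsAlgClosed k] [CharZero k] in
private theorem swap_mem {z : Crd N r k × Crd N r k →₀ ℚ} (hz : z ∈ D.ratEq) :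
    Finsupp.lmapDomain ℚ ℚ (Prod.swap : Crd N r k × Crd N r k → Crd N r k × Crd N r k) z ∈
      D.ratEq := by
  have h : D.ratEq ≤ D.ratEq.comap
      (Finsupp.lmapDomain ℚ ℚ (Prod.swap : Crd N r k × Crd N r k → Crd N r k × Crd N r k)) := by
    rw [Dat.ratEq, Submodule.span_le]
    rintro z ⟨n, P, Q, a, b, v, w, p, q, p', q', h1, h2, h3, h4, h5, h6, rfl⟩
    apply Submodule.subset_span
    refine ⟨n, Q, P, a, b, v, w, q, p, q', p', fun i => ⟨(h1 i).2, (h1 i).1⟩, fun g => ?_, h3, h4,
      fun i => ⟨(h5 i).2.1, (h5 i).1, (h5 i).2.2.2, (h5 i).2.2.1⟩,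
      fun i => ⟨(h6 i).2.1, (h6 i).1, (h6 i).2.2.2, (h6 i).2.2.1⟩, ?_⟩
    · obtain ⟨e, he⟩ := h2 g
      exact ⟨e, fun i => ⟨(he i).2, (he i).1⟩⟩
    · rw [map_sum]
      apply Finset.sum_congr rfl
      intro i _
      rw [map_sub, Finsupp.lmapDomain_apply, Finsupp.lmapDomain_apply, Finsupp.mapDomain_single,
        Finsupp.mapDomain_single]
      rfl
  exact h hz

omit [IsAlgClosed k] [CharZero k] in
/-- exchange of the two factors -/
theorem cv_swap {ι : Type} (I : Finset ι) (c : ι → ℚ) (w w' : ι → Crd N r k)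
    (h : ∑ i ∈ I, c i • D.cv (w i) (w' i) = 0) : ∑ i ∈ I, c i • D.cv (w' i) (w i) = 0 := by
  have key : ∀ a b : ι → Crd N r k, ∑ i ∈ I, c i • D.cv (a i) (b i) =
      D.ratEq.mkQ (∑ i ∈ I, c i • Finsupp.single (a i, b i) (1 : ℚ)) := by
    intro a b
    rw [map_sum]
    apply Finset.sum_congr rfl
    intro i _
    rw [map_smul]
    rfl
  rw [key, Submodule.mkQ_apply, Submodule.Quotient.mk_eq_zero] at h ⊢
  have h1 := swap_mem h
  rw [map_sum] at h1
  convert h1 using 2
  rename_i i _
  rw [map_smul, Finsupp.lmapDomain_apply, Finsupp.mapDomain_single]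
  rfl

end Pool.Agent.VFP
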