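import Pool.Agent.VFP.Line
import Pool.Agent.VFP.Line0

/-!
# The function psi is well defined
-/

set_option autoImplicit false

noncomputable section

namespace Pool.Agent.VFP

open Pool.Agent.ZCyc Polynomial
open Pool.Agent.VK3 (Lift)

universe u

section Roots

private lemma psi_root (k : Type u) [Field k] [IsAlgClosed k] : ∃ z : k, z ^ 2 + z + 1 = 0 := by
  obtain ⟨z, hz⟩ := IsAlgClosed.exists_root (X ^ 2 + X + 1 : k[X]) (by
    have : (X ^ 2 + X + 1 : k[X]).degree = 2 := by compute_degree!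
    rw [this]
    exact two_ne_zero)
  refine ⟨z, ?_⟩
  simpa [IsRoot] using hz

variable {k : Type u} [Field k]

private lemma psi_cube {z : k} (hz : z ^ 2 + z + 1 = 0) : z ^ 3 = 1 := by
  linear_combination (z - 1) * hz

private lemma psi_root_sq {z : k} (hz : z ^ 2 + z + 1 = 0) : (z ^ 2) ^ 2 + z ^ 2 + 1 = 0 := by
  linear_combination (z ^ 2 - z + 1) * hz

private lemma psi_ne {z : k} (hz : z ^ 2 + z + 1 = 0) : z ≠ 0 := by
  rintro rfl
  rw [zero_pow two_ne_zero, zero_add, zero_add] at hz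
  exact one_ne_zero hz

private lemma psi_cube_root {n n' z : k} (hz : z ^ 2 + z + 1 = 0) (h : n' ^ 3 = n ^ 3) :
    n' = n ∨ n' = z * n ∨ n' = z ^ 2 * n := by
  have h1 : (n' - n) * ((n' - z * n) * (n' - z ^ 2 * n)) = 0 := by
    have h2 := psi_cube hz
    linear_combination h + (-n' ^ 2 * n + z * (n' * n ^ 2)) * hz - n ^ 3 * h2
  rcases mul_eq_zero.mp h1 with h2 | h2
  · exact Or.inl (sub_eq_zero.mp h2)
  · rcases mul_eq_zero.mp h2 with h3 | h3
    · exact Or.inr (Or.inl (sub_eq_zero.mp h3))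
    · exact Or.inr (Or.inr (sub_eq_zero.mp h3))

private lemma psi_cube_mul {n z u : k} (hz : z ^ 2 + z + 1 = 0) (hn : n ^ 3 = u ^ 2) :
    (z * n) ^ 3 = u ^ 2 := by
  rw [mul_pow, psi_cube hz, one_mul, hn]

end Roots

variable {k : Type u} [Field k] {N r : ℕ}

section

variable {D : Dat k N r}

private lemma psi_u_ne {s t : k} {Z Xi Th u n x x' : Fin N → k}
    (hL : D.Lft s t Z Xi Th u n x x') (i : Fin N) : u i ≠ 0 := by
  intro h0
  have h1 := (hL i).hn
  rw [h0, zero_pow two_ne_zero] at h1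
  exact (hL i).hn0 (pow_eq_zero_iff three_ne_zero |>.mp h1)

private lemma psi_hF {s t : k} {Z Xi Th u n x x' : Fin N → k}
    (hL : D.Lft s t Z Xi Th u n x x') (j : Fin N) :
    D.ff j t (x' j) = u j ^ 2 * D.ff j s (x j) := (hL j).hF

/-- another lift in the coordinate `i` -/
private lemma lft_update {s t : k} {Z Xi Th u n x x' : Fin N → k}
    (hL : D.Lft s t Z Xi Th u n x x') {i : Fin N} {u' n' y y' : k}
    (hi : Lift (aeval s (D.al i)) (aeval s (D.be i)) (aeval t (D.al i)) (aeval t (D.be i)) (Z i)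
      (Xi i) (Th i) u' n' y y') :
    D.Lft s t Z Xi Th (Function.update u i u') (Function.update n i n') (Function.update x i y)
      (Function.update x' i y') := by
  intro j
  by_cases hj : j = i
  · subst hj
    simpa only [Function.update_self] using hi
  · simpa only [Function.update_of_ne hj] using hL j

end

variable [IsAlgClosed k] [CharZero k] {D : Dat k N r}

/-- the factor `Xi - n' As - At / n'` vanishes for `n' = z n` -/
private lemma cl5_zero_aux (h : D.Valid) (i : Fin N) {s t z : k} {Z Xi Th u n x x' : Fin N → k}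
    (hz : z ^ 2 + z + 1 = 0) (hL : D.Lft s t Z Xi Th u n x x')
    (hX : z * n i * Xi i = (z * n i) ^ 2 * aeval s (D.al i) + aeval t (D.al i)) :
    D.cl5 s t u x x' = 0 := by
  have hz' := psi_root_sq hz
  have hn0 : z ^ 2 * n i ≠ 0 := mul_ne_zero (psi_ne hz') (hL i).hn0
  have hn3 : (z ^ 2 * n i) ^ 3 = u i ^ 2 := psi_cube_mul hz' (hL i).hn
  have hF := psi_hF hL
  by_cases hm : x' i - z ^ 2 * n i * x i = 0
  · exact line0 h i hn0 hn3 hF (sub_eq_zero.mp hm)
  · obtain ⟨w, hw1, hw2⟩ := VK3.lift_degenerate hz (hL i) hX hm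
    have h1 := line h i hn0 hn3 hF hm hw1
    rw [hw2] at h1
    have h2 : D.cl5 s t u (Function.update x i w) (Function.update x' i (n i * w)) = 0 := by
      apply line0 h i (hL i).hn0 (hL i).hn
      · intro j
        by_cases hj : j = i
        · subst hj
          rw [Function.update_self, Function.update_self]
          have hFj := hF j
          unfold Dat.ff at hFj ⊢
          rw [← hw2]
          linear_combination hFj + (w - x j) * hw1 +
            (w ^ 3 - x j ^ 3 + aeval s (D.al j) * (w - x j)) * hn3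
        · rw [Function.update_of_ne hj, Function.update_of_ne hj]
          exact hF j
      · rw [Function.update_self, Function.update_self]
    rw [h2, add_zero] at h1
    exact h1

/-- the factor `Xi - n' As - At / n'` vanishes for `n' = n` -/
private lemma cl5_zero_aux' (h : D.Valid) (i : Fin N) {s t z : k} {Z Xi Th u n x x' : Fin N → k}
    (hz : z ^ 2 + z + 1 = 0) (hL : D.Lft s t Z Xi Th u n x x')
    (hX : n i * Xi i = n i ^ 2 * aeval s (D.al i) + aeval t (D.al i)) :
    D.cl5 s t u x x' = 0 := by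
  have h1 := Lift.xi (hL i) hz
  have h2 : (3 : k) * ((x' i - z * n i * x i) * (x' i - z ^ 2 * n i * x i)) = 0 := by
    rw [← h1, hX]
    ring
  rcases mul_eq_zero.mp h2 with h3 | h3
  · exact absurd h3 (by norm_num)
  · rcases mul_eq_zero.mp h3 with h4 | h4
    · exact line0 h i (mul_ne_zero (psi_ne hz) (hL i).hn0) (psi_cube_mul hz (hL i).hn) (psi_hF hL)
        (sub_eq_zero.mp h4)
    · exact line0 h i (mul_ne_zero (psi_ne (psi_root_sq hz)) (hL i).hn0)
        (psi_cube_mul (psi_root_sq hz) (hL i).hn) (psi_hF hL) (sub_eq_zero.mp h4)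

/-- Compare `Pool.Agent.VK3.cl5_zero`, in the coordinate `i`. -/
theorem cl5_zero (h : D.Valid) (i : Fin N) {s t : k} {Z Xi Th u n x x' : Fin N → k}
    (hL : D.Lft s t Z Xi Th u n x x') (hs : D.dsc i s ≠ 0) (hD : D.Ds i s t (Z i) (Xi i) = 0) :
    D.cl5 s t u x x' = 0 := by
  obtain ⟨z, hz⟩ := psi_root k
  have h1 := Lift.dst (hL i) hz
  have hD' : VK3.Dst (aeval s (D.al i)) (aeval s (D.be i)) (aeval t (D.al i)) (Z i) (Xi i) = 0 := hD
  rw [hD', mul_zero] at h1
  have hu := psi_u_ne hL i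
  have h2 : u i ^ 2 * (4 * aeval s (D.al i) ^ 3 + 27 * aeval s (D.be i) ^ 2) ^ 2 ≠ 0 :=
    mul_ne_zero (pow_ne_zero _ hu) (pow_ne_zero _ hs)
  rcases mul_eq_zero.mp h1.symm with h3 | h3
  · exact absurd h3 h2
  · rcases mul_eq_zero.mp h3 with h4 | h4
    · rcases mul_eq_zero.mp h4 with h5 | h5
      · exact cl5_zero_aux' h i hz hL (by linear_combination h5)
      · exact cl5_zero_aux h i hz hL (by linear_combination h5)
    · exact cl5_zero_aux h i (psi_root_sq hz) hL (by linear_combination h4)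

/-- lifts for the cube roots `n` and `z n` in the coordinate `i` -/
private lemma cl5_slopes (h : D.Valid) (i : Fin N) {s t z y y' : k}
    {Z Xi Th u n x x' : Fin N → k} (hz : z ^ 2 + z + 1 = 0)
    (hL : D.Lft s t Z Xi Th u n x x')
    (hi : Lift (aeval s (D.al i)) (aeval s (D.be i)) (aeval t (D.al i)) (aeval t (D.be i)) (Z i)
      (Xi i) (Th i) (u i) (z * n i) y y')
    (hD : D.Ds i s t (Z i) (Xi i) ≠ 0) :
    D.cl5 s t u x x' = D.cl5 s t u (Function.update x i y) (Function.update x' i y') := by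
  obtain ⟨hm, hm', w, hw, hw', hww⟩ := VK3.lift_slopes hz (hL i) hi hD
  have hL' := lft_update hL hi
  rw [Function.update_eq_self] at hL'
  have h1 := line h i hi.hn0 hi.hn (psi_hF hL) hm hw
  have h2 := line (D := D) h i (w := w) (hL i).hn0 (hL i).hn (psi_hF hL')
    (by simpa only [Function.update_self] using hm')
    (by simpa only [Function.update_self] using hw')
  simp only [Function.update_self, Function.update_idem] at h2
  rw [hww] at h1
  exact add_right_cancel (h1.trans h2.symm)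

/-- all lifts with the same `u` have the same class -/
private lemma cl5_same (h : D.Valid) (i : Fin N) {s t n' y y' : k}
    {Z Xi Th u n x x' : Fin N → k} (hL : D.Lft s t Z Xi Th u n x x')
    (hi : Lift (aeval s (D.al i)) (aeval s (D.be i)) (aeval t (D.al i)) (aeval t (D.be i)) (Z i)
      (Xi i) (Th i) (u i) n' y y')
    (hD : D.Ds i s t (Z i) (Xi i) ≠ 0) :
    D.cl5 s t u x x' = D.cl5 s t u (Function.update x i y) (Function.update x' i y') := by
  obtain ⟨z, hz⟩ := psi_root k
  rcases psi_cube_root hz (hi.hn.trans (hL i).hn.symm) with h1 | h1 | h1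
  · subst h1
    obtain ⟨h2, h3⟩ := Lift.unique (hL i) hi hD
    rw [← h2, ← h3, Function.update_eq_self, Function.update_eq_self]
  · rw [h1] at hi
    exact cl5_slopes h i hz hL hi hD
  · rw [h1] at hi
    exact cl5_slopes h i (psi_root_sq hz) hL hi hD

/-- lifts for `Th` and `-Th` -/
private lemma cl5_neg_lift (h : D.Valid) (i : Fin N) {s t n' y y' : k}
    {Z Xi Th u n x x' : Fin N → k} (hL : D.Lft s t Z Xi Th u n x x')
    (hi : Lift (aeval s (D.al i)) (aeval s (D.be i)) (aeval t (D.al i)) (aeval t (D.be i)) (Z i)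
      (Xi i) (-Th i) (u i) n' y y')
    (hD : D.Ds i s t (Z i) (Xi i) ≠ 0) :
    D.cl5 s t u x x' = -D.cl5 s t u (Function.update x i y) (Function.update x' i y') := by
  obtain ⟨z, hz⟩ := psi_root k
  obtain ⟨p, p', hp⟩ := VK3.exists_lift (n := z * n') (hL i).wd hD
    (mul_ne_zero (psi_ne hz) hi.hn0) (psi_cube_mul hz hi.hn) (hL i).hZ
  obtain ⟨hm, hw, hww⟩ := VK3.lift_neg hz hi hp hD
  have hL' := lft_update hL hp
  rw [Function.update_eq_self] at hL'
  have h1 := line (D := D) h i (n := z ^ 2 * n') (w := y)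
    (mul_ne_zero (psi_ne (psi_root_sq hz)) hi.hn0)
    (psi_cube_mul (psi_root_sq hz) hi.hn) (psi_hF hL')
    (by simpa only [Function.update_self] using hm)
    (by simpa only [Function.update_self] using hw)
  simp only [Function.update_self, Function.update_idem] at h1
  rw [hww, ← cl5_same h i hL hp hD] at h1
  exact eq_neg_of_add_eq_zero_left h1

/-- two lifts which differ only in the coordinate `i` have the same class -/
private lemma cl5_one (h : D.Valid) (i : Fin N) {s t u' n' y y' : k}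
    {Z Xi Th u n x x' : Fin N → k} (hL : D.Lft s t Z Xi Th u n x x')
    (hi : Lift (aeval s (D.al i)) (aeval s (D.be i)) (aeval t (D.al i)) (aeval t (D.be i)) (Z i)
      (Xi i) (Th i) u' n' y y')
    (hs : D.dsc i s ≠ 0) (hD : D.Ds i s t (Z i) (Xi i) ≠ 0) :
    D.cl5 s t u x x' = D.cl5 s t (Function.update u i u') (Function.update x i y)
      (Function.update x' i y') := by
  have h1 : u' ^ 2 = u i ^ 2 := mul_right_cancel₀ hs (hi.hZ.trans (hL i).hZ.symm)
  rcases sq_eq_sq_iff_eq_or_eq_neg.mp h1 with h2 | h2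
  · subst h2
    rw [Function.update_eq_self]
    exact cl5_same h i hL hi hD
  · subst h2
    have h3 := Lift.neg hi
    rw [neg_neg] at h3
    rw [cl5_neg]
    exact cl5_neg_lift h i hL h3 hD

/-- all lifts have the same class -/
private lemma cl5_eq (h : D.Valid) {s t : k} {Z Xi Th u n x x' u' n' y y' : Fin N → k}
    (hL : D.Lft s t Z Xi Th u n x x') (hL' : D.Lft s t Z Xi Th u' n' y y')
    (hs : ∀ i, D.dsc i s ≠ 0) (hD : ∀ i, D.Ds i s t (Z i) (Xi i) ≠ 0) :
    D.cl5 s t u x x' = D.cl5 s t u' y y' := by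
  have key : ∀ S : Finset (Fin N),
      D.Lft s t Z Xi Th (S.piecewise u' u) (S.piecewise n' n) (S.piecewise y x)
        (S.piecewise y' x') ∧
      D.cl5 s t u x x' = D.cl5 s t (S.piecewise u' u) (S.piecewise y x) (S.piecewise y' x') := by
    intro S
    induction S using Finset.induction_on with
    | empty => exact ⟨by simpa only [Finset.piecewise_empty] using hL,
        by simp only [Finset.piecewise_empty]⟩
    | insert i S hi ih =>
      obtain ⟨h1, h2⟩ := ih
      simp only [Finset.piecewise_insert]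
      refine ⟨lft_update h1 (hL' i), ?_⟩
      rw [h2]
      exact cl5_one h i h1 (hL' i) (hs i) (hD i)
  have := (key Finset.univ).2
  simpa only [Finset.piecewise_univ] using this

/-- Compare `Pool.Agent.VK3.psi_eq`; change the lifts of one coordinate at a time. -/
theorem psi_eq (h : D.Valid) {s t : k} {Z Xi Th u n x x' : Fin N → k}
    (hL : D.Lft s t Z Xi Th u n x x') (hs : ∀ i, D.dsc i s ≠ 0) :
    D.psi s t Z Xi Th = D.cl5 s t u x x' := by
  classical
  have hex : ∃ w : (Fin N → k) × (Fin N → k) × (Fin N → k) × (Fin N → k),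
      D.Lft s t Z Xi Th w.1 w.2.1 w.2.2.1 w.2.2.2 := ⟨(u, n, x, x'), hL⟩
  rw [Dat.psi, dif_pos hex]
  by_cases hD : ∃ i, D.Ds i s t (Z i) (Xi i) = 0
  · obtain ⟨i, hi⟩ := hD
    rw [cl5_zero h i hL (hs i) hi, cl5_zero h i hex.choose_spec (hs i) hi]
  · push Not at hD
    exact cl5_eq h hex.choose_spec hL hs hD

theorem psi_zero (h : D.Valid) (i : Fin N) {s t : k} {Z Xi Th : Fin N → k}
    (hs : D.dsc i s ≠ 0) (hD : D.Ds i s t (Z i) (Xi i) = 0) : D.psi s t Z Xi Th = 0 := by
  classical
  by_cases hex : ∃ w : (Fin N → k) × (Fin N → k) × (Fin N → k) × (Fin N → k),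
      D.Lft s t Z Xi Th w.1 w.2.1 w.2.2.1 w.2.2.2
  · rw [Dat.psi, dif_pos hex]
    exact cl5_zero h i hex.choose_spec hs hD
  · rw [Dat.psi, dif_neg hex]

omit [IsAlgClosed k] in
private lemma lft_neg (i : Fin N) {s t : k} {Z Xi Th u n x x' : Fin N → k}
    (hL : D.Lft s t Z Xi Th u n x x') :
    D.Lft s t Z Xi (Function.update Th i (-Th i)) (Function.update u i (-u i)) n x x' := by
  intro j
  by_cases hj : j = i
  · subst hj
    simpa only [Function.update_self] using Lift.neg (hL j)
  · simpa only [Function.update_of_ne hj] using hL j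

/-- change of the sign of `Th i` (`Lift.neg`, `cl5_neg`) -/
theorem psi_neg (h : D.Valid) (i : Fin N) {s t : k} {Z Xi Th : Fin N → k}
    (hs : ∀ i, D.dsc i s ≠ 0) :
    D.psi s t Z Xi (Function.update Th i (-Th i)) = -D.psi s t Z Xi Th := by
  classical
  by_cases hex : ∃ w : (Fin N → k) × (Fin N → k) × (Fin N → k) × (Fin N → k),
      D.Lft s t Z Xi Th w.1 w.2.1 w.2.2.1 w.2.2.2
  · obtain ⟨⟨u, n, x, x'⟩, hL⟩ := hex
    have hL0 : D.Lft s t Z Xi Th u n x x' := hL
    rw [psi_eq h hL0 hs, psi_eq h (lft_neg i hL0) hs, cl5_neg]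
  · have hex' : ¬ ∃ w : (Fin N → k) × (Fin N → k) × (Fin N → k) × (Fin N → k),
        D.Lft s t Z Xi (Function.update Th i (-Th i)) w.1 w.2.1 w.2.2.1 w.2.2.2 := by
      rintro ⟨⟨u, n, x, x'⟩, hL⟩
      apply hex
      have h1 := lft_neg i (show D.Lft s t Z Xi (Function.update Th i (-Th i)) u n x x' from hL)
      simp only [Function.update_self, Function.update_idem, neg_neg,
        Function.update_eq_self] at h1
      exact ⟨(_, n, x, x'), h1⟩
    rw [Dat.psi, dif_neg hex', Dat.psi, dif_neg hex, neg_zero]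

/-- exchange of the two factors (`Lift.swap`, `cl5_swap`) -/
theorem psi_swap (h : D.Valid) {s t : k} {Z Xi Th : Fin N → k} (hs : ∀ i, D.dsc i s ≠ 0)
    (ht : ∀ i, D.dsc i t ≠ 0) (hZ : ∀ i, Z i ≠ 0) (hW : D.Wd s t Z Xi Th) :
    D.psi t s (fun i => D.dsc i s * D.dsc i t / Z i) Xi Th =
      (-1 : ℚ) ^ N • D.psi s t Z Xi Th := by
  classical
  by_cases hex : ∃ w : (Fin N → k) × (Fin N → k) × (Fin N → k) × (Fin N → k),
      D.Lft s t Z Xi Th w.1 w.2.1 w.2.2.1 w.2.2.2
  · obtain ⟨⟨u, n, x, x'⟩, hL⟩ := hex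
    have hL0 : D.Lft s t Z Xi Th u n x x' := hL
    have h1 : D.Lft t s (fun i => D.dsc i s * D.dsc i t / Z i) Xi Th (fun i => 1 / u i)
        (fun i => 1 / n i) x' x := fun i => Lift.swap (hL0 i) (hs i)
    rw [psi_eq h hL0 hs, psi_eq h h1 ht]
    exact cl5_swap (psi_u_ne hL0) (psi_hF hL0)
  · have hex' : ¬ ∃ w : (Fin N → k) × (Fin N → k) × (Fin N → k) × (Fin N → k),
        D.Lft t s (fun i => D.dsc i s * D.dsc i t / Z i) Xi Th w.1 w.2.1 w.2.2.1 w.2.2.2 := by
      rintro ⟨⟨u, n, x, x'⟩, hL⟩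
      apply hex
      refine ⟨(fun i => 1 / u i, fun i => 1 / n i, x', x), fun i => ?_⟩
      have h1 := Lift.swap (hL i) (ht i)
      have h2 : (4 * (aeval t (D.al i) : k) ^ 3 + 27 * (aeval t (D.be i)) ^ 2) *
          (4 * (aeval s (D.al i)) ^ 3 + 27 * (aeval s (D.be i)) ^ 2) /
          (D.dsc i s * D.dsc i t / Z i) = Z i := by
        show D.dsc i t * D.dsc i s / (D.dsc i s * D.dsc i t / Z i) = Z i
        have a1 := hs i
        have a2 := ht i
        have a3 := hZ i
        field_simp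
      rw [h2] at h1
      exact h1
    rw [Dat.psi, dif_neg hex', Dat.psi, dif_neg hex, smul_zero]

end Pool.Agent.VFP
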