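import Pool.Agent.VFP.Psi
import Pool.Agent.VFP.Sing

/-!
# Specialisation of lifts
-/

set_option autoImplicit false

noncomputable section

namespace Pool.Agent.VFP

open Pool.Agent.ZCyc Polynomial
open Pool.Agent.VK3 (Lift dett dett_ne)

universe u

variable {k : Type u} [Field k] {N r : ℕ}

section

variable {v : Place k (Om k)} {a b : k[X]} {s t Z Xi Th u n x x' : Om k} {s' t' u' n' : k}

/-- `x'` is integral over `x` and `u` -/
private theorem mem_x' (hs : v.At s s') (ht : v.At t t')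
    (hF : x' ^ 3 + aeval t a * x' + aeval t b = u ^ 2 * (x ^ 3 + aeval s a * x + aeval s b))
    (hu : u ∈ v.ring) (h1 : x ∈ v.ring) : x' ∈ v.ring := by
  refine mem_of_cubic (p := aeval t a)
    (q := u ^ 2 * (x ^ 3 + aeval s a * x + aeval s b) - aeval t b) (at_evalc ht a).mem ?_ ?_
  · exact sub_mem (mul_mem (pow_mem hu 2) (add_mem (add_mem (pow_mem h1 3)
      (mul_mem (at_evalc hs a).mem h1)) (at_evalc hs b).mem)) (at_evalc ht b).mem
  · linear_combination hF

/-- the cube root `n` of `u ²` -/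
private theorem exists_n [IsAlgClosed k] (hn : n ^ 3 = u ^ 2) (hu : v.At u u') (hu' : u' ≠ 0) :
    ∃ n' : k, v.At n n' ∧ n' ^ 3 = u' ^ 2 ∧ n' ≠ 0 := by
  have hn3 : v.At (n ^ 3) (u' ^ 2) := by
    rw [hn]
    exact hu.pow 2
  obtain ⟨n', hn'⟩ := DCI57.exists_at v (mem_of_pow (by norm_num) hn3.mem)
  have h3 : n' ^ 3 = u' ^ 2 := (hn'.pow 3).unique hn3
  refine ⟨n', hn', h3, ?_⟩
  rintro rfl
  apply hu'
  have : u' ^ 2 = 0 := by
    rw [← h3]
    ring
  exact pow_eq_zero_iff (by norm_num) |>.1 this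

/-- `Xi` and `Th` are finite if `x` and `x'` are finite and `u` is a unit -/
private theorem mem_Xi_Th [IsAlgClosed k] (hL : Lift (aeval s a) (aeval s b) (aeval t a)
    (aeval t b) Z Xi Th u n x x') (hs : v.At s s') (ht : v.At t t') (hu : v.At u u')
    (hu' : u' ≠ 0) (h1 : x ∈ v.ring) (h2 : x' ∈ v.ring) : Xi ∈ v.ring ∧ Th ∈ v.ring := by
  obtain ⟨n', hn, -, hn'0⟩ := exists_n hL.hn hu hu'
  have hninv : n⁻¹ ∈ v.ring := (hn.inv hn'0).mem
  have hn0 : n ≠ 0 := hL.hn0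
  have h3 : (3 : Om k) ∈ v.ring := (at_num 3).mem
  have hAs := at_evalc hs a
  have hAt := at_evalc ht a
  have hXi : Xi ∈ v.ring := by
    have e1 : Xi = n⁻¹ * (3 * (n ^ 2 * x ^ 2 + n * x * x' + x' ^ 2) + n ^ 2 * aeval s a +
        aeval t a) := by
      rw [← hL.hXi, inv_mul_cancel_left₀ hn0]
    rw [e1]
    exact mul_mem hninv (add_mem (add_mem (mul_mem h3 (add_mem (add_mem
      (mul_mem (pow_mem hn.mem 2) (pow_mem h1 2)) (mul_mem (mul_mem hn.mem h1) h2))
      (pow_mem h2 2))) (mul_mem (pow_mem hn.mem 2) hAs.mem)) hAt.mem)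
  refine ⟨hXi, ?_⟩
  have e1 : Th = n⁻¹ ^ 2 * (3 * u * ((n * x + x') * Xi + n * aeval s a * x' +
      aeval t a * x)) := by
    rw [← hL.hTh, ← mul_assoc, ← mul_pow, inv_mul_cancel₀ hn0, one_pow, one_mul]
  rw [e1]
  exact mul_mem (pow_mem hninv 2) (mul_mem (mul_mem h3 hu.mem) (add_mem (add_mem
    (mul_mem (add_mem (mul_mem hn.mem h1) h2) hXi) (mul_mem (mul_mem hn.mem hAs.mem) h2))
    (mul_mem hAt.mem h1)))

/-- specialisation of a lift -/
private theorem lift_at {Z' Xi' Th' x₀ x₀' : k} (hL : Lift (aeval s a) (aeval s b) (aeval t a)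
    (aeval t b) Z Xi Th u n x x') (hs : v.At s s') (ht : v.At t t') (hXi : v.At Xi Xi')
    (hTh : v.At Th Th') (hu : v.At u u') (hn : v.At n n') (hn0 : n' ≠ 0) (hn3 : n' ^ 3 = u' ^ 2)
    (hu2 : u' ^ 2 * (4 * aeval s' a ^ 3 + 27 * aeval s' b ^ 2) = Z') (hx : v.At x x₀)
    (hx' : v.At x' x₀') : Lift (aeval s' a) (aeval s' b) (aeval t' a)
    (aeval t' b) Z' Xi' Th' u' n' x₀ x₀' := by
  have hAs := at_evalc hs a
  have hBs := at_evalc hs b
  have hAt := at_evalc ht a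
  have hBt := at_evalc ht b
  refine ⟨hn0, hn3, hu2, ?_, ?_, ?_⟩
  · have e1 : v.At (x' ^ 3 + aeval t a * x' + aeval t b)
        (x₀' ^ 3 + aeval t' a * x₀' + aeval t' b) := ((hx'.pow 3).add (hAt.mul hx')).add hBt
    have e2 : v.At (u ^ 2 * (x ^ 3 + aeval s a * x + aeval s b))
        (u' ^ 2 * (x₀ ^ 3 + aeval s' a * x₀ + aeval s' b)) :=
      (hu.pow 2).mul (((hx.pow 3).add (hAs.mul hx)).add hBs)
    rw [hL.hF] at e1
    exact e1.unique e2
  · have e1 : v.At (n * Xi) (n' * Xi') := hn.mul hXi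
    have e2 : v.At (3 * (n ^ 2 * x ^ 2 + n * x * x' + x' ^ 2) + n ^ 2 * aeval s a +
        aeval t a) (3 * (n' ^ 2 * x₀ ^ 2 + n' * x₀ * x₀' + x₀' ^ 2) + n' ^ 2 * aeval s' a +
        aeval t' a) :=
      (((at_num 3).mul ((((hn.pow 2).mul (hx.pow 2)).add ((hn.mul hx).mul hx')).add
        (hx'.pow 2))).add ((hn.pow 2).mul hAs)).add hAt
    rw [hL.hXi] at e1
    exact e1.unique e2
  · have e1 : v.At (n ^ 2 * Th) (n' ^ 2 * Th') := (hn.pow 2).mul hTh
    have e2 : v.At (3 * u * ((n * x + x') * Xi + n * aeval s a * x' + aeval t a * x))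
        (3 * u' * ((n' * x₀ + x₀') * Xi' + n' * aeval s' a * x₀' + aeval t' a * x₀)) :=
      ((at_num 3).mul hu).mul (((((hn.mul hx).add hx').mul hXi).add
        ((hn.mul hAs).mul hx')).add (hAt.mul hx))
    rw [hL.hTh] at e1
    exact e1.unique e2

/-- Cramer's rule -/
private theorem mem_of_Dst [CharZero k] {Z' Xi' Th' : k} (hL : Lift (aeval s a) (aeval s b)
    (aeval t a) (aeval t b) Z Xi Th u n x x') (hs : v.At s s') (ht : v.At t t')
    (hXi : v.At Xi Xi') (hTh : v.At Th Th') (hu : v.At u u') (hu0 : u' ≠ 0) (hn : v.At n n')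
    (hn0 : n' ≠ 0) (hn3 : n' ^ 3 = u' ^ 2)
    (hu2 : u' ^ 2 * (4 * aeval s' a ^ 3 + 27 * aeval s' b ^ 2) = Z')
    (hne : VK3.Dst (aeval s' a) (aeval s' b) (aeval t' a) Z' Xi' ≠ 0) : x ∈ v.ring := by
  have hAs := at_evalc hs a
  have hBs := at_evalc hs b
  have hAt := at_evalc ht a
  have hBt := at_evalc ht b
  have hdet := dett_ne hn0 hn3 hu2 hne
  have e1 : v.At (3 * u * dett (aeval s a) (aeval t a) Xi n)
      (3 * u' * dett (aeval s' a) (aeval t' a) Xi' n') := by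
    unfold dett
    exact ((at_num 3).mul hu).mul ((at_num 2).mul ((((((hn.pow 2).mul (hXi.pow 2)).add
      (((((hn.pow 2).mul hAs).add hAt).mul hn).mul hXi)).add
      ((hn.pow 4).mul (hAs.pow 2))).sub (((hn.pow 2).mul hAs).mul hAt)).add (hAt.pow 2)))
  have e2 : v.At (n ^ 2 * Th * (n * Xi - n ^ 2 * aeval s a + 2 * aeval t a) -
      9 * u * (Xi + n * aeval s a) * (n ^ 3 * aeval s b - aeval t b))
      (n' ^ 2 * Th' * (n' * Xi' - n' ^ 2 * aeval s' a + 2 * aeval t' a) -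
      9 * u' * (Xi' + n' * aeval s' a) * (n' ^ 3 * aeval s' b - aeval t' b)) :=
    (((hn.pow 2).mul hTh).mul (((hn.mul hXi).sub ((hn.pow 2).mul hAs)).add
      ((at_num 2).mul hAt))).sub ((((at_num 9).mul hu).mul (hXi.add (hn.mul hAs))).mul
      (((hn.pow 3).mul hBs).sub hBt))
  have hne' : 3 * u' * dett (aeval s' a) (aeval t' a) Xi' n' ≠ 0 :=
    mul_ne_zero (mul_ne_zero (by norm_num) hu0) hdet
  have e3 := e2.div e1 hne'
  have hne1 : 3 * u * dett (aeval s a) (aeval t a) Xi n ≠ 0 := by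
    intro h0
    rw [h0] at e1
    exact hne' (e1.unique at_zero)
  have e4 : x = (n ^ 2 * Th * (n * Xi - n ^ 2 * aeval s a + 2 * aeval t a) -
      9 * u * (Xi + n * aeval s a) * (n ^ 3 * aeval s b - aeval t b)) /
      (3 * u * dett (aeval s a) (aeval t a) Xi n) := by
    rw [eq_div_iff hne1]
    have := hL.cramer₁
    linear_combination this
  rw [e4]
  exact e3.mem

end

variable [IsAlgClosed k] [CharZero k] {D : Dat k N r}

/-- Compare `Pool.Agent.VK3.exists_val_of_PV`. -/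
theorem vcl_of_PV (h : D.Valid) {v : Place k (Om k)} {s t : Om k}
    {Z Xi Th u n x x' : Fin N → Om k} {y : Fin r → Om k} (hL : D.Lft s t Z Xi Th u n x x')
    (hP : D.On s x y) {C : D.V} (hC : PV D v s t Z Xi Th C) :
    D.VCL v (aff s x y) (aff t x' (D.up u y)) C := by
  have hF : ∀ i, D.ff i t (x' i) = u i ^ 2 * D.ff i s (x i) := fun i => (hL i).hF
  cases hC with
  | fin s' t' Z' Xi' Th' hs ht hZ hXi hTh hZ0 hDs hDt =>
    have hU : ∀ i, ∃ u' : k, v.At (u i) u' ∧ u' ^ 2 * D.dsc i s' = Z' i ∧ u' ≠ 0 := by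
      intro i
      have hD := dsc_at (D := D) i hs
      have hD0 : D.dsc i s ≠ 0 := by
        intro h0
        rw [h0] at hD
        exact hDs i (hD.unique at_zero)
      have hu2 : v.At (u i ^ 2) (Z' i / D.dsc i s') := by
        have h1 := (hZ i).div hD (hDs i)
        have h2 : Z i / D.dsc i s = u i ^ 2 := by
          rw [div_eq_iff hD0]
          exact (hL i).hZ.symm
        rwa [h2] at h1
      obtain ⟨u', hu⟩ := DCI57.exists_at v (mem_of_pow (by norm_num) hu2.mem)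
      have hu'2 : u' ^ 2 * D.dsc i s' = Z' i := by
        have := (hu.pow 2).unique hu2
        rw [this, div_mul_cancel₀ _ (hDs i)]
      refine ⟨u', hu, hu'2, ?_⟩
      rintro rfl
      apply hZ0 i
      rw [← hu'2]
      ring
    choose u' hu hu'2 hu'0 using hU
    have hN : ∀ i, ∃ n' : k, v.At (n i) n' ∧ n' ^ 3 = u' i ^ 2 ∧ n' ≠ 0 := fun i =>
      exists_n (hL i).hn (hu i) (hu'0 i)
    choose n' hn hn'3 hn'0 using hN
    by_cases hx : ∃ i, x i ∉ v.ring ∨ x' i ∉ v.ring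
    · obtain ⟨i, hi⟩ := hx
      have hxi : x i ∉ v.ring := by
        rcases hi with hi | hi
        · exact hi
        · exact fun h1 => hi (mem_x' hs ht (hL i).hF (hu i).mem h1)
      have hD0 : D.Ds i s' t' (Z' i) (Xi' i) = 0 := by
        by_contra hne
        exact hxi (mem_of_Dst (hL i) hs ht (hXi i) (hTh i) (hu i) (hu'0 i) (hn i) (hn'0 i)
          (hn'3 i) (hu'2 i) hne)
      rw [psi_zero h i (hDs i) hD0]
      exact value_inf h hP hF hs ht ⟨i, hi⟩
    · push Not at hx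
      choose x₀ hx₀ using fun i => DCI57.exists_at v (hx i).1
      choose x₀' hx₀' using fun i => DCI57.exists_at v (hx i).2
      have hL' : D.Lft s' t' Z' Xi' Th' u' n' x₀ x₀' := fun i =>
        lift_at (hL i) hs ht (hXi i) (hTh i) (hu i) (hn i) (hn'0 i) (hn'3 i) (hu'2 i) (hx₀ i)
          (hx₀' i)
      rw [psi_eq h hL' hDs]
      exact value_fin h hP hF hs ht hu hx₀ hx₀'
  | inf i s' t' hs ht hor =>
    by_cases hx : ∃ i, x i ∉ v.ring ∨ x' i ∉ v.ring
    · exact value_inf h hP hF hs ht hx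
    push Not at hx
    choose x₀ hx₀ using fun i => DCI57.exists_at v (hx i).1
    choose x₀' hx₀' using fun i => DCI57.exists_at v (hx i).2
    have hQ : D.On t x' (D.up u y) := on_up hP hF
    obtain ⟨p, hp, hpv, -, hp'⟩ := exists_value h hP hs
    obtain ⟨q, hq, hqv, -, hq'⟩ := exists_value h hQ ht
    by_cases hDs : D.dsc i s' = 0
    · obtain ⟨y₀, -, rfl⟩ := hp' x₀ hx₀
      exact ⟨_, q, hp, hq, hpv, hqv, (CL_sing h hDs ((onX_aff _ _ _).1 hp) hq).1⟩
    by_cases hDt : D.dsc i t' = 0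
    · obtain ⟨y₀, -, rfl⟩ := hq' x₀' hx₀'
      exact ⟨p, _, hp, hq, hpv, hqv, (CL_sing h hDt ((onX_aff _ _ _).1 hq) hp).2⟩
    have hor' := (hor.resolve_left hDs).resolve_left hDt
    by_cases hu : v.At (u i) 0 ∨ u i ∉ v.ring
    · exact value_u h hP hF hs ht ⟨i, hu⟩
    push Not at hu
    obtain ⟨hu0, hur⟩ := hu
    obtain ⟨u', hu⟩ := DCI57.exists_at v hur
    have hu'0 : u' ≠ 0 := by
      rintro rfl
      exact hu0 hu
    exfalso
    have hZ : v.At (Z i) (u' ^ 2 * D.dsc i s') := by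
      rw [← (hL i).hZ]
      exact (hu.pow 2).mul (dsc_at (D := D) i hs)
    obtain ⟨hXi, hTh⟩ := mem_Xi_Th (hL i) hs ht hu hu'0 (hx i).1 (hx i).2
    rcases hor' with h5 | h5 | h5 | h5
    · have := h5.unique hZ
      exact mul_ne_zero (pow_ne_zero 2 hu'0) hDs this.symm
    · exact h5 hZ.mem
    · exact h5 hXi
    · exact h5 hTh

end Pool.Agent.VFP
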