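import Pool.Agent.VFP.Spec

/-!
# Families of points of the Jacobian fibrations
-/

set_option autoImplicit false

noncomputable section

namespace Pool.Agent.VFP

open Pool.Agent.ZCyc Polynomial

universe u

variable {k : Type u} [Field k] {N r : ℕ}

private lemma transfer_root (c : Om k) {m : ℕ} (hm : 0 < m) : ∃ x : Om k, x ^ m = c :=
  IsAlgClosed.exists_pow_nat_eq c hm

private lemma transfer_lift [CharZero k] {D : Dat k N r} {s t : Om k} {Z Xi Th : Fin N → Om k}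
    (hW : D.Wd s t Z Xi Th) (hs : ∀ i, D.dsc i s ≠ 0) (hZ : ∀ i, Z i ≠ 0)
    (hD : ∀ i, D.Ds i s t (Z i) (Xi i) ≠ 0) :
    ∃ (u n x x' : Fin N → Om k) (y : Fin r → Om k), D.Lft s t Z Xi Th u n x x' ∧ D.On s x y := by
  have key : ∀ i, ∃ u n x x' : Om k, VK3.Lift (aeval s (D.al i)) (aeval s (D.be i))
      (aeval t (D.al i)) (aeval t (D.be i)) (Z i) (Xi i) (Th i) u n x x' := by
    intro i
    obtain ⟨u, hu⟩ := transfer_root (Z i / D.dsc i s) (m := 2) (by norm_num)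
    obtain ⟨n, hn⟩ := transfer_root (u ^ 2) (m := 3) (by norm_num)
    have hu0 : u ^ 2 ≠ 0 := by
      rw [hu]
      exact div_ne_zero (hZ i) (hs i)
    have hn0 : n ≠ 0 := by
      rintro rfl
      apply hu0
      rw [← hn]
      ring
    have hZ' : u ^ 2 * (4 * aeval s (D.al i) ^ 3 + 27 * aeval s (D.be i) ^ 2) = Z i := by
      rw [hu]
      exact div_mul_cancel₀ (Z i) (hs i)
    obtain ⟨x, x', hL⟩ := VK3.exists_lift (hW i) (hD i) hn0 hn hZ'
    exact ⟨u, n, x, x', hL⟩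
  choose u n x x' hL using key
  choose y hy using fun b => transfer_root (∏ i with D.blk i = b, D.ff i s (x i)) (m := 2)
    (by norm_num)
  exact ⟨u, n, x, x', y, hL, hy⟩

variable [IsAlgClosed k] [CharZero k] {D : Dat k N r}

/-- Compare `Pool.Agent.VK3.transfer`. -/
theorem transfer (h : D.Valid) {I : Type} [Fintype I] (s t : I → Om k)
    (Z Xi Th : I → Fin N → Om k) (hW : ∀ j, D.Wd (s j) (t j) (Z j) (Xi j) (Th j))
    (hs : ∀ j i, D.dsc i (s j) ≠ 0) (hZ : ∀ j i, Z j i ≠ 0)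
    (hD : ∀ j i, D.Ds i (s j) (t j) (Z j i) (Xi j i) ≠ 0) (c₀ c₁ : k) (C₀ C₁ : D.V)
    (h₀ : ∀ v : Place k (Om k), v.At (tt k) c₀ → ∃ C : I → D.V,
      (∀ j, PV D v (s j) (t j) (Z j) (Xi j) (Th j) (C j)) ∧ ∑ j, C j = C₀)
    (h₁ : ∀ v : Place k (Om k), v.At (tt k) c₁ → ∃ C : I → D.V,
      (∀ j, PV D v (s j) (t j) (Z j) (Xi j) (Th j) (C j)) ∧ ∑ j, C j = C₁) :
    C₀ = C₁ := by
  choose u n x x' y hL hy using fun j => transfer_lift (hW j) (hs j) (hZ j) (hD j)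
  have key : ∀ (c : k) (C' : D.V),
      (∀ v : Place k (Om k), v.At (tt k) c → ∃ C : I → D.V,
        (∀ j, PV D v (s j) (t j) (Z j) (Xi j) (Th j) (C j)) ∧ ∑ j, C j = C') →
      ∀ v : Place k (Om k), v.At (tt k) c → ∃ C : I → D.V,
        (∀ j, D.VCL v (aff (s j) (x j) (y j)) (aff (t j) (x' j) (D.up (u j) (y j))) (C j)) ∧
        ∑ j, C j = C' := by
    intro c C' hc v hv
    obtain ⟨C, hC, hsum⟩ := hc v hv
    exact ⟨C, fun j => vcl_of_PV h (hL j) (hy j) (hC j), hsum⟩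
  exact bridgeCL (fun j => aff (s j) (x j) (y j)) (fun j => aff (t j) (x' j) (D.up (u j) (y j)))
    (fun j => (onX_aff _ _ _).2 (hy j))
    (fun j => (onX_aff _ _ _).2 (on_up (hy j) fun i => (hL j i).hF))
    c₀ c₁ C₀ C₁ (key c₀ C₀ h₀) (key c₁ C₁ h₁)

end Pool.Agent.VFP
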